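import Pool.Agent.GridW.Dich

/-!
# The layered search for patterns of bounded linear grid-width: definition and correctness
-/

namespace Pool.Agent.GridW

/-- `a < b` through `≤` -/
def nlt (a b : ℕ) : Bool := !(decide (b ≤ a))

@[simp] theorem nlt_iff {a b : ℕ} : nlt a b = true ↔ a < b := by
  simp [nlt]

/-- equality of points -/
def peq (p q : ℕ × ℕ) : Bool :=
  (decide (p.1 ≤ q.1) && decide (q.1 ≤ p.1)) && (decide (p.2 ≤ q.2) && decide (q.2 ≤ p.2))

@[simp] theorem peq_iff {p q : ℕ × ℕ} : peq p q = true ↔ p = q := by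
  simp only [peq, Bool.and_eq_true, decide_eq_true_eq]
  constructor
  · rintro ⟨⟨h1, h2⟩, h3, h4⟩
    exact Prod.ext (le_antisymm h1 h2) (le_antisymm h3 h4)
  · rintro rfl
    simp

/-- points covered by a list of intervals -/
def inS (X : List ((ℕ × ℕ) × (ℕ × ℕ))) (q : ℕ × ℕ) : Bool :=
  X.any fun t => decide (t.1.1 ≤ q.1) && decide (q.1 ≤ t.2.1)

/-- compatibility of two pairs (pattern point, text point) in one direction -/
def ok1 (p q p' q' : ℕ) : Bool := (!(nlt p p') || nlt q q') && (!(nlt p' p) || nlt q' q)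

theorem ok1_iff {p q p' q' : ℕ} : ok1 p q p' q' = true ↔ (p < p' → q < q') ∧ (p' < p → q' < q) := by
  simp only [ok1, Bool.and_eq_true, Bool.or_eq_true, Bool.not_eq_true', nlt_iff]
  have h : ∀ a b : ℕ, nlt a b = false ↔ ¬ a < b := by
    intro a b
    rw [← Bool.not_eq_true, nlt_iff]
  rw [h, h]
  tauto

/-- compatibility of two pairs (pattern point, text point) -/
def ok (p q p' q' : ℕ × ℕ) : Bool := ok1 p.1 q.1 p'.1 q'.1 && ok1 p.2 q.2 p'.2 q'.2

/-- no number strictly between `b` and `c` -/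
def btw (r b c : ℕ) : Bool := (nlt b r && nlt r c) || (nlt c r && nlt r b)

/-- `b` and `c` are neighbours in `P`, in one of the directions -/
def adj (P : List (ℕ × ℕ)) (b c : ℕ × ℕ) : Bool :=
  (P.all fun r => !(btw r.1 b.1 c.1)) || (P.all fun r => !(btw r.2 b.2 c.2))

/-- `b` has a neighbour not covered by `X` -/
def isBd (P : List (ℕ × ℕ)) (X : List ((ℕ × ℕ) × (ℕ × ℕ))) (b : ℕ × ℕ) : Bool :=
  P.any fun c => !(inS X c) && adj P b c

/-- states: intervals, and images of some of the covered points -/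
abbrev St : Type := List ((ℕ × ℕ) × (ℕ × ℕ)) × List ((ℕ × ℕ) × (ℕ × ℕ))

/-- transitions, with the added point `p` and its image `q` -/
def trans1 (P : List (ℕ × ℕ)) (s s' : St) (p q : ℕ × ℕ) : Bool :=
  (P.all fun r => !(xor (inS s'.1 r) (inS s.1 r || peq r p))) &&
  ((s.2.all fun e => !(inS s.1 e.1) || ok p q e.1 e.2) &&
  ((s'.2.all fun e => !(inS s'.1 e.1) || ((peq e.1 p && peq e.2 q) ||
    (inS s.1 e.1 && s.2.any fun e' => peq e.1 e'.1 && peq e.2 e'.2))) &&
  (P.all fun b => !(inS s'.1 b && isBd P s'.1 b) || s'.2.any fun e => peq e.1 b)))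

/-- transitions -/
def trans (P T : List (ℕ × ℕ)) (s s' : St) : Bool :=
  P.any fun p => !(inS s.1 p) && T.any fun q => trans1 P s s' p q

/-- `s` is a sketch of an embedding of the covered points into `T` -/
structure Valid (P T : List (ℕ × ℕ)) (s : St) (φ : ℕ × ℕ → ℕ × ℕ) : Prop where
  mem : ∀ p ∈ P, inS s.1 p = true → φ p ∈ T
  x : ∀ p ∈ P, ∀ q ∈ P, inS s.1 p = true → inS s.1 q = true → p.1 < q.1 → (φ p).1 < (φ q).1
  y : ∀ p ∈ P, ∀ q ∈ P, inS s.1 p = true → inS s.1 q = true → p.2 < q.2 → (φ p).2 < (φ q).2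
  im : ∀ e ∈ s.2, inS s.1 e.1 = true → φ e.1 = e.2
  bd : ∀ b ∈ P, inS s.1 b = true → isBd P s.1 b = true → ∃ e ∈ s.2, e.1 = b

/-- a neighbour point outside `S`, next to a point of `S`, towards `p` -/
theorem exists_bd {P : List (ℕ × ℕ)} {S : ℕ × ℕ → Prop} (f : ℕ × ℕ → ℕ)
    (hf : ∀ p ∈ P, ∀ q ∈ P, f p = f q → p = q) {p r : ℕ × ℕ} (hp : p ∈ P) (hr : r ∈ P)
    (hpS : ¬ S p) (hrS : S r) :
    (f r < f p → ∃ b ∈ P, S b ∧ f r ≤ f b ∧ f b < f p ∧ ∃ c ∈ P, ¬ S c ∧
      ∀ t ∈ P, ¬ (f b < f t ∧ f t < f c ∨ f c < f t ∧ f t < f b)) ∧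
    (f p < f r → ∃ b ∈ P, S b ∧ f b ≤ f r ∧ f p < f b ∧ ∃ c ∈ P, ¬ S c ∧
      ∀ t ∈ P, ¬ (f b < f t ∧ f t < f c ∨ f c < f t ∧ f t < f b)) := by
  classical
  constructor
  · intro hlt
    obtain ⟨b, hb, hbmax⟩ := Finset.exists_max_image
      (P.toFinset.filter fun t => S t ∧ f r ≤ f t ∧ f t < f p) f
      ⟨r, by simp [hr, hrS, hlt]⟩
    simp only [Finset.mem_filter, List.mem_toFinset] at hb hbmax
    obtain ⟨c, hc, hcmin⟩ := Finset.exists_min_image
      (P.toFinset.filter fun t => f b < f t) f ⟨p, by simp [hp, hb.2.2.2]⟩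
    simp only [Finset.mem_filter, List.mem_toFinset] at hc hcmin
    refine ⟨b, hb.1, hb.2.1, hb.2.2.1, hb.2.2.2, c, hc.1, ?_, ?_⟩
    · intro hcS
      have h1 := hcmin p ⟨hp, hb.2.2.2⟩
      rcases lt_or_eq_of_le h1 with h2 | h2
      · have := hbmax c ⟨hc.1, hcS, by omega, h2⟩
        omega
      · exact hpS (hf c hc.1 p hp h2 ▸ hcS)
    · rintro t ht (⟨h1, h2⟩ | ⟨h1, h2⟩)
      · have := hcmin t ⟨ht, h1⟩
        omega
      · omega
  · intro hlt
    obtain ⟨b, hb, hbmin⟩ := Finset.exists_min_image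
      (P.toFinset.filter fun t => S t ∧ f t ≤ f r ∧ f p < f t) f
      ⟨r, by simp [hr, hrS, hlt]⟩
    simp only [Finset.mem_filter, List.mem_toFinset] at hb hbmin
    obtain ⟨c, hc, hcmax⟩ := Finset.exists_max_image
      (P.toFinset.filter fun t => f t < f b) f ⟨p, by simp [hp, hb.2.2.2]⟩
    simp only [Finset.mem_filter, List.mem_toFinset] at hc hcmax
    refine ⟨b, hb.1, hb.2.1, hb.2.2.1, hb.2.2.2, c, hc.1, ?_, ?_⟩
    · intro hcS
      have h1 := hcmax p ⟨hp, hb.2.2.2⟩
      rcases lt_or_eq_of_le h1 with h2 | h2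
      · have := hbmin c ⟨hc.1, hcS, by omega, h2⟩
        omega
      · exact hpS (hf p hp c hc.1 h2 ▸ hcS)
    · rintro t ht (⟨h1, h2⟩ | ⟨h1, h2⟩)
      · omega
      · have := hcmax t ⟨ht, h2⟩
        omega

theorem adj_of_x {P : List (ℕ × ℕ)} {b c : ℕ × ℕ}
    (h : ∀ t ∈ P, ¬ (b.1 < t.1 ∧ t.1 < c.1 ∨ c.1 < t.1 ∧ t.1 < b.1)) : adj P b c = true := by
  simp only [adj, Bool.or_eq_true, List.all_eq_true, btw]
  left
  intro t ht
  have := h t ht
  simp only [Bool.not_eq_true', ← Bool.not_eq_true, Bool.or_eq_true, Bool.and_eq_true, nlt_iff]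
  exact this

theorem adj_of_y {P : List (ℕ × ℕ)} {b c : ℕ × ℕ}
    (h : ∀ t ∈ P, ¬ (b.2 < t.2 ∧ t.2 < c.2 ∨ c.2 < t.2 ∧ t.2 < b.2)) : adj P b c = true := by
  simp only [adj, Bool.or_eq_true, List.all_eq_true, btw]
  right
  intro t ht
  have := h t ht
  simp only [Bool.not_eq_true', ← Bool.not_eq_true, Bool.or_eq_true, Bool.and_eq_true, nlt_iff]
  exact this

/-- distinct coordinates -/
def Gen (P : List (ℕ × ℕ)) : Prop :=
  ∀ p ∈ P, ∀ q ∈ P, (p.1 = q.1 → p = q) ∧ (p.2 = q.2 → p = q)

/-- soundness of a transition -/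
theorem Valid.trans {P T : List (ℕ × ℕ)} (hP : Gen P) {s s' : St} {φ : ℕ × ℕ → ℕ × ℕ}
    (h : Valid P T s φ) (ht : trans P T s s' = true) : ∃ φ', Valid P T s' φ' := by
  classical
  simp only [GridW.trans, List.any_eq_true, Bool.and_eq_true, Bool.not_eq_true'] at ht
  obtain ⟨p, hpP, hpS, q, hqT, ht⟩ := ht
  simp only [trans1, Bool.and_eq_true, List.all_eq_true] at ht
  obtain ⟨t1, t2, t3, t4⟩ := ht
  have hS' : ∀ r ∈ P, inS s'.1 r = (inS s.1 r || peq r p) := by
    intro r hr
    have := t1 r hr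
    revert this
    cases inS s'.1 r <;> cases (inS s.1 r || peq r p) <;> simp
  -- comparison of `p` with an old point
  have hbd : ∀ b ∈ P, ∀ c ∈ P, inS s.1 b = true → ¬ inS s.1 c = true → adj P b c = true →
      ok p q b (φ b) = true := by
    intro b hb c hc hbS hcS hadj
    obtain ⟨e, he, heb⟩ := h.bd b hb hbS (by
      simp only [isBd, List.any_eq_true, Bool.and_eq_true, Bool.not_eq_true']
      exact ⟨c, hc, by simpa using hcS, hadj⟩)
    have h1 := t2 e he
    subst heb
    rw [hbS] at h1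
    simp only [Bool.not_true, Bool.false_or] at h1
    rw [h.im e he hbS]
    exact h1
  have hx : ∀ r ∈ P, inS s.1 r = true → (p.1 < r.1 → q.1 < (φ r).1) ∧
      (r.1 < p.1 → (φ r).1 < q.1) := by
    intro r hr hrS
    have key := exists_bd (S := fun t => inS s.1 t = true) (fun t => t.1)
      (fun a ha b hb => (hP a ha b hb).1) hpP hr (by rw [hpS]; simp) hrS
    constructor
    · intro hlt
      obtain ⟨b, hb, hbS, hb1, hb2, c, hc, hcS, hcb⟩ := key.2 hlt
      have h1 := hbd b hb c hc hbS hcS (adj_of_x hcb)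
      simp only [ok, Bool.and_eq_true, ok1_iff] at h1
      have h2 := h1.1.1 hb2
      rcases lt_or_eq_of_le hb1 with h3 | h3
      · have := h.x b hb r hr hbS hrS h3
        omega
      · rw [← (hP b hb r hr).1 h3]; exact h2
    · intro hlt
      obtain ⟨b, hb, hbS, hb1, hb2, c, hc, hcS, hcb⟩ := key.1 hlt
      have h1 := hbd b hb c hc hbS hcS (adj_of_x hcb)
      simp only [ok, Bool.and_eq_true, ok1_iff] at h1
      have h2 := h1.1.2 hb2
      rcases lt_or_eq_of_le hb1 with h3 | h3
      · have := h.x r hr b hb hrS hbS h3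
        omega
      · rw [(hP r hr b hb).1 h3]; exact h2
  have hy : ∀ r ∈ P, inS s.1 r = true → (p.2 < r.2 → q.2 < (φ r).2) ∧
      (r.2 < p.2 → (φ r).2 < q.2) := by
    intro r hr hrS
    have key := exists_bd (S := fun t => inS s.1 t = true) (fun t => t.2)
      (fun a ha b hb => (hP a ha b hb).2) hpP hr (by rw [hpS]; simp) hrS
    constructor
    · intro hlt
      obtain ⟨b, hb, hbS, hb1, hb2, c, hc, hcS, hcb⟩ := key.2 hlt
      have h1 := hbd b hb c hc hbS hcS (adj_of_y hcb)
      simp only [ok, Bool.and_eq_true, ok1_iff] at h1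
      have h2 := h1.2.1 hb2
      rcases lt_or_eq_of_le hb1 with h3 | h3
      · have := h.y b hb r hr hbS hrS h3
        omega
      · rw [← (hP b hb r hr).2 h3]; exact h2
    · intro hlt
      obtain ⟨b, hb, hbS, hb1, hb2, c, hc, hcS, hcb⟩ := key.1 hlt
      have h1 := hbd b hb c hc hbS hcS (adj_of_y hcb)
      simp only [ok, Bool.and_eq_true, ok1_iff] at h1
      have h2 := h1.2.2 hb2
      rcases lt_or_eq_of_le hb1 with h3 | h3
      · have := h.y r hr b hb hrS hbS h3
        omega
      · rw [(hP r hr b hb).2 h3]; exact h2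
  have hcase : ∀ r ∈ P, inS s'.1 r = true → r ≠ p → inS s.1 r = true := by
    intro r hr hr' hne
    rw [hS' r hr, Bool.or_eq_true, peq_iff] at hr'
    exact hr'.resolve_right hne
  refine ⟨Function.update φ p q, ⟨?_, ?_, ?_, ?_, ?_⟩⟩
  · intro r hr hrS
    by_cases hrp : r = p
    · rw [hrp, Function.update_self]; exact hqT
    · rw [Function.update_of_ne hrp]; exact h.mem r hr (hcase r hr hrS hrp)
  · intro r hr r' hr' hrS hrS' hlt
    by_cases hrp : r = p
    · have hne : r' ≠ p := by rintro rfl; subst hrp; exact lt_irrefl _ hlt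
      rw [hrp, Function.update_self, Function.update_of_ne hne]
      exact (hx r' hr' (hcase r' hr' hrS' hne)).1 (by rw [← hrp]; exact hlt)
    · rw [Function.update_of_ne hrp]
      by_cases hne : r' = p
      · rw [hne, Function.update_self]
        exact (hx r hr (hcase r hr hrS hrp)).2 (by rw [← hne]; exact hlt)
      · rw [Function.update_of_ne hne]
        exact h.x r hr r' hr' (hcase r hr hrS hrp) (hcase r' hr' hrS' hne) hlt
  · intro r hr r' hr' hrS hrS' hlt
    by_cases hrp : r = p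
    · have hne : r' ≠ p := by rintro rfl; subst hrp; exact lt_irrefl _ hlt
      rw [hrp, Function.update_self, Function.update_of_ne hne]
      exact (hy r' hr' (hcase r' hr' hrS' hne)).1 (by rw [← hrp]; exact hlt)
    · rw [Function.update_of_ne hrp]
      by_cases hne : r' = p
      · rw [hne, Function.update_self]
        exact (hy r hr (hcase r hr hrS hrp)).2 (by rw [← hne]; exact hlt)
      · rw [Function.update_of_ne hne]
        exact h.y r hr r' hr' (hcase r hr hrS hrp) (hcase r' hr' hrS' hne) hlt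
  · intro e he heS
    have h1 := t3 e he
    rw [heS] at h1
    simp only [Bool.not_true, Bool.false_or, Bool.or_eq_true, Bool.and_eq_true, peq_iff,
      List.any_eq_true] at h1
    rcases h1 with ⟨h1, h2⟩ | ⟨h1, e', he', h2, h3⟩
    · rw [h1, Function.update_self, h2]
    · have hne : e.1 ≠ p := by
        rintro hh
        rw [hh, hpS] at h1
        exact absurd h1 (by simp)
      rw [Function.update_of_ne hne]
      have : e = e' := Prod.ext h2 h3
      subst this
      exact h.im e he' h1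
  · intro b hb hbS hbB
    have h1 := t4 b hb
    rw [hbS, hbB] at h1
    simp only [Bool.and_true, Bool.not_true, Bool.false_or, List.any_eq_true, peq_iff] at h1
    exact h1

/-! ### enumeration of the states -/

/-- all lists of length at most `k` over `l` -/
def tuples {α : Type} : ℕ → List α → List (List α)
  | 0, _ => [[]]
  | k + 1, l => [] :: l.flatMap fun a => (tuples k l).map fun t => a :: t

theorem mem_tuples {α : Type} {l : List α} (k : ℕ) : ∀ {t : List α}, t.length ≤ k →
    (∀ a ∈ t, a ∈ l) → t ∈ tuples k l := by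
  induction k with
  | zero =>
    intro t ht _
    have : t = [] := List.length_eq_zero_iff.1 (by omega)
    simp [tuples, this]
  | succ k ih =>
    intro t ht hl
    rcases t with _ | ⟨a, t⟩
    · simp [tuples]
    · simp only [tuples, List.mem_cons, List.mem_flatMap, List.mem_map]
      right
      exact ⟨a, hl a List.mem_cons_self, t, ih (by simpa using ht)
        (fun b hb => hl b (List.mem_cons_of_mem _ hb)), rfl⟩

/-- product of two lists -/
def prodL {α β : Type} (l : List α) (l' : List β) : List (α × β) :=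
  l.flatMap fun a => l'.map fun b => (a, b)

theorem mem_prodL {α β : Type} {l : List α} {l' : List β} {p : α × β} :
    p ∈ prodL l l' ↔ p.1 ∈ l ∧ p.2 ∈ l' := by
  obtain ⟨a, b⟩ := p
  simp [prodL]

/-- all states -/
def states (K : ℕ) (P T : List (ℕ × ℕ)) : List St :=
  prodL (tuples K (prodL P P)) (tuples (4 * K) (prodL P T))

/-- initial layer -/
def layer0 (P : List (ℕ × ℕ)) (A : List St) : List St :=
  A.filter fun s => P.all fun p => !(inS s.1 p)

/-- next layer -/
def next (P T : List (ℕ × ℕ)) (A R : List St) : List St :=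
  A.filter fun s' => R.any fun s => trans P T s s'

/-- the search -/
def search (K : ℕ) (P T : List (ℕ × ℕ)) : Bool :=
  ((next P T (states K P T))^[P.length] (layer0 P (states K P T))).any fun s =>
    P.all fun p => inS s.1 p

/-- embeddings of point sets -/
def PEmb (P T : List (ℕ × ℕ)) (φ : ℕ × ℕ → ℕ × ℕ) : Prop :=
  (∀ p ∈ P, φ p ∈ T) ∧ (∀ p ∈ P, ∀ q ∈ P, p.1 < q.1 → (φ p).1 < (φ q).1) ∧
    ∀ p ∈ P, ∀ q ∈ P, p.2 < q.2 → (φ p).2 < (φ q).2

theorem search_sound {K : ℕ} {P T : List (ℕ × ℕ)} (hP : Gen P) (h : search K P T = true) :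
    ∃ φ, PEmb P T φ := by
  have key : ∀ n, ∀ s ∈ (next P T (states K P T))^[n] (layer0 P (states K P T)),
      ∃ φ, Valid P T s φ := by
    intro n
    induction n with
    | zero =>
      intro s hs
      simp only [Function.iterate_zero, id_eq, layer0, List.mem_filter, List.all_eq_true,
        Bool.not_eq_true'] at hs
      have h0 : ∀ p ∈ P, ¬ inS s.1 p = true := fun p hp => by rw [hs.2 p hp]; simp
      refine ⟨fun _ => (0, 0), fun p hp hpS => absurd hpS (h0 p hp),
        fun p hp q _ hpS => absurd hpS (h0 p hp), fun p hp q _ hpS => absurd hpS (h0 p hp),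
        fun e he heS => ?_, fun b hb hbS => absurd hbS (h0 b hb)⟩
      -- the point `e.1` is in `P`
      exfalso
      have h1 : s.2 ∈ tuples (4 * K) (prodL P T) := (mem_prodL.1 hs.1).2
      have aux : ∀ (k : ℕ) (t : List ((ℕ × ℕ) × (ℕ × ℕ))), t ∈ tuples k (prodL P T) →
          ∀ a ∈ t, a ∈ prodL P T := by
        intro k
        induction k with
        | zero => intro t ht a ha; simp [tuples] at ht; subst ht; simp at ha
        | succ k ih =>
          intro t ht a ha
          simp only [tuples, List.mem_cons, List.mem_flatMap, List.mem_map] at ht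
          rcases ht with rfl | ⟨b, hb, t', ht', rfl⟩
          · simp at ha
          · rcases List.mem_cons.1 ha with rfl | ha
            · exact hb
            · exact ih t' ht' a ha
      exact h0 e.1 (mem_prodL.1 (aux _ _ h1 e he)).1 heS
    | succ n ih =>
      intro s' hs'
      rw [Function.iterate_succ_apply'] at hs'
      simp only [next, List.mem_filter, List.any_eq_true] at hs'
      obtain ⟨-, s, hs, hst⟩ := hs'
      obtain ⟨φ, hφ⟩ := ih s hs
      exact hφ.trans hP hst
  simp only [search, List.any_eq_true, List.all_eq_true] at h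
  obtain ⟨s, hs, hall⟩ := h
  obtain ⟨φ, hφ⟩ := key _ s hs
  exact ⟨φ, fun p hp => hφ.mem p hp (hall p hp),
    fun p hp q hq => hφ.x p hp q hq (hall p hp) (hall q hq),
    fun p hp q hq => hφ.y p hp q hq (hall p hp) (hall q hq)⟩

/-! ### completeness -/

section covers
variable {m K : ℕ} {f : Fin m → ℕ} {S : Set (Fin m)}

theorem cover_intervals (h : Cover f K S) : ∃ X : List (Fin m × Fin m), X.length ≤ K ∧
    ∀ q, q ∈ S ↔ ∃ t ∈ X, f t.1 ≤ f q ∧ f q ≤ f t.2 := by
  classical
  obtain ⟨T, hT, rfl⟩ := h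
  have hex : ∀ k : Fin K, ∃ t : Option (Fin m × Fin m), ∀ q, q ∈ T k ↔
      ∃ t' ∈ t, f t'.1 ≤ f q ∧ f q ≤ f t'.2 := by
    intro k
    by_cases hne : (T k).Nonempty
    · obtain ⟨q0, hq0⟩ := hne
      obtain ⟨a, ha, hamin⟩ := Finset.exists_min_image (Finset.univ.filter (· ∈ T k)) f
        ⟨q0, by simp [hq0]⟩
      obtain ⟨b, hb, hbmax⟩ := Finset.exists_max_image (Finset.univ.filter (· ∈ T k)) f
        ⟨q0, by simp [hq0]⟩
      simp only [Finset.mem_filter, Finset.mem_univ, true_and] at ha hamin hb hbmax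
      refine ⟨some (a, b), fun q => ⟨fun hq => ⟨(a, b), rfl, hamin q hq, hbmax q hq⟩, ?_⟩⟩
      rintro ⟨t', ht', h1, h2⟩
      cases ht'
      exact hT k a ha b hb q h1 h2
    · refine ⟨none, fun q => ⟨fun hq => absurd ⟨q, hq⟩ hne, ?_⟩⟩
      rintro ⟨t', ht', -⟩
      cases ht'
  choose t ht using hex
  refine ⟨(List.finRange K).filterMap t, ?_, ?_⟩
  · refine (List.length_filterMap_le _ _).trans ?_
    rw [List.length_finRange]
  · intro q
    simp only [Set.mem_iUnion, List.mem_filterMap, List.mem_finRange, true_and]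
    constructor
    · rintro ⟨k, hk⟩
      obtain ⟨t', ht', h1⟩ := (ht k q).1 hk
      exact ⟨t', ⟨k, ht'⟩, h1⟩
    · rintro ⟨t', ⟨k, hk⟩, h1⟩
      exact ⟨k, (ht k q).2 ⟨t', hk, h1⟩⟩

theorem cover_bd (hf : Function.Injective f) (h : Cover f K S) :
    ∃ L : List (Fin m), L.length ≤ 2 * K ∧ (∀ b ∈ L, b ∈ S) ∧
    ∀ b ∈ S, ∀ c, c ∉ S → (∀ r, ¬ (f b < f r ∧ f r < f c ∨ f c < f r ∧ f r < f b)) → b ∈ L := by
  classical
  obtain ⟨T, hT, rfl⟩ := h
  have hex : ∀ k : Fin K, ∃ l : List (Fin m), l.length ≤ 2 ∧ (∀ b ∈ l, b ∈ T k) ∧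
      ∀ b ∈ T k, ∀ c, c ∉ T k →
        (∀ r, ¬ (f b < f r ∧ f r < f c ∨ f c < f r ∧ f r < f b)) → b ∈ l := by
    intro k
    by_cases hne : (T k).Nonempty
    · obtain ⟨q0, hq0⟩ := hne
      obtain ⟨a, ha, hamin⟩ := Finset.exists_min_image (Finset.univ.filter (· ∈ T k)) f
        ⟨q0, by simp [hq0]⟩
      obtain ⟨b, hb, hbmax⟩ := Finset.exists_max_image (Finset.univ.filter (· ∈ T k)) f
        ⟨q0, by simp [hq0]⟩
      simp only [Finset.mem_filter, Finset.mem_univ, true_and] at ha hamin hb hbmax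
      refine ⟨[a, b], by simp, ?_, ?_⟩
      · intro d hd
        simp only [List.mem_cons, List.not_mem_nil, or_false] at hd
        rcases hd with rfl | rfl
        · exact ha
        · exact hb
      · intro d hd c hc hr
        by_contra hdl
        simp only [List.mem_cons, List.not_mem_nil, or_false, not_or] at hdl
        have h1 : f a < f d := lt_of_le_of_ne (hamin d hd) fun h => hdl.1 (hf h).symm
        have h2 : f d < f b := lt_of_le_of_ne (hbmax d hd) fun h => hdl.2 (hf h)
        rcases lt_trichotomy (f c) (f d) with h3 | h3 | h3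
        · -- `c < d`, so `a ≤ c`
          rcases Nat.lt_or_ge (f c) (f a) with h4 | h4
          · exact hr a (Or.inr ⟨h4, h1⟩)
          · exact hc (hT k a ha d hd c h4 h3.le)
        · exact hc (by rw [hf h3]; exact hd)
        · rcases Nat.lt_or_ge (f b) (f c) with h4 | h4
          · exact hr b (Or.inl ⟨h2, h4⟩)
          · exact hc (hT k d hd b hb c h3.le h4)
    · exact ⟨[], by simp, by simp, fun b hb => absurd ⟨b, hb⟩ hne⟩
  choose l hl1 hl2 hl3 using hex
  refine ⟨(List.finRange K).flatMap l, ?_, ?_, ?_⟩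
  · rw [List.length_flatMap]
    have : ((List.finRange K).map fun k => (l k).length).sum ≤
        ((List.finRange K).map fun k => (l k).length).length • 2 := by
      apply List.sum_le_card_nsmul
      intro x hx
      simp only [List.mem_map] at hx
      obtain ⟨k, -, rfl⟩ := hx
      exact hl1 k
    rw [List.length_map, List.length_finRange, smul_eq_mul] at this
    omega
  · intro b hb
    obtain ⟨k, -, hk⟩ := List.mem_flatMap.1 hb
    exact Set.mem_iUnion.2 ⟨k, hl2 k b hk⟩
  · intro b hb c hc hr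
    obtain ⟨k, hk⟩ := Set.mem_iUnion.1 hb
    exact List.mem_flatMap.2 ⟨k, List.mem_finRange k, hl3 k b hk c
      (fun hck => hc (Set.mem_iUnion.2 ⟨k, hck⟩)) hr⟩

end covers

/-- `pt` lists the points of `P`, in the order of their first coordinates; `π` gives the order of
the second coordinates -/
structure Listing (P : List (ℕ × ℕ)) {m : ℕ} (π : Equiv.Perm (Fin m)) (pt : Fin m → ℕ × ℕ) :
    Prop where
  mem : ∀ p, p ∈ P ↔ ∃ i, pt i = p
  x : ∀ i j, (pt i).1 < (pt j).1 ↔ i < j
  y : ∀ i j, (pt i).2 < (pt j).2 ↔ π i < π j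
  len : P.length = m

section complete
variable {P T : List (ℕ × ℕ)} {m : ℕ} {π : Equiv.Perm (Fin m)} {pt : Fin m → ℕ × ℕ}

theorem Listing.x_le (h : Listing P π pt) (i j : Fin m) : (pt i).1 ≤ (pt j).1 ↔ i ≤ j := by
  rw [← not_lt, ← not_lt, h.x]

theorem Listing.inj (h : Listing P π pt) : Function.Injective pt := by
  intro i j hij
  rcases lt_trichotomy i j with h1 | h1 | h1
  · have := (h.x i j).2 h1; rw [hij] at this; exact absurd this (lt_irrefl _)
  · exact h1
  · have := (h.x j i).2 h1; rw [hij] at this; exact absurd this (lt_irrefl _)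

theorem Listing.gen (h : Listing P π pt) : Gen P := by
  intro p hp q hq
  obtain ⟨i, rfl⟩ := (h.mem p).1 hp
  obtain ⟨j, rfl⟩ := (h.mem q).1 hq
  constructor
  · intro hij
    have h1 : ¬ i < j := fun hh => by have := (h.x i j).2 hh; omega
    have h2 : ¬ j < i := fun hh => by have := (h.x j i).2 hh; omega
    rw [le_antisymm (not_lt.1 h2) (not_lt.1 h1)]
  · intro hij
    have h1 : ¬ π i < π j := fun hh => by have := (h.y i j).2 hh; omega
    have h2 : ¬ π j < π i := fun hh => by have := (h.y j i).2 hh; omega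
    rw [π.injective (le_antisymm (not_lt.1 h2) (not_lt.1 h1))]

/-- sketch of a prefix set -/
theorem exists_state (h : Listing P π pt) {K : ℕ} {S : Set (Fin m)}
    (hx : Cover (fun i : Fin m => (i : ℕ)) K S) (hy : Cover (fun i : Fin m => (π i : ℕ)) K S)
    {φ : ℕ × ℕ → ℕ × ℕ} (hφ : PEmb P T φ) :
    ∃ s ∈ states K P T, (∀ i, inS s.1 (pt i) = true ↔ i ∈ S) ∧ (∀ e ∈ s.2, φ e.1 = e.2) ∧
      (∀ e ∈ s.2, isBd P s.1 e.1 = true ∧ ∃ i ∈ S, pt i = e.1) ∧
      ∀ b ∈ P, inS s.1 b = true → isBd P s.1 b = true → ∃ e ∈ s.2, e.1 = b := by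
  obtain ⟨X, hX1, hX2⟩ := cover_intervals hx
  obtain ⟨L1, hL1, hL1S, hL1b⟩ := cover_bd Fin.val_injective hx
  obtain ⟨L2, hL2, hL2S, hL2b⟩ := cover_bd (Fin.val_injective.comp π.injective) hy
  have hptP : ∀ i, pt i ∈ P := fun i => (h.mem _).2 ⟨i, rfl⟩
  set s : St := (X.map fun t => (pt t.1, pt t.2), ((L1 ++ L2).filter fun i =>
    isBd P (X.map fun t => (pt t.1, pt t.2)) (pt i)).map fun i => (pt i, φ (pt i))) with hs
  have hin : ∀ i, inS s.1 (pt i) = true ↔ i ∈ S := by
    intro i
    rw [hX2 i]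
    simp only [inS, hs, List.any_eq_true, List.mem_map, Bool.and_eq_true, decide_eq_true_eq]
    constructor
    · rintro ⟨t', ⟨t, ht, rfl⟩, h1, h2⟩
      simp only at h1 h2
      rw [h.x_le] at h1 h2
      exact ⟨t, ht, h1, h2⟩
    · rintro ⟨t, ht, h1, h2⟩
      exact ⟨_, ⟨t, ht, rfl⟩, (h.x_le _ _).2 h1, (h.x_le _ _).2 h2⟩
  refine ⟨s, ?_, hin, ?_, ?_, ?_⟩
  · rw [states, mem_prodL]
    constructor
    · refine mem_tuples K (by simp only [hs, List.length_map]; exact hX1) ?_
      intro a ha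
      simp only [hs, List.mem_map] at ha
      obtain ⟨t, -, rfl⟩ := ha
      exact mem_prodL.2 ⟨hptP _, hptP _⟩
    · refine mem_tuples (4 * K) (by
        simp only [hs, List.length_map]
        refine (List.length_filter_le _ _).trans ?_
        rw [List.length_append]; omega) ?_
      intro a ha
      simp only [hs, List.mem_map] at ha
      obtain ⟨i, -, rfl⟩ := ha
      exact mem_prodL.2 ⟨hptP _, hφ.1 _ (hptP _)⟩
  · intro e he
    simp only [hs, List.mem_map] at he
    obtain ⟨i, -, rfl⟩ := he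
    rfl
  · intro e he
    simp only [hs, List.mem_map, List.mem_filter, List.mem_append] at he
    obtain ⟨i, ⟨hi, hi'⟩, rfl⟩ := he
    refine ⟨hi', i, ?_, rfl⟩
    rcases hi with hi | hi
    · exact hL1S i hi
    · exact hL2S i hi
  · intro b hb hbS hbB
    obtain ⟨i, rfl⟩ := (h.mem b).1 hb
    have hbB' := hbB
    simp only [isBd, List.any_eq_true, Bool.and_eq_true, Bool.not_eq_true'] at hbB
    obtain ⟨c, hc, hcS, hadj⟩ := hbB
    obtain ⟨j, rfl⟩ := (h.mem c).1 hc
    have hiS : i ∈ S := (hin i).1 hbS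
    have hjS : j ∉ S := fun hh => by
      rw [(hin j).2 hh] at hcS; exact absurd hcS (by simp)
    have hi : i ∈ L1 ++ L2 := by
      rw [List.mem_append]
      simp only [adj, Bool.or_eq_true, List.all_eq_true, btw, Bool.not_eq_true',
        ← Bool.not_eq_true, Bool.or_eq_true, Bool.and_eq_true, nlt_iff] at hadj
      rcases hadj with hadj | hadj
      · left
        refine hL1b i hiS j hjS fun r => ?_
        have := hadj (pt r) (hptP r)
        rw [h.x, h.x, h.x, h.x] at this
        exact this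
      · right
        refine hL2b i hiS j hjS fun r => ?_
        have := hadj (pt r) (hptP r)
        rw [h.y, h.y, h.y, h.y] at this
        exact this
    refine ⟨(pt i, φ (pt i)), ?_, rfl⟩
    simp only [hs, List.mem_map, List.mem_filter]
    exact ⟨i, ⟨hi, hbB'⟩, rfl⟩

theorem search_complete (h : Listing P π pt) {K : ℕ} (hlin : LinW K π)
    {φ : ℕ × ℕ → ℕ × ℕ} (hφ : PEmb P T φ) : search K P T = true := by
  obtain ⟨σ, hσ⟩ := hlin
  have hptP : ∀ i, pt i ∈ P := fun i => (h.mem _).2 ⟨i, rfl⟩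
  have hst : ∀ t, ∃ s : St, t ≤ m → s ∈ states K P T ∧
      (∀ i, inS s.1 (pt i) = true ↔ (σ i : ℕ) < t) ∧
      (∀ e ∈ s.2, φ e.1 = e.2) ∧
      (∀ e ∈ s.2, isBd P s.1 e.1 = true ∧ ∃ i, (σ i : ℕ) < t ∧ pt i = e.1) ∧
      ∀ b ∈ P, inS s.1 b = true → isBd P s.1 b = true → ∃ e ∈ s.2, e.1 = b := by
    intro t
    by_cases ht : t ≤ m
    · obtain ⟨s, h1, h2, h3, h4, h5⟩ := exists_state h (hσ t ht).1 (hσ t ht).2 hφ
      exact ⟨s, fun _ => ⟨h1, h2, h3, h4, h5⟩⟩
    · exact ⟨([], []), fun hh => absurd hh ht⟩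
  choose s hs using hst
  have key : ∀ t, t ≤ m → s t ∈ (next P T (states K P T))^[t] (layer0 P (states K P T)) := by
    intro t
    induction t with
    | zero =>
      intro _
      obtain ⟨h1, h2, -⟩ := hs 0 (Nat.zero_le _)
      simp only [Function.iterate_zero, id_eq, layer0, List.mem_filter, List.all_eq_true,
        Bool.not_eq_true']
      refine ⟨h1, fun p hp => ?_⟩
      obtain ⟨i, rfl⟩ := (h.mem p).1 hp
      rw [← Bool.not_eq_true, h2 i]
      exact Nat.not_lt_zero _
    | succ t ih =>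
      intro ht
      obtain ⟨a1, a2, a3, a4, a5⟩ := hs t (by omega)
      obtain ⟨b1, b2, b3, b4, b5⟩ := hs (t + 1) ht
      rw [Function.iterate_succ_apply']
      simp only [next, List.mem_filter, List.any_eq_true]
      refine ⟨b1, s t, ih (by omega), ?_⟩
      -- the added point
      set i0 := σ.symm ⟨t, ht⟩ with hi0
      have hσi0 : (σ i0 : ℕ) = t := by rw [hi0, Equiv.apply_symm_apply]
      simp only [GridW.trans, List.any_eq_true, Bool.and_eq_true, Bool.not_eq_true']
      refine ⟨pt i0, hptP i0, ?_, φ (pt i0), hφ.1 _ (hptP i0), ?_⟩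
      · rw [← Bool.not_eq_true, a2, hσi0]; omega
      have hin0 : inS (s t).1 (pt i0) = false := by rw [← Bool.not_eq_true, a2, hσi0]; omega
      simp only [trans1, Bool.and_eq_true, List.all_eq_true]
      refine ⟨?_, ?_, ?_, ?_⟩
      · intro r hr
        obtain ⟨i, rfl⟩ := (h.mem r).1 hr
        have e1 := a2 i
        have e2 := b2 i
        have e3 : peq (pt i) (pt i0) = true ↔ (σ i : ℕ) = t := by
          rw [peq_iff, h.inj.eq_iff]
          constructor
          · rintro rfl; exact hσi0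
          · intro hh
            have : σ i = σ i0 := Fin.ext (hh.trans hσi0.symm)
            exact σ.injective this
        have e4 : inS (s (t + 1)).1 (pt i) = (inS (s t).1 (pt i) || peq (pt i) (pt i0)) := by
          rw [Bool.eq_iff_iff, Bool.or_eq_true, e1, e2, e3]
          omega
        rw [e4]
        simp
      · intro e he
        rw [Bool.or_eq_true]
        right
        obtain ⟨-, i, -, hi⟩ := a4 e he
        rw [← a3 e he, ← hi]
        simp only [ok, Bool.and_eq_true, ok1_iff]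
        exact ⟨⟨hφ.2.1 _ (hptP _) _ (hptP _), hφ.2.1 _ (hptP _) _ (hptP _)⟩,
          hφ.2.2 _ (hptP _) _ (hptP _), hφ.2.2 _ (hptP _) _ (hptP _)⟩
      · intro e he
        rw [Bool.or_eq_true]
        right
        obtain ⟨hebd, i, hi, hie⟩ := b4 e he
        rw [Bool.or_eq_true]
        by_cases hit : (σ i : ℕ) = t
        · left
          have : i = i0 := σ.injective (Fin.ext (hit.trans hσi0.symm))
          subst this
          rw [Bool.and_eq_true, peq_iff, peq_iff, ← hie, ← b3 e he, ← hie]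
          exact ⟨rfl, rfl⟩
        · right
          have hiS : inS (s t).1 (pt i) = true := (a2 i).2 (by omega)
          have hbd : isBd P (s t).1 (pt i) = true := by
            rw [← hie] at hebd
            simp only [isBd, List.any_eq_true, Bool.and_eq_true, Bool.not_eq_true'] at hebd ⊢
            obtain ⟨c, hc, hcS, hadj⟩ := hebd
            refine ⟨c, hc, ?_, hadj⟩
            obtain ⟨j, rfl⟩ := (h.mem c).1 hc
            rw [← Bool.not_eq_true, b2] at hcS
            rw [← Bool.not_eq_true, a2]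
            omega
          obtain ⟨e', he', hee⟩ := a5 (pt i) (hptP i) hiS hbd
          rw [Bool.and_eq_true, ← hie]
          refine ⟨hiS, ?_⟩
          simp only [List.any_eq_true, Bool.and_eq_true, peq_iff]
          refine ⟨e', he', hee.symm, ?_⟩
          rw [← b3 e he, ← a3 e' he', hee, hie]
      · intro b hb
        rw [Bool.or_eq_true]
        by_cases hbb : (inS (s (t + 1)).1 b && isBd P (s (t + 1)).1 b) = true
        · right
          rw [Bool.and_eq_true] at hbb
          obtain ⟨e, he, heb⟩ := b5 b hb hbb.1 hbb.2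
          simp only [List.any_eq_true, peq_iff]
          exact ⟨e, he, heb⟩
        · left
          rw [Bool.not_eq_true] at hbb
          rw [hbb]; rfl
  have hfin := key m le_rfl
  simp only [search, List.any_eq_true, List.all_eq_true]
  refine ⟨s m, ?_, ?_⟩
  · rw [h.len]; exact hfin
  · intro p hp
    obtain ⟨i, rfl⟩ := (h.mem p).1 hp
    exact ((hs m le_rfl).2.1 i).2 (σ i).2

end complete

end Pool.Agent.GridW
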