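import Pool.Agent.TM2Lib.Arith
import Pool.Agent.TM2Lib.Bits

/-!
# Parsing strings as trees, decoding trees, Boolean outputs
-/

namespace Pool.Agent.TM2Lib.GW

open Turing D

/-- one step of the parser (reading the string from right to left) -/
def parseStep (b : Bool) (s : List D) : List D :=
  if b then lcase [] (fun x t => lcase [] (fun y u => cons x y :: u) t) s else D.nil :: s

/-- the parser: the stack of trees coded by a string -/
def parseStack (l : List Bool) : List D := l.foldr parseStep []

theorem parseStack_append (d : D) : ∀ t : List Bool,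
    parseStack (encD d ++ t) = d :: parseStack t := by
  induction d with
  | nil => intro t; rfl
  | cons a b iha ihb =>
    intro t
    show parseStep true (parseStack ((encD a ++ encD b) ++ t)) = _
    rw [List.append_assoc, iha, ihb]
    rfl

/-- parse a string -/
def parse (l : List Bool) : D := (parseStack l).headD D.nil

@[simp] theorem parse_encD (d : D) : parse (encD d) = d := by
  have := parseStack_append d []
  rw [List.append_nil] at this
  rw [parse, this]
  rfl

theorem encD_injective : Function.Injective encD := by
  intro a b h
  rw [← parse_encD a, h, parse_encD]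

theorem poly_parse {α : Type} [Enc α] {f : α → List Bool} (hf : Poly f) :
    Poly (fun a => parse (f a)) := by
  have h1 := Poly.foldr_add (σ := List D) (f := f) (g := fun _ => ([] : List D))
    (h := fun p : α × (List D × Bool) => if p.2.2 then
      lcase [] (fun x t => lcase [] (fun y u => cons x y :: u) t) p.2.1 else D.nil :: p.2.1)
    hf (Poly.const [])
    (Poly.ite Poly.id.snd'.snd'
      (Poly.list_cases (α := α × (List D × Bool)) (f := fun p => p.2.1) (g := fun _ => [])
        (h := fun q : (α × (List D × Bool)) × (D × List D) =>
          lcase [] (fun y u => cons q.2.1 y :: u) q.2.2)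
        Poly.id.snd'.fst' (Poly.const [])
        (Poly.list_cases (f := fun q : (α × (List D × Bool)) × (D × List D) => q.2.2)
          (g := fun _ => [])
          (h := fun r : ((α × (List D × Bool)) × (D × List D)) × (D × List D) =>
            cons r.1.2.1 r.2.1 :: r.2.2)
          Poly.id.snd'.snd' (Poly.const [])
          (Poly.cons ((Poly.of_enc (f := fun p : D × D => cons p.1 p.2) fun _ => rfl).comp
            (Poly.id.fst'.snd'.fst'.pair Poly.id.snd'.fst')) Poly.id.snd'.snd')))
      ((Poly.const D.nil).cons Poly.id.snd'.fst'))
    (Polynomial.C 3) (by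
      intro a s b _
      simp only [Polynomial.eval_C]
      have hs := sz_pos s
      cases b
      · simp only [Bool.false_eq_true, if_false, sz_cons]
        have : sz (D.nil : D) = 1 := rfl
        omega
      · simp only [if_true]
        rcases s with _ | ⟨x, _ | ⟨y, u⟩⟩
        · simp [lcase]
        · simp only [lcase]
          rw [sz_nil]; omega
        · simp only [lcase]
          rw [sz_cons, sz_cons, sz_cons]
          have : sz (cons x y : D) = sz x + sz y + 1 := size_cons x y
          omega)
  have h2 : Poly (fun a => parseStack (f a)) := by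
    refine h1.of_eq fun a => ?_
    rfl
  exact Poly.headD h2 (Poly.const D.nil)

/-- a tree as a list of trees -/
def toL : D → List D
  | D.nil => []
  | cons a b => a :: toL b

theorem enc_toL (d : D) : (enc (toL d) : D) = d := by
  induction d with
  | nil => rfl
  | cons a b _ ih => show cons a (enc (toL b)) = _; rw [ih]

theorem toL_enc_list {α : Type} [Enc α] (l : List α) : toL (enc l) = l.map enc := by
  induction l with
  | nil => rfl
  | cons a l ih => show enc a :: toL (enc l) = _; rw [ih]; rfl

theorem poly_toL {α : Type} [Enc α] {f : α → D} (hf : Poly f) : Poly (fun a => toL (f a)) :=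
  (Poly.of_enc (f := toL) enc_toL).comp hf

/-- a tree as a Boolean value -/
def decBool (d : D) : Bool := !(toL d).isEmpty

@[simp] theorem decBool_enc (b : Bool) : decBool (enc b) = b := by cases b <;> rfl

theorem poly_decBool {α : Type} [Enc α] {f : α → D} (hf : Poly f) :
    Poly (fun a => decBool (f a)) := (Poly.isEmpty (poly_toL hf)).not

/-- a tree as a natural number -/
def decNat (d : D) : ℕ := TM2Lib.bval ((toL d).map decBool)

@[simp] theorem decNat_enc (n : ℕ) : decNat (enc n) = n := by
  have h : (enc n : D) = enc n.bits := rfl
  rw [decNat, h, toL_enc_list, List.map_map]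
  have : (decBool ∘ enc : Bool → Bool) = id := funext fun b => decBool_enc b
  rw [this, List.map_id, bval_bits]

theorem poly_decNat {α : Type} [Enc α] {f : α → D} (hf : Poly f) :
    Poly (fun a => decNat (f a)) :=
  Poly.bval (Poly.map (h := fun p : α × D => decBool p.2) (poly_toL hf) (poly_decBool Poly.id.snd'))

/-- a tree as a list of natural numbers -/
def decNats (d : D) : List ℕ := (toL d).map decNat

@[simp] theorem decNats_enc (l : List ℕ) : decNats (enc l) = l := by
  rw [decNats, toL_enc_list, List.map_map]
  have : (decNat ∘ enc : ℕ → ℕ) = id := funext fun n => decNat_enc n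
  rw [this, List.map_id]

theorem poly_decNats {α : Type} [Enc α] {f : α → D} (hf : Poly f) :
    Poly (fun a => decNats (f a)) :=
  Poly.map (h := fun p : α × D => decNat p.2) (poly_toL hf) (poly_decNat Poly.id.snd')

/-- head of a tree -/
def dhd (d : D) : D := (toL d).headD D.nil

/-- tail of a tree -/
def dtl (d : D) : D := enc (toL d).tail

@[simp] theorem dhd_cons (a b : D) : dhd (cons a b) = a := rfl
@[simp] theorem dtl_cons (a b : D) : dtl (cons a b) = b := enc_toL b

theorem poly_dhd {α : Type} [Enc α] {f : α → D} (hf : Poly f) : Poly (fun a => dhd (f a)) :=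
  Poly.headD (poly_toL hf) (Poly.const _)

theorem poly_dtl {α : Type} [Enc α] {f : α → D} (hf : Poly f) : Poly (fun a => dtl (f a)) :=
  (Poly.of_enc (f := fun l : List D => (enc l : D)) fun _ => rfl).comp (Poly.tail (poly_toL hf))

/-- a tree as a pair of lists of natural numbers -/
def decPair (d : D) : List ℕ × List ℕ := (decNats (dhd d), decNats (dtl d))

@[simp] theorem decPair_enc (p : List ℕ × List ℕ) : decPair (enc p) = p := by
  obtain ⟨a, b⟩ := p
  show (decNats (dhd (cons (enc a) (enc b))), decNats (dtl (cons (enc a) (enc b)))) = _
  rw [dhd_cons, dtl_cons, decNats_enc, decNats_enc]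

theorem poly_decPair {α : Type} [Enc α] {f : α → D} (hf : Poly f) :
    Poly (fun a => decPair (f a)) := (poly_decNats (poly_dhd hf)).pair (poly_decNats (poly_dtl hf))

/-! ### Boolean outputs, raw inputs -/

/-- a Boolean output as a single bit -/
theorem comp_bool {α : Type} {x : α → List Bool} {f : α → Bool}
    (h : Comp x (fun a => encD (ofBool (f a)))) : Comp x (fun a => [f a]) := by
  have h1 : Comp x (fun a => encD (cons (ofBool (f a)) D.nil)) :=
    Comp.pair h (Comp.const _ _)
  refine Comp.trans h1 (Comp.ite f (fun _ => D.nil) ?_ ?_)
  · refine (Comp.const _ [true]).congr (fun _ => rfl) ?_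
    rintro ⟨a, ha⟩
    rw [ha]
  · refine (Comp.const _ [false]).congr (fun _ => rfl) ?_
    rintro ⟨a, ha⟩
    rw [ha]

theorem ofBits_eq_enc (l : List Bool) : ofBits l = enc l := by
  induction l with
  | nil => rfl
  | cons b l ih => show cons (ofBool b) (ofBits l) = cons (enc b) (enc l); rw [ih]; rfl

/-- a single bit as a tree -/
theorem comp_bool' {α : Type} {x : α → List Bool} {f : α → Bool}
    (h : Comp x (fun a => [f a])) : Comp x (fun a => encD (ofBool (f a))) := by
  have h1 := Comp.trans h (Comp.bits (fun a => [f a]))
  exact Comp.trans h1 (Comp.hd (fun a => ofBool (f a)) (fun _ => D.nil))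

end Pool.Agent.TM2Lib.GW
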