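import Pool.Agent.GridW.Alg
import Pool.Agent.GridW.Parse

/-!
# The search runs in polynomial time
-/

namespace Pool.Agent.TM2Lib.GW

open Pool.Agent.GridW

/-- points -/
abbrev Pt : Type := ℕ × ℕ

section
variable {α β γ : Type} [Enc α] [Enc β] [Enc γ]

theorem pc {f : α → γ} (hf : Poly f) : Poly (fun p : α × β => f p.1) := hf.comp Poly.fst

theorem poly_nlt {f g : α → ℕ} (hf : Poly f) (hg : Poly g) : Poly (fun a => nlt (f a) (g a)) :=
  (Poly.nat_le hg hf).not

theorem poly_peq {f g : α → Pt} (hf : Poly f) (hg : Poly g) : Poly (fun a => peq (f a) (g a)) :=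
  ((Poly.nat_le hf.fst' hg.fst').and (Poly.nat_le hg.fst' hf.fst')).and
    ((Poly.nat_le hf.snd' hg.snd').and (Poly.nat_le hg.snd' hf.snd'))

theorem poly_inS {X : α → List (Pt × Pt)} {q : α → Pt} (hX : Poly X) (hq : Poly q) :
    Poly (fun a => inS (X a) (q a)) :=
  Poly.any (h := fun p : α × (Pt × Pt) =>
      decide (p.2.1.1 ≤ (q p.1).1) && decide ((q p.1).1 ≤ p.2.2.1)) hX
    ((Poly.nat_le Poly.id.snd'.fst'.fst' (pc hq).fst').and
      (Poly.nat_le (pc hq).fst' Poly.id.snd'.snd'.fst'))

theorem poly_ok1 {p q p' q' : α → ℕ} (hp : Poly p) (hq : Poly q) (hp' : Poly p')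
    (hq' : Poly q') : Poly (fun a => ok1 (p a) (q a) (p' a) (q' a)) :=
  ((poly_nlt hp hp').not.or (poly_nlt hq hq')).and ((poly_nlt hp' hp).not.or (poly_nlt hq' hq))

theorem poly_ok {p q p' q' : α → Pt} (hp : Poly p) (hq : Poly q) (hp' : Poly p')
    (hq' : Poly q') : Poly (fun a => ok (p a) (q a) (p' a) (q' a)) :=
  (poly_ok1 hp.fst' hq.fst' hp'.fst' hq'.fst').and (poly_ok1 hp.snd' hq.snd' hp'.snd' hq'.snd')

theorem poly_btw {r b c : α → ℕ} (hr : Poly r) (hb : Poly b) (hc : Poly c) :
    Poly (fun a => btw (r a) (b a) (c a)) :=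
  ((poly_nlt hb hr).and (poly_nlt hr hc)).or ((poly_nlt hc hr).and (poly_nlt hr hb))

theorem poly_adj {P : α → List Pt} {b c : α → Pt} (hP : Poly P) (hb : Poly b) (hc : Poly c) :
    Poly (fun a => adj (P a) (b a) (c a)) :=
  (Poly.all (h := fun p : α × Pt => !(btw p.2.1 (b p.1).1 (c p.1).1)) hP
    (poly_btw Poly.id.snd'.fst' (pc hb).fst' (pc hc).fst').not).or
  (Poly.all (h := fun p : α × Pt => !(btw p.2.2 (b p.1).2 (c p.1).2)) hP
    (poly_btw Poly.id.snd'.snd' (pc hb).snd' (pc hc).snd').not)

theorem poly_isBd {P : α → List Pt} {X : α → List (Pt × Pt)} {b : α → Pt} (hP : Poly P)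
    (hX : Poly X) (hb : Poly b) : Poly (fun a => isBd (P a) (X a) (b a)) :=
  Poly.any (h := fun p : α × Pt => !(inS (X p.1) p.2) && adj (P p.1) (b p.1) p.2) hP
    ((poly_inS (pc hX) Poly.id.snd').not.and (poly_adj (pc hP) (pc hb) Poly.id.snd'))

theorem poly_trans1 {P : α → List Pt} {s s' : α → St} {p q : α → Pt} (hP : Poly P)
    (hs : Poly s) (hs' : Poly s') (hp : Poly p) (hq : Poly q) :
    Poly (fun a => trans1 (P a) (s a) (s' a) (p a) (q a)) := by
  refine (Poly.all (h := fun r : α × Pt => !(xor (inS (s' r.1).1 r.2)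
      (inS (s r.1).1 r.2 || peq r.2 (p r.1)))) hP ?_).and
    ((Poly.all (h := fun r : α × (Pt × Pt) => !(inS (s r.1).1 r.2.1) ||
      ok (p r.1) (q r.1) r.2.1 r.2.2) hs.snd' ?_).and
    ((Poly.all (h := fun r : α × (Pt × Pt) => !(inS (s' r.1).1 r.2.1) ||
      ((peq r.2.1 (p r.1) && peq r.2.2 (q r.1)) ||
      (inS (s r.1).1 r.2.1 && (s r.1).2.any fun e' => peq r.2.1 e'.1 && peq r.2.2 e'.2)))
      hs'.snd' ?_).and
    (Poly.all (h := fun r : α × Pt => !(inS (s' r.1).1 r.2 && isBd (P r.1) (s' r.1).1 r.2) ||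
      (s' r.1).2.any fun e => peq e.1 r.2) hP ?_)))
  · exact (Poly.bne (poly_inS (pc hs'.fst') Poly.id.snd')
      ((poly_inS (pc hs.fst') Poly.id.snd').or (poly_peq Poly.id.snd' (pc hp)))).not
  · exact (poly_inS (pc hs.fst') Poly.id.snd'.fst').not.or
      (poly_ok (pc hp) (pc hq) Poly.id.snd'.fst' Poly.id.snd'.snd')
  · refine (poly_inS (pc hs'.fst') Poly.id.snd'.fst').not.or
      (((poly_peq Poly.id.snd'.fst' (pc hp)).and (poly_peq Poly.id.snd'.snd' (pc hq))).or
      ((poly_inS (pc hs.fst') Poly.id.snd'.fst').and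
      (Poly.any (h := fun z : (α × (Pt × Pt)) × (Pt × Pt) =>
        peq z.1.2.1 z.2.1 && peq z.1.2.2 z.2.2) (pc hs.snd') ?_)))
    exact (poly_peq Poly.id.fst'.snd'.fst' Poly.id.snd'.fst').and
      (poly_peq Poly.id.fst'.snd'.snd' Poly.id.snd'.snd')
  · refine ((poly_inS (pc hs'.fst') Poly.id.snd').and
      (poly_isBd (pc hP) (pc hs'.fst') Poly.id.snd')).not.or
      (Poly.any (h := fun z : (α × Pt) × (Pt × Pt) => peq z.2.1 z.1.2) (pc hs'.snd') ?_)
    exact poly_peq Poly.id.snd'.fst' Poly.id.fst'.snd'

theorem poly_trans {P T : α → List Pt} {s s' : α → St} (hP : Poly P) (hT : Poly T)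
    (hs : Poly s) (hs' : Poly s') :
    Poly (fun a => GridW.trans (P a) (T a) (s a) (s' a)) := by
  refine Poly.any (h := fun r : α × Pt => !(inS (s r.1).1 r.2) &&
    (T r.1).any fun q => trans1 (P r.1) (s r.1) (s' r.1) r.2 q) hP ?_
  refine (poly_inS (pc hs.fst') Poly.id.snd').not.and
    (Poly.any (h := fun z : (α × Pt) × Pt => trans1 (P z.1.1) (s z.1.1) (s' z.1.1) z.1.2 z.2)
      (pc hT) ?_)
  exact poly_trans1 (pc (pc hP)) (pc (pc hs)) (pc (pc hs')) Poly.id.fst'.snd' Poly.id.snd'

theorem poly_tuples {l : α → List β} (hl : Poly l) (k : ℕ) :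
    Poly (fun a => tuples k (l a)) := by
  induction k with
  | zero => exact Poly.const [[]]
  | succ k ih =>
    refine Poly.cons (Poly.const []) (Poly.flatMap
      (h := fun p : α × β => (tuples k (l p.1)).map fun t => p.2 :: t) hl ?_)
    exact Poly.map (h := fun r : (α × β) × List β => r.1.2 :: r.2) (pc ih)
      (Poly.id.fst'.snd'.cons Poly.id.snd')

theorem poly_prodL {l : α → List β} {l' : α → List γ} (hl : Poly l) (hl' : Poly l') :
    Poly (fun a => prodL (l a) (l' a)) :=
  Poly.flatMap (h := fun p : α × β => (l' p.1).map fun b => (p.2, b)) hl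
    (Poly.map (h := fun r : (α × β) × γ => (r.1.2, r.2)) (pc hl')
      (Poly.id.fst'.snd'.pair Poly.id.snd'))

theorem poly_states {P T : α → List Pt} (hP : Poly P) (hT : Poly T) (K : ℕ) :
    Poly (fun a => states K (P a) (T a)) :=
  poly_prodL (poly_tuples (poly_prodL hP hP) K) (poly_tuples (poly_prodL hP hT) (4 * K))

theorem poly_layer0 {P : α → List Pt} {A : α → List St} (hP : Poly P) (hA : Poly A) :
    Poly (fun a => layer0 (P a) (A a)) := by
  refine Poly.filter (h := fun r : α × St => (P r.1).all fun p => !(inS r.2.1 p)) hA ?_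
  refine Poly.all (h := fun z : (α × St) × Pt => !(inS z.1.2.1 z.2)) (pc hP) ?_
  exact (poly_inS Poly.id.fst'.snd'.fst' Poly.id.snd').not

theorem poly_next {P T : α → List Pt} {A R : α → List St} (hP : Poly P) (hT : Poly T)
    (hA : Poly A) (hR : Poly R) : Poly (fun a => GridW.next (P a) (T a) (A a) (R a)) := by
  refine Poly.filter (h := fun r : α × St => (R r.1).any fun s =>
    GridW.trans (P r.1) (T r.1) s r.2) hA ?_
  refine Poly.any (h := fun z : (α × St) × St =>
    GridW.trans (P z.1.1) (T z.1.1) z.2 z.1.2) (pc hR) ?_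
  exact poly_trans (pc (pc hP)) (pc (pc hT)) Poly.id.snd' Poly.id.fst'.snd'

theorem sz_filter_le (l : List β) (p : β → Bool) : sz (l.filter p) ≤ sz l := by
  induction l with
  | nil => simp
  | cons b l ih =>
    rw [List.filter_cons]
    split_ifs
    · rw [sz_cons, sz_cons]; omega
    · rw [sz_cons]; omega

/-- step of the search, with all data -/
def searchStep (z : (List Pt × List Pt) × (List St × List St)) :
    (List Pt × List Pt) × (List St × List St) :=
  (z.1, (z.2.1, GridW.next z.1.1 z.1.2 z.2.1 z.2.2))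

theorem searchStep_iter (P T : List Pt) (A : List St) (n : ℕ) : ∀ R : List St,
    searchStep^[n] ((P, T), (A, R)) = ((P, T), (A, (GridW.next P T A)^[n] R)) := by
  induction n with
  | zero => intro R; rfl
  | succ n ih =>
    intro R
    rw [Function.iterate_succ_apply, Function.iterate_succ_apply]
    exact ih _

theorem poly_search {P T : α → List Pt} (hP : Poly P) (hT : Poly T) (K : ℕ) :
    Poly (fun a => search K (P a) (T a)) := by
  have h1 := Poly.iter (f := P)
    (g := fun a => ((P a, T a), (states K (P a) (T a), layer0 (P a) (states K (P a) (T a)))))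
    (step := searchStep) hP
    ((hP.pair hT).pair ((poly_states hP hT K).pair (poly_layer0 hP (poly_states hP hT K))))
    (by
      refine Poly.id.fst'.pair (Poly.id.snd'.fst'.pair ?_)
      exact poly_next Poly.id.fst'.fst' Poly.id.fst'.snd' Poly.id.snd'.fst' Poly.id.snd'.snd')
    (2 * Polynomial.X) (by
      intro a k _
      rw [searchStep_iter]
      have h2 : sz ((GridW.next (P a) (T a) (states K (P a) (T a)))^[k]
          (layer0 (P a) (states K (P a) (T a)))) ≤ sz (states K (P a) (T a)) := by
        rcases k with _ | k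
        · exact sz_filter_le _ _
        · rw [Function.iterate_succ_apply']
          exact sz_filter_le _ _
      have h3 := sz_pos (layer0 (P a) (states K (P a) (T a)))
      simp only [sz_pair, Polynomial.eval_mul, Polynomial.eval_ofNat, Polynomial.eval_X]
      omega)
  have h2 := h1.snd'.snd'
  have h3 := Poly.any (h := fun r : α × St => (P r.1).all fun p => inS r.2.1 p) h2
    (Poly.all (h := fun z : (α × St) × Pt => inS z.1.2.1 z.2) (pc hP)
      (poly_inS Poly.id.fst'.snd'.fst' Poly.id.snd'))
  refine h3.of_eq fun a => ?_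
  rw [searchStep_iter]
  rfl

end

/-! ### from a list of values to a list of points -/

/-- add the next point -/
def ptStep (s : List Pt) (v : ℕ) : List Pt := (2 * (s.headD (1, 0)).1, v) :: s

/-- the points `(2 ^ (i+1), v_i)` -/
def pts (l : List ℕ) : List Pt := l.foldl ptStep []

theorem pts_append (l : List ℕ) (v : ℕ) : pts (l ++ [v]) = ptStep (pts l) v := by
  rw [pts, List.foldl_append]; rfl

theorem pts_head (l : List ℕ) : ((pts l).headD (1, 0)).1 = 2 ^ l.length := by
  induction l using List.reverseRecOn with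
  | nil => rfl
  | append_singleton l v ih =>
    rw [pts_append, ptStep, List.headD_cons, ih, List.length_append, List.length_singleton,
      Nat.pow_succ, Nat.mul_comm]

theorem pts_length (l : List ℕ) : (pts l).length = l.length := by
  induction l using List.reverseRecOn with
  | nil => rfl
  | append_singleton l v ih =>
    rw [pts_append, ptStep, List.length_cons, ih, List.length_append, List.length_singleton]

theorem mem_pts (l : List ℕ) (p : Pt) :
    p ∈ pts l ↔ ∃ (i : ℕ) (h : i < l.length), p = (2 ^ (i + 1), l[i]) := by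
  induction l using List.reverseRecOn with
  | nil => simp [pts]
  | append_singleton l v ih =>
    rw [pts_append, ptStep, List.mem_cons, ih, pts_head]
    constructor
    · rintro (h | ⟨i, hi, h⟩)
      · refine ⟨l.length, by simp, ?_⟩
        rw [h]
        simp [Nat.pow_succ, Nat.mul_comm]
      · refine ⟨i, by simp; omega, ?_⟩
        rw [h, List.getElem_append_left hi]
    · rintro ⟨i, hi, h⟩
      rw [List.length_append, List.length_singleton] at hi
      rcases Nat.lt_or_ge i l.length with h1 | h1
      · right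
        exact ⟨i, h1, by rw [h, List.getElem_append_left h1]⟩
      · left
        have : i = l.length := by omega
        subst this
        rw [h]
        simp [Nat.pow_succ, Nat.mul_comm]

theorem sz_two_mul_le (n : ℕ) : sz (2 * n) ≤ sz n + 2 := by
  by_cases hn : n = 0
  · subst hn; simp
  · have h : (2 * n).bits = false :: n.bits := Nat.bit0_bits n hn
    have e : sz (2 * n) = sz (2 * n).bits := rfl
    have e' : sz n = sz n.bits := rfl
    rw [e, e', h, sz_cons]
    have : sz false = 1 := rfl
    omega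

theorem sz_two_pow_le (k : ℕ) : sz (2 ^ k) ≤ 2 * k + 5 := by
  induction k with
  | zero => decide
  | succ k ih =>
    rw [Nat.pow_succ, Nat.mul_comm]
    have := sz_two_mul_le (2 ^ k)
    omega

theorem sz_pts_le (l : List ℕ) : sz (pts l) ≤ sz l + l.length * (2 * l.length + 7) := by
  induction l using List.reverseRecOn with
  | nil => simp [pts]
  | append_singleton l v ih =>
    rw [pts_append, ptStep, sz_cons, sz_pair, pts_head, List.length_append,
      List.length_singleton]
    have h1 := sz_two_pow_le (l.length + 1)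
    rw [Nat.pow_succ, Nat.mul_comm] at h1
    have h2 := Poly.sz_append l [v]
    rw [sz_cons, sz_nil] at h2
    have h3 : l.length * (2 * l.length + 7) + (2 * (l.length + 1) + 7) ≤
        (l.length + 1) * (2 * (l.length + 1) + 7) := by nlinarith
    omega

theorem poly_pts {α : Type} [Enc α] {f : α → List ℕ} (hf : Poly f) :
    Poly (fun a => pts (f a)) := by
  obtain ⟨F, hF⟩ := hf.size
  refine Poly.foldl (σ := List Pt) (f := f) (g := fun _ => ([] : List Pt))
    (h := fun p : α × (List Pt × ℕ) => ptStep p.2.1 p.2.2) hf (Poly.const [])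
    (Poly.cons ((Poly.double (Poly.headD Poly.id.snd'.fst' (Poly.const (1, 0))).fst').pair
      Poly.id.snd'.snd') Poly.id.snd'.fst') (F + F * (2 * F + 7)) ?_
  intro a k
  have h1 := sz_pts_le ((f a).take k)
  have h2 := Poly.sz_take_le (f a) k
  have h3 := length_lt_sz ((f a).take k)
  have h4 := hF a
  have h5 : ((f a).take k).length ≤ F.eval (sz a) := by omega
  have h6 : ((f a).take k).length * (2 * ((f a).take k).length + 7) ≤
      F.eval (sz a) * (2 * F.eval (sz a) + 7) := Nat.mul_le_mul h5 (by omega)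
  have e : ((f a).take k).foldl (fun s b => ptStep s b) [] = pts ((f a).take k) := rfl
  simp only [Polynomial.eval_add, Polynomial.eval_mul, Polynomial.eval_ofNat]
  show sz (((f a).take k).foldl (fun s b => ptStep s b) []) ≤ _
  rw [e]
  omega

end Pool.Agent.TM2Lib.GW
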