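import Mathlib

/-!
# The staircase configuration of a word

Points are pairs `(i, a)`: cell `i`, wire `a`.  Cells `i` and `i+1` share line `i+1`; lines of odd
index are columns (`e = 1`), lines of even index are rows (`e = 0`).
-/

namespace Pool.Agent.GridW

/-- orientation of a line: `true` if wires increase along the line -/
def ori (α : ℕ → Bool) : ℕ → Bool
  | 0 => true
  | (i + 1) => (ori α i == α i)

/-- the line of direction `e` containing cell `i` -/
def ln (e i : ℕ) : ℕ := i + (i + e) % 2

/-- position of the point in line `ℓ` -/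
def ky (α : ℕ → Bool) (ℓ : ℕ) (p : ℕ × ℕ) : ℤ :=
  if ori α ℓ = true then (2 * (p.2 : ℤ) + if p.1 = ℓ then 1 else 0)
  else -(2 * (p.2 : ℤ) + if p.1 = ℓ then 1 else 0)

/-- strict order of the points in direction `e` -/
def lt2 (α : ℕ → Bool) (e : ℕ) (p q : ℕ × ℕ) : Prop :=
  ln e p.1 < ln e q.1 ∨ (ln e p.1 = ln e q.1 ∧ ky α (ln e p.1) p < ky α (ln e p.1) q)

variable {α β : ℕ → Bool}

theorem lt2_irrefl (e : ℕ) (p : ℕ × ℕ) : ¬ lt2 α e p p := by
  unfold lt2
  omega

theorem lt2_trans {e : ℕ} {p q r : ℕ × ℕ} (h1 : lt2 α e p q) (h2 : lt2 α e q r) :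
    lt2 α e p r := by
  unfold lt2 at *
  rcases h1 with h1 | ⟨h1, h1'⟩ <;> rcases h2 with h2 | ⟨h2, h2'⟩
  · left; omega
  · left; omega
  · left; omega
  · right
    rw [h1] at h1' ⊢
    exact ⟨h2, h1'.trans (by rw [h2] at h2' ⊢; exact h2')⟩

theorem lt2_total {e : ℕ} {p q : ℕ × ℕ} (h : p ≠ q) : lt2 α e p q ∨ lt2 α e q p := by
  unfold lt2 ky
  obtain ⟨i, a⟩ := p
  obtain ⟨j, b⟩ := q
  simp only
  rcases lt_trichotomy (ln e i) (ln e j) with h1 | h1 | h1
  · left; left; exact h1
  · have hne : i ≠ j ∨ a ≠ b := by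
      by_contra hh
      push Not at hh
      exact h (by rw [hh.1, hh.2])
    rw [h1]
    simp only [lt_irrefl, true_and, false_or]
    unfold ln at h1 ⊢
    split_ifs <;> omega
  · right; left; exact h1

theorem lt2_asymm {e : ℕ} {p q : ℕ × ℕ} (h : lt2 α e p q) : ¬ lt2 α e q p :=
  fun h' => lt2_irrefl e p (lt2_trans h h')

theorem lt2_ln {e : ℕ} {p q : ℕ × ℕ} (h : lt2 α e p q) : ln e p.1 ≤ ln e q.1 := by
  unfold lt2 at h
  omega

/-- points in one cell -/
theorem lt2_same {e i a b : ℕ} :
    lt2 α e (i, a) (i, b) ↔ if ori α (ln e i) = true then a < b else b < a := by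
  unfold lt2 ky
  simp only [lt_irrefl, true_and, false_or]
  by_cases h : ori α (ln e i) = true
  · simp only [h, if_true]
    omega
  · simp only [h, if_false, Bool.false_eq_true]
    omega

theorem lt2_same_true {e i a b : ℕ} (h : ori α (ln e i) = true) :
    lt2 α e (i, a) (i, b) ↔ a < b := by
  rw [lt2_same, if_pos h]

theorem lt2_same_false {e i a b : ℕ} (h : ori α (ln e i) = false) :
    lt2 α e (i, a) (i, b) ↔ b < a := by
  rw [lt2_same, if_neg (by rw [h]; simp)]

/-- the shared line of cells `i`, `i+1` -/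
theorem lt2_shared {e i a b : ℕ} (he : (i + e) % 2 = 1) :
    lt2 α e (i, a) (i + 1, b) ↔ if ori α (i + 1) = true then a ≤ b else b < a := by
  have h1 : ln e i = i + 1 := by unfold ln; omega
  have h2 : ln e (i + 1) = i + 1 := by unfold ln; omega
  unfold lt2 ky
  simp only [h1, h2, lt_irrefl, true_and, false_or]
  have h3 : ¬ (i = i + 1) := by omega
  by_cases h : ori α (i + 1) = true
  · simp only [h, if_true, h3, if_false]
    omega
  · simp only [h, if_false, Bool.false_eq_true, h3, if_true]
    omega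

theorem lt2_shared' {e i a b : ℕ} (he : (i + e) % 2 = 1) :
    lt2 α e (i + 1, b) (i, a) ↔ if ori α (i + 1) = true then b < a else a ≤ b := by
  have h1 : ln e i = i + 1 := by unfold ln; omega
  have h2 : ln e (i + 1) = i + 1 := by unfold ln; omega
  unfold lt2 ky
  simp only [h1, h2, lt_irrefl, true_and, false_or]
  have h3 : ¬ (i = i + 1) := by omega
  by_cases h : ori α (i + 1) = true
  · simp only [h, if_true, h3, if_false]
    omega
  · simp only [h, if_false, Bool.false_eq_true, h3, if_true]
    omega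

/-- the unshared direction of cells `i`, `i+1` -/
theorem lt2_unshared {e i a b : ℕ} (he : (i + e) % 2 = 0) : lt2 α e (i, a) (i + 1, b) := by
  left
  show ln e i < ln e (i + 1)
  unfold ln
  omega

theorem lt2_far {e i j a b : ℕ} (h : i + 2 ≤ j) : lt2 α e (i, a) (j, b) := by
  left
  show ln e i < ln e j
  unfold ln
  omega

/-- the type of cell `i` is `true` iff its two lines have the same orientation -/
theorem ori_type (i : ℕ) : ori α (ln 0 i) = ori α (ln 1 i) ↔ α i = true := by
  rcases Nat.even_or_odd i with h | h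
  · have h1 : ln 0 i = i := by
      unfold ln; rw [Nat.even_iff] at h; omega
    have h2 : ln 1 i = i + 1 := by
      unfold ln; rw [Nat.even_iff] at h; omega
    rw [h1, h2]
    show ori α i = (ori α i == α i) ↔ _
    cases ori α i <;> cases α i <;> simp
  · have h1 : ln 0 i = i + 1 := by
      unfold ln; rw [Nat.odd_iff] at h; omega
    have h2 : ln 1 i = i := by
      unfold ln; rw [Nat.odd_iff] at h; omega
    rw [h1, h2]
    show (ori α i == α i) = ori α i ↔ _
    cases ori α i <;> cases α i <;> simp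

end Pool.Agent.GridW
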