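import Mathlib

/-!
# Only countably many functions are computable by `Turing.FinTM2` machines
-/

namespace Pool.Agent.GridW.Count

open Turing Function

section tr

variable {K : Type} {Γ : K → Type} {Λ σ : Type}

/-- the symbols pushed by a statement -/
def used : TM2.Stmt Γ Λ σ → Set (Σ k, Γ k)
  | .push k f q => Set.range (fun v => (⟨k, f v⟩ : Σ k, Γ k)) ∪ used q
  | .peek _ _ q => used q
  | .pop _ _ q => used q
  | .load _ q => used q
  | .branch _ q₁ q₂ => used q₁ ∪ used q₂
  | .goto _ => ∅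
  | .halt => ∅

theorem used_finite [Finite σ] (q : TM2.Stmt Γ Λ σ) : (used q).Finite := by
  induction q with
  | push k f q ih => exact (Set.finite_range _).union ih
  | peek k f q ih => exact ih
  | pop k f q ih => exact ih
  | load a q ih => exact ih
  | branch f q₁ q₂ ih₁ ih₂ => exact ih₁.union ih₂
  | goto f => exact Set.finite_empty
  | halt => exact Set.finite_empty

variable {K' Λ' σ' A : Type} (eK : K ≃ K') (eΛ : Λ ≃ Λ') (eσ : σ ≃ σ')
  (enc : (Σ k, Γ k) → A) (dec : ∀ k, A → Option (Γ k))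

/-- transport of a statement -/
def tr : TM2.Stmt Γ Λ σ → TM2.Stmt (fun _ : K' => A) Λ' σ'
  | .push k f q => .push (eK k) (fun v => enc ⟨k, f (eσ.symm v)⟩) (tr q)
  | .peek k f q => .peek (eK k) (fun v o => eσ (f (eσ.symm v) (o.bind (dec k)))) (tr q)
  | .pop k f q => .pop (eK k) (fun v o => eσ (f (eσ.symm v) (o.bind (dec k)))) (tr q)
  | .load a q => .load (fun v => eσ (a (eσ.symm v))) (tr q)
  | .branch f q₁ q₂ => .branch (fun v => f (eσ.symm v)) (tr q₁) (tr q₂)
  | .goto f => .goto (fun v => eΛ (f (eσ.symm v)))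
  | .halt => .halt

/-- related stores -/
structure RS (W : Set (Σ k, Γ k)) (S : ∀ k, List (Γ k)) (S' : K' → List A) : Prop where
  map : ∀ k, S' (eK k) = (S k).map (fun a => enc ⟨k, a⟩)
  mem : ∀ k, ∀ a ∈ S k, (⟨k, a⟩ : Σ k, Γ k) ∈ W

/-- related configurations -/
structure RC (W : Set (Σ k, Γ k)) (c : TM2.Cfg Γ Λ σ)
    (c' : TM2.Cfg (fun _ : K' => A) Λ' σ') : Prop where
  l : c'.l = c.l.map eΛ
  v : c'.var = eσ c.var
  s : RS eK enc W c.stk c'.stk

variable {eK eΛ eσ enc dec} [DecidableEq K] [DecidableEq K'] {W : Set (Σ k, Γ k)}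

omit [DecidableEq K] [DecidableEq K'] in
theorem head_bind (hdec : ∀ k a, (⟨k, a⟩ : Σ k, Γ k) ∈ W → dec k (enc ⟨k, a⟩) = some a)
    {S : ∀ k, List (Γ k)} {S' : K' → List A} (h : RS eK enc W S S') (k : K) :
    (S' (eK k)).head?.bind (dec k) = (S k).head? := by
  rw [h.map k]
  rcases hS : S k with _ | ⟨a, l⟩
  · rfl
  · simp only [List.map_cons, List.head?_cons, Option.bind_some]
    exact hdec k a (h.mem k a (by rw [hS]; exact List.mem_cons_self))

theorem RS.update {S : ∀ k, List (Γ k)} {S' : K' → List A} (h : RS eK enc W S S') (k : K)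
    (l : List (Γ k)) (hl : ∀ a ∈ l, (⟨k, a⟩ : Σ k, Γ k) ∈ W) :
    RS eK enc W (Function.update S k l)
      (Function.update S' (eK k) (l.map (fun a => enc ⟨k, a⟩))) := by
  constructor
  · intro k'
    by_cases hk : k' = k
    · subst hk
      simp
    · have : eK k' ≠ eK k := fun hh => hk (eK.injective hh)
      rw [Function.update_of_ne this, Function.update_of_ne hk]
      exact h.map k'
  · intro k' a ha
    by_cases hk : k' = k
    · subst hk
      rw [Function.update_self] at ha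
      exact hl a ha
    · rw [Function.update_of_ne hk] at ha
      exact h.mem k' a ha

theorem stepAux_tr (hdec : ∀ k a, (⟨k, a⟩ : Σ k, Γ k) ∈ W → dec k (enc ⟨k, a⟩) = some a)
    (q : TM2.Stmt Γ Λ σ) (hq : used q ⊆ W) : ∀ (v : σ) (S : ∀ k, List (Γ k)) (S' : K' → List A),
    RS eK enc W S S' →
    RC eK eΛ eσ enc W (TM2.stepAux q v S) (TM2.stepAux (tr eK eΛ eσ enc dec q) (eσ v) S') := by
  induction q with
  | push k f q ih =>
    intro v S S' h
    simp only [tr, TM2.stepAux]
    have hq' : used q ⊆ W := fun x hx => hq (Or.inr hx)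
    have := h.update k (f v :: S k) (by
      intro a ha
      rcases List.mem_cons.1 ha with rfl | ha
      · exact hq (Or.inl ⟨v, rfl⟩)
      · exact h.mem k a ha)
    rw [List.map_cons, ← h.map k] at this
    simp only [Equiv.symm_apply_apply]
    exact ih hq' v _ _ this
  | peek k f q ih =>
    intro v S S' h
    simp only [tr, TM2.stepAux, Equiv.symm_apply_apply]
    rw [head_bind hdec h k]
    exact ih hq _ _ _ h
  | pop k f q ih =>
    intro v S S' h
    simp only [tr, TM2.stepAux, Equiv.symm_apply_apply]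
    rw [head_bind hdec h k]
    have := h.update k (S k).tail (fun a ha => h.mem k a (List.mem_of_mem_tail ha))
    rw [List.map_tail, ← h.map k] at this
    exact ih hq _ _ _ this
  | load a q ih =>
    intro v S S' h
    simp only [tr, TM2.stepAux, Equiv.symm_apply_apply]
    exact ih hq _ _ _ h
  | branch f q₁ q₂ ih₁ ih₂ =>
    intro v S S' h
    simp only [tr, TM2.stepAux, Equiv.symm_apply_apply]
    cases f v
    · exact ih₂ (fun x hx => hq (Or.inr hx)) _ _ _ h
    · exact ih₁ (fun x hx => hq (Or.inl hx)) _ _ _ h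
  | goto f =>
    intro v S S' h
    simp only [tr, TM2.stepAux, Equiv.symm_apply_apply]
    exact ⟨rfl, rfl, h⟩
  | halt =>
    intro v S S' h
    simp only [tr, TM2.stepAux]
    exact ⟨rfl, rfl, h⟩

/-- transported machine -/
def trM (eK : K ≃ K') (eΛ : Λ ≃ Λ') (eσ : σ ≃ σ') (enc : (Σ k, Γ k) → A)
    (dec : ∀ k, A → Option (Γ k)) (M : Λ → TM2.Stmt Γ Λ σ) :
    Λ' → TM2.Stmt (fun _ : K' => A) Λ' σ' :=
  fun l => tr eK eΛ eσ enc dec (M (eΛ.symm l))

theorem step_tr (hdec : ∀ k a, (⟨k, a⟩ : Σ k, Γ k) ∈ W → dec k (enc ⟨k, a⟩) = some a)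
    (M : Λ → TM2.Stmt Γ Λ σ) (hM : ∀ l, used (M l) ⊆ W) {c b : TM2.Cfg Γ Λ σ}
    {c' : TM2.Cfg (fun _ : K' => A) Λ' σ'} (h : RC eK eΛ eσ enc W c c')
    (hs : TM2.step M c = some b) :
    ∃ b', TM2.step (trM eK eΛ eσ enc dec M) c' = some b' ∧ RC eK eΛ eσ enc W b b' := by
  obtain ⟨l, v, S⟩ := c
  obtain ⟨l', v', S'⟩ := c'
  obtain ⟨h1, h2, h3⟩ := h
  simp only at h1 h2 h3
  subst h1 h2
  rcases l with _ | l
  · simp [TM2.step] at hs
  · simp only [TM2.step, Option.some.injEq] at hs
    subst hs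
    refine ⟨_, rfl, ?_⟩
    show RC eK eΛ eσ enc W _ (TM2.stepAux (tr eK eΛ eσ enc dec (M (eΛ.symm (eΛ l)))) (eσ v) S')
    rw [Equiv.symm_apply_apply]
    exact stepAux_tr hdec (M l) (hM l) v S S' h3

theorem iter_tr (hdec : ∀ k a, (⟨k, a⟩ : Σ k, Γ k) ∈ W → dec k (enc ⟨k, a⟩) = some a)
    (M : Λ → TM2.Stmt Γ Λ σ) (hM : ∀ l, used (M l) ⊆ W) (n : ℕ) : ∀ {c b : TM2.Cfg Γ Λ σ}
    {c' : TM2.Cfg (fun _ : K' => A) Λ' σ'}, RC eK eΛ eσ enc W c c' →
    (flip bind (TM2.step M))^[n] (some c) = some b →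
    ∃ b', (flip bind (TM2.step (trM eK eΛ eσ enc dec M)))^[n] (some c') = some b' ∧
      RC eK eΛ eσ enc W b b' := by
  induction n with
  | zero =>
    intro c b c' h hs
    simp only [Function.iterate_zero, id_eq, Option.some.injEq] at hs
    subst hs
    exact ⟨c', rfl, h⟩
  | succ n ih =>
    intro c b c' h hs
    rw [Function.iterate_succ_apply] at hs
    have e1 : flip bind (TM2.step M) (some c) = TM2.step M c := rfl
    rw [e1] at hs
    rcases hd : TM2.step M c with _ | d
    · rw [hd] at hs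
      have hnone : ∀ m, (flip bind (TM2.step M))^[m] none = none := by
        intro m
        induction m with
        | zero => rfl
        | succ m ihm => rw [Function.iterate_succ_apply]; exact ihm
      rw [hnone] at hs
      exact absurd hs (by simp)
    · rw [hd] at hs
      obtain ⟨d', hd', hdd⟩ := step_tr hdec M hM h hd
      obtain ⟨b', hb', hbb⟩ := ih hdd hs
      refine ⟨b', ?_, hbb⟩
      rw [Function.iterate_succ_apply]
      have e2 : flip bind (TM2.step (trM eK eΛ eσ enc dec M)) (some c') =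
        TM2.step (trM eK eΛ eσ enc dec M) c' := rfl
      rw [e2, hd']
      exact hb'

end tr

/-! ### countability of statements -/

section stmt
variable {K Λ σ A : Type}

/-- depth of a statement -/
def depth {Γ : K → Type} : TM2.Stmt Γ Λ σ → ℕ
  | .push _ _ q => depth q + 1
  | .peek _ _ q => depth q + 1
  | .pop _ _ q => depth q + 1
  | .load _ q => depth q + 1
  | .branch _ q₁ q₂ => max (depth q₁) (depth q₂) + 1
  | .goto _ => 0
  | .halt => 0

theorem depth_countable [Finite K] [Finite Λ] [Finite σ] [Finite A] (n : ℕ) :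
    {q : TM2.Stmt (fun _ : K => A) Λ σ | depth q ≤ n}.Countable := by
  have base : ∀ n, ({q : TM2.Stmt (fun _ : K => A) Λ σ | depth q ≤ n} ⊆
      Set.range (fun f : σ → Λ => TM2.Stmt.goto f) ∪ {TM2.Stmt.halt} ∪
      (fun p : K × (σ → A) × TM2.Stmt (fun _ : K => A) Λ σ => TM2.Stmt.push p.1 p.2.1 p.2.2) ''
        {p | depth p.2.2 + 1 ≤ n} ∪
      (fun p : K × (σ → Option A → σ) × TM2.Stmt (fun _ : K => A) Λ σ =>
        TM2.Stmt.peek p.1 p.2.1 p.2.2) '' {p | depth p.2.2 + 1 ≤ n} ∪
      (fun p : K × (σ → Option A → σ) × TM2.Stmt (fun _ : K => A) Λ σ =>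
        TM2.Stmt.pop p.1 p.2.1 p.2.2) '' {p | depth p.2.2 + 1 ≤ n} ∪
      (fun p : (σ → σ) × TM2.Stmt (fun _ : K => A) Λ σ =>
        TM2.Stmt.load p.1 p.2) '' {p | depth p.2 + 1 ≤ n} ∪
      (fun p : (σ → Bool) × TM2.Stmt (fun _ : K => A) Λ σ × TM2.Stmt (fun _ : K => A) Λ σ =>
        TM2.Stmt.branch p.1 p.2.1 p.2.2) '' {p | depth p.2.1 + 1 ≤ n ∧ depth p.2.2 + 1 ≤ n}) := by
    intro n q hq
    cases q with
    | push k f q =>
      exact Or.inl (Or.inl (Or.inl (Or.inl (Or.inr ⟨(k, f, q), hq, rfl⟩))))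
    | peek k f q =>
      exact Or.inl (Or.inl (Or.inl (Or.inr ⟨(k, f, q), hq, rfl⟩)))
    | pop k f q =>
      exact Or.inl (Or.inl (Or.inr ⟨(k, f, q), hq, rfl⟩))
    | load a q =>
      exact Or.inl (Or.inr ⟨(a, q), hq, rfl⟩)
    | branch f q₁ q₂ =>
      refine Or.inr ⟨(f, q₁, q₂), ⟨?_, ?_⟩, rfl⟩
      · exact (Nat.succ_le_succ (le_max_left _ _)).trans hq
      · exact (Nat.succ_le_succ (le_max_right _ _)).trans hq
    | goto f =>
      exact Or.inl (Or.inl (Or.inl (Or.inl (Or.inl (Or.inl ⟨f, rfl⟩)))))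
    | halt =>
      exact Or.inl (Or.inl (Or.inl (Or.inl (Or.inl (Or.inr rfl)))))
  induction n with
  | zero =>
    refine Set.Countable.mono (base 0) ?_
    have e : ∀ (m : ℕ), ¬ (m + 1 ≤ 0) := fun m => by omega
    simp only [e, false_and, Set.ofPred_false, Set.image_empty, Set.union_empty]
    exact (Set.countable_range _).union (Set.countable_singleton _)
  | succ n ih =>
    refine Set.Countable.mono (base (n + 1)) ?_
    have h1 : ∀ {B : Type} [Finite B], {p : K × (σ → B) × TM2.Stmt (fun _ : K => A) Λ σ |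
        depth p.2.2 + 1 ≤ n + 1}.Countable := by
      intro B _
      refine Set.Countable.mono (s₂ := Set.univ ×ˢ (Set.univ ×ˢ {q | depth q ≤ n})) ?_
        ((Set.countable_univ).prod ((Set.countable_univ).prod ih))
      rintro ⟨a, b, q⟩ hq
      exact ⟨trivial, trivial, Nat.le_of_succ_le_succ hq⟩
    have h3 : {p : (σ → σ) × TM2.Stmt (fun _ : K => A) Λ σ | depth p.2 + 1 ≤ n + 1}.Countable := by
      refine Set.Countable.mono (s₂ := Set.univ ×ˢ {q | depth q ≤ n}) ?_
        ((Set.countable_univ).prod ih)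
      rintro ⟨a, q⟩ hq
      exact ⟨trivial, Nat.le_of_succ_le_succ hq⟩
    have h4 : {p : (σ → Bool) × TM2.Stmt (fun _ : K => A) Λ σ × TM2.Stmt (fun _ : K => A) Λ σ |
        depth p.2.1 + 1 ≤ n + 1 ∧ depth p.2.2 + 1 ≤ n + 1}.Countable := by
      refine Set.Countable.mono (s₂ := Set.univ ×ˢ ({q | depth q ≤ n} ×ˢ {q | depth q ≤ n})) ?_
        ((Set.countable_univ).prod (ih.prod ih))
      rintro ⟨a, q, q'⟩ hq
      exact ⟨trivial, Nat.le_of_succ_le_succ hq.1, Nat.le_of_succ_le_succ hq.2⟩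
    exact ((((((Set.countable_range _).union (Set.countable_singleton _)).union
      (h1.image _)).union (h1.image _)).union (h1.image _)).union (h3.image _)).union (h4.image _)

instance stmt_countable [Finite K] [Finite Λ] [Finite σ] [Finite A] :
    Countable (TM2.Stmt (fun _ : K => A) Λ σ) := by
  rw [← Set.countable_univ_iff]
  have : (Set.univ : Set (TM2.Stmt (fun _ : K => A) Λ σ)) = ⋃ n, {q | depth q ≤ n} := by
    ext q
    simp only [Set.mem_univ, Set.mem_iUnion, true_iff]
    exact ⟨depth q, (le_refl (depth q) : depth q ≤ depth q)⟩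
  rw [this]
  exact Set.countable_iUnion fun n => depth_countable n

end stmt

/-! ### codes of machines -/

/-- A countable type of machine codes. -/
abbrev Code (αΓ βΓ : Type) : Type :=
  Σ (k g l s : ℕ), (Fin l → TM2.Stmt (fun _ : Fin k => Fin (g + 1)) (Fin l) (Fin s)) × Fin l ×
    Fin s × Fin k × Fin k × (αΓ → Fin (g + 1)) × (Fin (g + 1) → Option βΓ)

set_option synthInstance.maxSize 1000 in
instance {αΓ βΓ : Type} [Finite αΓ] [Countable βΓ] : Countable (Code αΓ βΓ) := by
  unfold Code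
  infer_instance

/-- initial configuration of the machine of a code -/
def Code.init {αΓ βΓ : Type} (D : Code αΓ βΓ) (x : List αΓ) :
    TM2.Cfg (fun _ : Fin D.1 => Fin (D.2.1 + 1)) (Fin D.2.2.1) (Fin D.2.2.2.1) :=
  ⟨some D.2.2.2.2.2.1, D.2.2.2.2.2.2.1,
    fun k => if k = D.2.2.2.2.2.2.2.1 then x.map D.2.2.2.2.2.2.2.2.2.1 else []⟩

/-- the result relation of a code -/
def Code.Result {αΓ βΓ : Type} (D : Code αΓ βΓ) (x : List αΓ) (y : List (Option βΓ)) : Prop :=
  ∃ n b, (flip bind (TM2.step D.2.2.2.2.1))^[n] (some (D.init x)) = some b ∧ b.l = none ∧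
    y = (b.stk D.2.2.2.2.2.2.2.2.1).map D.2.2.2.2.2.2.2.2.2.2

theorem iter_none {γ : Type} (f : γ → Option γ) (m : ℕ) : (flip bind f)^[m] none = none := by
  induction m with
  | zero => rfl
  | succ m ihm => rw [Function.iterate_succ_apply]; exact ihm

theorem halt_unique {γ : Type} (f : γ → Option γ) {a b b' : γ} {n m : ℕ}
    (h : (flip bind f)^[n] (some a) = some b) (h' : (flip bind f)^[m] (some a) = some b')
    (hb : f b = none) (hb' : f b' = none) : b = b' := by
  have aux : ∀ {n m : ℕ} {b b' : γ}, n ≤ m → (flip bind f)^[n] (some a) = some b →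
      (flip bind f)^[m] (some a) = some b' → f b = none → b = b' := by
    intro n m b b' hnm h h' hb
    obtain ⟨d, rfl⟩ := Nat.exists_eq_add_of_le hnm
    rcases d with _ | d
    · rw [Nat.add_zero, h] at h'
      exact Option.some.inj h'
    · rw [Nat.add_comm n, Function.iterate_add_apply, h, Function.iterate_succ_apply] at h'
      have e1 : flip bind f (some b) = f b := rfl
      rw [e1, hb, iter_none] at h'
      exact absurd h' (by simp)
  rcases le_total n m with hnm | hnm
  · exact aux hnm h h' hb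
  · exact (aux hnm h' h hb').symm

theorem Code.Result.unique {αΓ βΓ : Type} {D : Code αΓ βΓ} {x : List αΓ}
    {y y' : List (Option βΓ)} (h : D.Result x y) (h' : D.Result x y') : y = y' := by
  obtain ⟨n, b, h1, h2, h3⟩ := h
  obtain ⟨n', b', h1', h2', h3'⟩ := h'
  have hh : ∀ c : TM2.Cfg (fun _ : Fin D.1 => Fin (D.2.1 + 1)) (Fin D.2.2.1) (Fin D.2.2.2.1),
      c.l = none → TM2.step D.2.2.2.2.1 c = none := by
    rintro ⟨l, v, S⟩ hl
    simp only at hl
    subst hl
    rfl
  have := halt_unique _ h1 h1' (hh b h2) (hh b' h2')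
  subst this
  rw [h3, h3']

/-- every machine has a code -/
theorem exists_code {α β αΓ βΓ : Type} {ea : α → List αΓ} {eb : β → List βΓ} {f : α → β}
    (h : TM2ComputableInPolyTime ea eb f) :
    ∃ D : Code αΓ βΓ, ∀ a, D.Result (ea a) ((eb (f a)).map some) := by
  classical
  obtain ⟨⟨tm, inA, outA⟩, time, hout⟩ := h
  obtain @⟨K, dK, fK, k₀, k₁, Γ, Λ, main, fΛ, σ, init, fσ, fΓ, m⟩ := tm
  simp only at inA outA hout
  -- used symbols
  let W : Set (Σ k, Γ k) := (⋃ l, used (m l)) ∪ Set.range (fun a : Γ k₀ => (⟨k₀, a⟩ : Σ k, Γ k))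
  have hW : W.Finite := by
    refine Set.Finite.union (Set.finite_iUnion fun l => used_finite (m l)) (Set.finite_range _)
  let g := hW.toFinset.card
  let eW := hW.toFinset.equivFin
  let enc : (Σ k, Γ k) → Fin (g + 1) := fun x =>
    if hx : x ∈ W then (eW ⟨x, hW.mem_toFinset.2 hx⟩).castSucc else Fin.last g
  have enc_inj : ∀ x ∈ W, ∀ y ∈ W, enc x = enc y → x = y := by
    intro x hx y hy hxy
    simp only [enc, dif_pos hx, dif_pos hy] at hxy
    have h1 := Fin.castSucc_injective _ hxy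
    have h2 := eW.injective h1
    exact congrArg Subtype.val h2
  let dec : ∀ k, Fin (g + 1) → Option (Γ k) := fun k c =>
    if hc : ∃ a : Γ k, (⟨k, a⟩ : Σ k, Γ k) ∈ W ∧ enc ⟨k, a⟩ = c then some hc.choose else none
  have hdec : ∀ k a, (⟨k, a⟩ : Σ k, Γ k) ∈ W → dec k (enc ⟨k, a⟩) = some a := by
    intro k a ha
    have hc : ∃ a' : Γ k, (⟨k, a'⟩ : Σ k, Γ k) ∈ W ∧ enc ⟨k, a'⟩ = enc ⟨k, a⟩ := ⟨a, ha, rfl⟩
    simp only [dec, dif_pos hc]
    have h1 := enc_inj _ hc.choose_spec.1 _ ha hc.choose_spec.2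
    have h2 : hc.choose = a := eq_of_heq (Sigma.mk.inj h1).2
    rw [h2]
  let eK := Fintype.equivFin K
  let eΛ := Fintype.equivFin Λ
  let eσ := Fintype.equivFin σ
  let D : Code αΓ βΓ := ⟨Fintype.card K, g, Fintype.card Λ, Fintype.card σ,
    trM eK eΛ eσ enc dec m, eΛ main, eσ init, eK k₀, eK k₁,
    fun x => enc ⟨k₀, inA.symm x⟩, fun c => (dec k₁ c).map outA⟩
  refine ⟨D, fun a => ?_⟩
  obtain ⟨⟨n, hn⟩, -⟩ := hout a
  have hinit : RC eK eΛ eσ enc W
      (initList ⟨k₀, k₁, Γ, Λ, main, σ, init, m⟩ ((ea a).map inA.invFun)) (D.init (ea a)) := by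
    refine ⟨rfl, rfl, ?_, ?_⟩
    · intro k
      by_cases hk : k = k₀
      · subst hk
        simp [Code.init, D, initList]
      · have hk' : eK k ≠ eK k₀ := fun hh => hk (eK.injective hh)
        simp [Code.init, D, initList, hk]
    · intro k a' ha'
      by_cases hk : k = k₀
      · subst hk
        exact Or.inr ⟨a', rfl⟩
      · simp [initList, hk] at ha'
  obtain ⟨b', hb', hR⟩ := iter_tr hdec m
    (fun l x hx => Or.inl (Set.mem_iUnion.2 ⟨l, hx⟩)) n hinit hn
  refine ⟨n, b', hb', ?_, ?_⟩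
  · rw [hR.l]; rfl
  · show _ = (b'.stk (eK k₁)).map (fun c => (dec k₁ c).map outA)
    rw [hR.s.map k₁, List.map_map]
    have hst : (haltList (⟨k₀, k₁, Γ, Λ, main, σ, init, m⟩ : FinTM2)
        ((eb (f a)).map outA.invFun)).stk k₁ = (eb (f a)).map outA.invFun := by
      simp [haltList]
    have hmem := hR.s.mem k₁
    rw [hst] at hmem ⊢
    rw [List.map_map]
    refine List.map_congr_left fun x hx => ?_
    have := hdec k₁ _ (hmem _ (List.mem_map_of_mem hx))
    simp only [Function.comp_apply]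
    rw [this]
    simp

/-- **Countability.** -/
theorem countable_polyTime {α β αΓ βΓ : Type} [Finite αΓ] [Countable βΓ] {ea : α → List αΓ}
    {eb : β → List βΓ} (heb : Function.Injective eb) :
    {f : α → β | Nonempty (TM2ComputableInPolyTime ea eb f)}.Countable := by
  classical
  have h : ∀ f : {f : α → β | Nonempty (TM2ComputableInPolyTime ea eb f)},
      ∃ D : Code αΓ βΓ, ∀ a, D.Result (ea a) ((eb (f.1 a)).map some) :=
    fun f => exists_code f.2.some
  choose D hD using h
  have hinj : Function.Injective D := by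
    intro f f' hff
    apply Subtype.ext
    funext a
    have h1 := hD f a
    rw [hff] at h1
    have h2 := h1.unique (hD f' a)
    exact heb (List.map_injective_iff.2 (Option.some_injective _) h2)
  exact Set.countable_coe_iff.1 hinj.countable

end Pool.Agent.GridW.Count
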