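import Pool.Agent.GridW.Conf

/-!
# Sweeping: configurations without long interleaved systems have small linear grid-width
-/

namespace Pool.Agent.GridW

open Classical in
/-- The number of successful steps of the greedy search for points in the cells `cs 0, cs 1, …`,
with increasing wires, after the wires `< a` have been processed. -/
noncomputable def ph (A : Set (ℕ × ℕ)) (cs : ℕ → ℕ) : ℕ → ℕ
  | 0 => 0
  | a + 1 => if (cs (ph A cs a), a) ∈ A then ph A cs a + 1 else ph A cs a

variable {A : Set (ℕ × ℕ)} {cs : ℕ → ℕ}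

theorem ph_succ_of_mem {a : ℕ} (h : (cs (ph A cs a), a) ∈ A) :
    ph A cs (a + 1) = ph A cs a + 1 := by
  rw [ph, if_pos h]

theorem ph_succ_of_not_mem {a : ℕ} (h : (cs (ph A cs a), a) ∉ A) :
    ph A cs (a + 1) = ph A cs a := by
  rw [ph, if_neg h]

theorem ph_mono : Monotone (ph A cs) := by
  refine monotone_nat_of_le_succ fun a => ?_
  by_cases h : (cs (ph A cs a), a) ∈ A
  · rw [ph_succ_of_mem h]; omega
  · rw [ph_succ_of_not_mem h]

theorem ph_step {N s : ℕ} (h : s < ph A cs N) : ∃ a, ph A cs a = s ∧ (cs s, a) ∈ A := by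
  induction N with
  | zero => exact absurd h (Nat.not_lt_zero _)
  | succ N ih =>
    by_cases hN : s < ph A cs N
    · exact ih hN
    · by_cases hm : (cs (ph A cs N), N) ∈ A
      · rw [ph_succ_of_mem hm] at h
        have : ph A cs N = s := by omega
        exact ⟨N, this, this ▸ hm⟩
      · rw [ph_succ_of_not_mem hm] at h
        exact absurd h hN

/-- either the greedy search succeeds `R` times, or not -/
theorem ph_cases (R : ℕ) : (∀ a, ph A cs a < R) ∨
    ∃ b : ℕ → ℕ, (∀ s < R, (cs s, b s) ∈ A) ∧ ∀ s s', s < s' → s' < R → b s < b s' := by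
  by_cases h : ∀ a, ph A cs a < R
  · exact Or.inl h
  · right
    push Not at h
    obtain ⟨N, hN⟩ := h
    have h1 : ∀ s, ∃ a, s < R → ph A cs a = s ∧ (cs s, a) ∈ A := by
      intro s
      by_cases hs : s < R
      · obtain ⟨a, ha⟩ := ph_step (A := A) (cs := cs) (N := N) (s := s) (by omega)
        exact ⟨a, fun _ => ha⟩
      · exact ⟨0, fun h => absurd h hs⟩
    choose b hb using h1
    refine ⟨b, fun s hs => (hb s hs).2, fun s s' hss hs' => ?_⟩
    by_contra hle
    have := ph_mono (A := A) (cs := cs) (not_lt.1 hle)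
    rw [(hb s' hs').1, (hb s (by omega)).1] at this
    omega

/-- the cells searched in slab `M` -/
def slab (N M : ℕ) (s : ℕ) : ℕ := M * N + s % N

/-- the cut in slab `M` -/
noncomputable def cut (A : Set (ℕ × ℕ)) (N M a : ℕ) : ℕ := slab N M (ph A (slab N M) a)

theorem le_cut {N M a : ℕ} : M * N ≤ cut A N M a := Nat.le_add_right _ _

theorem cut_lt {N M a : ℕ} (hN : 0 < N) : cut A N M a < M * N + N :=
  Nat.add_lt_add_left (Nat.mod_lt _ hN) _

open Classical in
/-- the number of cuts to the left of (or at) a point -/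
noncomputable def mm (A : Set (ℕ × ℕ)) (N : ℕ) (p : ℕ × ℕ) : ℕ :=
  p.1 / N + if p.1 < cut A N (p.1 / N) p.2 then 0 else 1

theorem mm_le {N : ℕ} (hN : 0 < N) (p : ℕ × ℕ) (M : ℕ) : mm A N p ≤ M ↔ p.1 < cut A N M p.2 := by
  have hq1 : p.1 / N * N ≤ p.1 := Nat.div_mul_le_self _ _
  have hq2 : p.1 < (p.1 / N + 1) * N := by
    have := Nat.lt_div_mul_add (a := p.1) hN
    rw [Nat.add_mul, Nat.one_mul]
    exact this
  have hc1 := le_cut (A := A) (N := N) (M := M) (a := p.2)
  have hc2 := cut_lt (A := A) (N := N) (M := M) (a := p.2) hN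
  rcases lt_trichotomy (p.1 / N) M with h | h | h
  · have h3 : (p.1 / N + 1) * N ≤ M * N := Nat.mul_le_mul_right _ h
    have h4 : mm A N p ≤ p.1 / N + 1 := by
      unfold mm
      split_ifs <;> omega
    constructor
    · intro _; omega
    · intro _; omega
  · unfold mm
    rw [h]
    split_ifs with h5
    · simp [h5]
    · constructor
      · intro h6; omega
      · intro h6; exact absurd h6 h5
  · have h3 : (M + 1) * N ≤ p.1 / N * N := Nat.mul_le_mul_right _ h
    rw [Nat.add_mul, Nat.one_mul] at h3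
    have h4 : p.1 / N ≤ mm A N p := Nat.le_add_right _ _
    constructor
    · intro _; omega
    · intro _; omega

/-- covers by `K` sets which are convex for `f` -/
def Cover {ι : Type} (f : ι → ℕ) (K : ℕ) (S : Set ι) : Prop :=
  ∃ T : Fin K → Set ι, (∀ k, ∀ p ∈ T k, ∀ q ∈ T k, ∀ r, f p ≤ f r → f r ≤ f q → r ∈ T k) ∧
    S = ⋃ k, T k

theorem Cover.of_label {ι κ : Type} [Fintype κ] {f : ι → ℕ} {K : ℕ} {S : Set ι}
    (hK : Fintype.card κ ≤ K) (lab : ι → κ)
    (hconv : ∀ p q r, lab p = lab q → f p ≤ f r → f r ≤ f q → lab r = lab p)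
    (hom : ∀ p q, lab p = lab q → p ∈ S → q ∈ S) : Cover f K S := by
  classical
  let e : κ ↪ Fin K := (Fintype.equivFin κ).toEmbedding.trans (Fin.castLEEmb hK)
  refine ⟨fun k => {p | p ∈ S ∧ e (lab p) = k}, ?_, ?_⟩
  · rintro k p ⟨hp, hpk⟩ q ⟨hq, hqk⟩ r h1 h2
    have hlab : lab p = lab q := e.injective (hpk.trans hqk.symm)
    have hr := hconv p q r hlab h1 h2
    exact ⟨hom p r hr.symm hp, by rw [hr]; exact hpk⟩
  · ext p
    simp

/-- combined phase function -/
noncomputable def Psi (A : Set (ℕ × ℕ)) (N M a0 a : ℕ) : ℕ :=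
  ph A (slab N M) a + ph A (slab N (M - 1)) a + if a0 < a then 1 else 0

theorem Psi_comp {N M a0 a a' : ℕ} (h : Psi A N M a0 a = Psi A N M a0 a') :
    ph A (slab N M) a = ph A (slab N M) a' ∧
      ph A (slab N (M - 1)) a = ph A (slab N (M - 1)) a' ∧ (a0 < a ↔ a0 < a') := by
  have aux : ∀ a a', a ≤ a' → Psi A N M a0 a = Psi A N M a0 a' →
      ph A (slab N M) a = ph A (slab N M) a' ∧
      ph A (slab N (M - 1)) a = ph A (slab N (M - 1)) a' ∧ (a0 < a ↔ a0 < a') := by
    intro a a' hle h
    have h1 := ph_mono (A := A) (cs := slab N M) hle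
    have h2 := ph_mono (A := A) (cs := slab N (M - 1)) hle
    unfold Psi at h
    split_ifs at h <;> omega
  rcases le_total a a' with hle | hle
  · exact aux a a' hle h
  · obtain ⟨h1, h2, h3⟩ := aux a' a hle h.symm
    exact ⟨h1.symm, h2.symm, h3.symm⟩

theorem Psi_mono {N M a0 : ℕ} : Monotone (Psi A N M a0) := by
  intro a a' hle
  have h1 := ph_mono (A := A) (cs := slab N M) hle
  have h2 := ph_mono (A := A) (cs := slab N (M - 1)) hle
  unfold Psi
  split_ifs <;> omega

/-- the prefix sets of the sweep -/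
def Pre (A : Set (ℕ × ℕ)) (N M a0 i0 : ℕ) : Set (ℕ × ℕ) :=
  {p | mm A N p < M ∨ (mm A N p = M ∧ (p.2 < a0 ∨ (p.2 = a0 ∧ p.1 < i0)))}

/-- the label of a point -/
noncomputable def lab (A : Set (ℕ × ℕ)) (e N M a0 : ℕ) (p : ℕ × ℕ) : ℕ × ℕ × ℕ :=
  if ln e p.1 < (M - 1) * N then (0, 0, 0)
  else if M * N + N < ln e p.1 then (1, 0, 0)
  else (2 + (ln e p.1 - (M - 1) * N), Psi A N M a0 p.2,
    if Psi A N M a0 (p.2 + 1) = Psi A N M a0 p.2 then 0 else if p.1 < ln e p.1 then 1 else 2)

theorem lab_bound {e N M a0 R : ℕ} (hR : ∀ M a, ph A (slab N M) a < R) (p : ℕ × ℕ) :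
    (lab A e N M a0 p).1 < 2 * N + 3 ∧ (lab A e N M a0 p).2.1 < 2 * R ∧
      (lab A e N M a0 p).2.2 < 3 := by
  have hR0 : 0 < R := lt_of_le_of_lt (Nat.zero_le _) (hR 0 0)
  unfold lab
  split_ifs with h1 h2 h3 h4
  · exact ⟨by simp only; omega, by simp only; omega, by simp only; omega⟩
  · exact ⟨by simp only; omega, by simp only; omega, by simp only; omega⟩
  all_goals
    have h5 : M * N ≤ (M - 1) * N + N := by
      rcases M with _ | M
      · simp
      · simp only [Nat.add_sub_cancel, Nat.add_mul, Nat.one_mul]; exact le_rfl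
    have h6 := hR M p.2
    have h7 := hR (M - 1) p.2
    refine ⟨by simp only; omega, ?_, by simp only; omega⟩
    simp only [Psi]
    split_ifs <;> omega

/-- homogeneity of the labels -/
theorem lab_hom {e N M a0 i0 : ℕ} (hN : 0 < N) {p q : ℕ × ℕ} (hp : p ∈ A) (hq : q ∈ A)
    (h : lab A e N M a0 p = lab A e N M a0 q) (hpS : p ∈ Pre A N M a0 i0) :
    q ∈ Pre A N M a0 i0 := by
  have lnp : ln e p.1 = p.1 ∨ ln e p.1 = p.1 + 1 := by unfold ln; omega
  have lnq : ln e q.1 = q.1 ∨ ln e q.1 = q.1 + 1 := by unfold ln; omega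
  have low : ∀ r : ℕ × ℕ, ln e r.1 < (M - 1) * N → mm A N r < M := by
    intro r hr
    have lnr : r.1 ≤ ln e r.1 := by unfold ln; omega
    have hM : 0 < M := by
      rcases M with _ | M
      · simp at hr
      · omega
    have : mm A N r ≤ M - 1 := (mm_le hN r (M - 1)).2 (by
      have := le_cut (A := A) (N := N) (M := M - 1) (a := r.2)
      omega)
    omega
  have high : ∀ r : ℕ × ℕ, M * N + N < ln e r.1 → ¬ mm A N r ≤ M := by
    intro r hr hm
    have lnr : ln e r.1 ≤ r.1 + 1 := by unfold ln; omega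
    have h1 := (mm_le hN r M).1 hm
    have h2 := cut_lt (A := A) (N := N) (M := M) (a := r.2) hN
    omega
  have hpM : mm A N p ≤ M := by
    rcases hpS with h1 | ⟨h1, _⟩ <;> omega
  by_cases hp1 : ln e p.1 < (M - 1) * N
  · -- low label
    have hq1 : ln e q.1 < (M - 1) * N := by
      by_contra hq1
      unfold lab at h
      rw [if_pos hp1, if_neg hq1] at h
      split_ifs at h <;> (have := congrArg Prod.fst h; simp only at this; omega)
    exact Or.inl (low q hq1)
  by_cases hp2 : M * N + N < ln e p.1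
  · exact absurd hpM (high p hp2)
  have hlp : lab A e N M a0 p = (2 + (ln e p.1 - (M - 1) * N), Psi A N M a0 p.2,
    if Psi A N M a0 (p.2 + 1) = Psi A N M a0 p.2 then 0 else if p.1 < ln e p.1 then 1 else 2) := by
    unfold lab
    rw [if_neg hp1, if_neg hp2]
  rw [hlp] at h
  have hq1 : ¬ ln e q.1 < (M - 1) * N := by
    intro hq1
    unfold lab at h
    rw [if_pos hq1] at h
    have := congrArg Prod.fst h
    simp only at this
    omega
  have hq2 : ¬ M * N + N < ln e q.1 := by
    intro hq2
    unfold lab at h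
    rw [if_neg hq1, if_pos hq2] at h
    have := congrArg Prod.fst h
    simp only at this
    omega
  have hlq : lab A e N M a0 q = (2 + (ln e q.1 - (M - 1) * N), Psi A N M a0 q.2,
    if Psi A N M a0 (q.2 + 1) = Psi A N M a0 q.2 then 0 else if q.1 < ln e q.1 then 1 else 2) := by
    unfold lab
    rw [if_neg hq1, if_neg hq2]
  rw [hlq] at h
  simp only [Prod.mk.injEq] at h
  obtain ⟨h1, h2, h3⟩ := h
  have hl : ln e p.1 = ln e q.1 := by omega
  obtain ⟨c1, c2, c3⟩ := Psi_comp h2
  by_cases hs : Psi A N M a0 (p.2 + 1) = Psi A N M a0 p.2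
  · -- ordinary wires
    rw [if_pos hs] at h3
    have hs' : Psi A N M a0 (q.2 + 1) = Psi A N M a0 q.2 := by
      by_contra hh
      rw [if_neg hh] at h3
      split_ifs at h3
    have key : ∀ r ∈ A, Psi A N M a0 (r.2 + 1) = Psi A N M a0 r.2 →
        r.1 ≠ cut A N M r.2 ∧ r.1 ≠ cut A N (M - 1) r.2 ∧ r.2 ≠ a0 := by
      intro r hr hrs
      obtain ⟨d1, d2, d3⟩ := Psi_comp hrs
      refine ⟨fun hh => ?_, fun hh => ?_, fun hh => ?_⟩
      · have : (slab N M (ph A (slab N M) r.2), r.2) ∈ A := by
          show (cut A N M r.2, r.2) ∈ A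
          rw [← hh]; exact hr
        rw [ph_succ_of_mem this] at d1
        omega
      · have : (slab N (M - 1) (ph A (slab N (M - 1)) r.2), r.2) ∈ A := by
          show (cut A N (M - 1) r.2, r.2) ∈ A
          rw [← hh]; exact hr
        rw [ph_succ_of_mem this] at d2
        omega
      · omega
    obtain ⟨p1, p2, p3⟩ := key p hp hs
    obtain ⟨q1, q2, q3⟩ := key q hq hs'
    have e1 : cut A N M p.2 = cut A N M q.2 := by
      unfold cut; rw [c1]
    have e2 : cut A N (M - 1) p.2 = cut A N (M - 1) q.2 := by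
      unfold cut; rw [c2]
    have mp := mm_le (A := A) hN p M
    have mq := mm_le (A := A) hN q M
    have mp' := mm_le (A := A) hN p (M - 1)
    have mq' := mm_le (A := A) hN q (M - 1)
    rcases hpS with hS | ⟨hS, hS'⟩
    · -- mm p < M
      left
      have hM : 0 < M := by omega
      have : mm A N q ≤ M - 1 := by
        rw [mq']
        have := mp'.1 (by omega)
        omega
      omega
    · have hlt : p.2 < a0 := by omega
      have hlt' : q.2 < a0 := by omega
      have : mm A N q ≤ M := by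
        rw [mq]
        have := mp.1 (by omega)
        omega
      rcases Nat.lt_or_ge (mm A N q) M with h' | h'
      · exact Or.inl h'
      · exact Or.inr ⟨by omega, Or.inl hlt'⟩
  · -- special wires: `p = q`
    have hs' : ¬ Psi A N M a0 (q.2 + 1) = Psi A N M a0 q.2 := by
      intro hh
      rw [if_neg hs, if_pos hh] at h3
      split_ifs at h3
    rw [if_neg hs, if_neg hs'] at h3
    have hcell : p.1 = q.1 := by
      split_ifs at h3 <;> omega
    have hwire : p.2 = q.2 := by
      rcases lt_trichotomy p.2 q.2 with hlt | heq | hlt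
      · exfalso
        have m1 := Psi_mono (A := A) (N := N) (M := M) (a0 := a0) (show p.2 + 1 ≤ q.2 from hlt)
        have m2 := Psi_mono (A := A) (N := N) (M := M) (a0 := a0) (Nat.le_succ p.2)
        simp only [Nat.succ_eq_add_one] at m2
        omega
      · exact heq
      · exfalso
        have m1 := Psi_mono (A := A) (N := N) (M := M) (a0 := a0) (show q.2 + 1 ≤ p.2 from hlt)
        have m2 := Psi_mono (A := A) (N := N) (M := M) (a0 := a0) (Nat.le_succ q.2)
        simp only [Nat.succ_eq_add_one] at m2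
        omega
    have : p = q := Prod.ext hcell hwire
    rwa [← this]

/-- convexity of the labels -/
theorem lab_conv {α : ℕ → Bool} {e N M a0 : ℕ} {p q r : ℕ × ℕ}
    (h : lab A e N M a0 p = lab A e N M a0 q) (h1 : ¬ lt2 α e r p) (h2 : ¬ lt2 α e q r) :
    lab A e N M a0 r = lab A e N M a0 p := by
  have l1 : ln e p.1 ≤ ln e r.1 := by
    by_contra hh
    exact h1 (Or.inl (by omega))
  have l2 : ln e r.1 ≤ ln e q.1 := by
    by_contra hh
    exact h2 (Or.inl (by omega))
  have lnp : ln e p.1 = p.1 ∨ ln e p.1 = p.1 + 1 := by unfold ln; omega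
  have lnq : ln e q.1 = q.1 ∨ ln e q.1 = q.1 + 1 := by unfold ln; omega
  have lnr : ln e r.1 = r.1 ∨ ln e r.1 = r.1 + 1 := by unfold ln; omega
  by_cases hp1 : ln e p.1 < (M - 1) * N
  · have hq1 : ln e q.1 < (M - 1) * N := by
      by_contra hq1
      unfold lab at h
      rw [if_pos hp1, if_neg hq1] at h
      split_ifs at h <;> (have := congrArg Prod.fst h; simp only at this; omega)
    unfold lab
    rw [if_pos hp1, if_pos (show ln e r.1 < (M - 1) * N by omega)]
  by_cases hp2 : M * N + N < ln e p.1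
  · unfold lab
    rw [if_neg hp1, if_pos hp2, if_neg (by omega), if_pos (by omega)]
  have hlp : lab A e N M a0 p = (2 + (ln e p.1 - (M - 1) * N), Psi A N M a0 p.2,
    if Psi A N M a0 (p.2 + 1) = Psi A N M a0 p.2 then 0 else if p.1 < ln e p.1 then 1 else 2) := by
    unfold lab
    rw [if_neg hp1, if_neg hp2]
  rw [hlp] at h
  have hq1 : ¬ ln e q.1 < (M - 1) * N := by
    intro hq1
    unfold lab at h
    rw [if_pos hq1] at h
    have := congrArg Prod.fst h
    simp only at this
    omega
  have hq2 : ¬ M * N + N < ln e q.1 := by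
    intro hq2
    unfold lab at h
    rw [if_neg hq1, if_pos hq2] at h
    have := congrArg Prod.fst h
    simp only at this
    omega
  have hlq : lab A e N M a0 q = (2 + (ln e q.1 - (M - 1) * N), Psi A N M a0 q.2,
    if Psi A N M a0 (q.2 + 1) = Psi A N M a0 q.2 then 0 else if q.1 < ln e q.1 then 1 else 2) := by
    unfold lab
    rw [if_neg hq1, if_neg hq2]
  rw [hlq] at h
  simp only [Prod.mk.injEq] at h
  obtain ⟨h3, h4, h5⟩ := h
  have hl : ln e p.1 = ln e q.1 := by omega
  have hlr : ln e r.1 = ln e p.1 := by omega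
  -- the wire of `r` is between those of `p` and `q`
  have k1 : ¬ ky α (ln e p.1) r < ky α (ln e p.1) p := by
    intro hh
    exact h1 (Or.inr ⟨hlr, by rw [hlr]; exact hh⟩)
  have k2 : ¬ ky α (ln e p.1) q < ky α (ln e p.1) r := by
    intro hh
    exact h2 (Or.inr ⟨by omega, by rw [← hl]; exact hh⟩)
  have hbet : (p.2 ≤ r.2 ∧ r.2 ≤ q.2) ∨ (q.2 ≤ r.2 ∧ r.2 ≤ p.2) := by
    unfold ky at k1 k2
    by_cases ho : ori α (ln e p.1) = true
    · simp only [ho, if_true] at k1 k2
      left
      split_ifs at k1 k2 <;> omega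
    · simp only [ho, if_false, Bool.false_eq_true] at k1 k2
      right
      split_ifs at k1 k2 <;> omega
  have hmono := Psi_mono (A := A) (N := N) (M := M) (a0 := a0)
  have hr : Psi A N M a0 r.2 = Psi A N M a0 p.2 := by
    rcases hbet with ⟨b1, b2⟩ | ⟨b1, b2⟩
    · have := hmono b1
      have := hmono b2
      omega
    · have := hmono b1
      have := hmono b2
      omega
  by_cases hs : Psi A N M a0 (p.2 + 1) = Psi A N M a0 p.2
  · rw [if_pos hs] at h5
    have hs' : Psi A N M a0 (q.2 + 1) = Psi A N M a0 q.2 := by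
      by_contra hh
      rw [if_neg hh] at h5
      split_ifs at h5
    have hsr : Psi A N M a0 (r.2 + 1) = Psi A N M a0 r.2 := by
      rcases hbet with ⟨b1, b2⟩ | ⟨b1, b2⟩
      · have := hmono (show r.2 + 1 ≤ q.2 + 1 by omega)
        have := hmono (show r.2 ≤ r.2 + 1 by omega)
        omega
      · have := hmono (show r.2 + 1 ≤ p.2 + 1 by omega)
        have := hmono (show r.2 ≤ r.2 + 1 by omega)
        omega
    rw [hlp]
    unfold lab
    rw [if_neg (by omega), if_neg (by omega), if_pos hs, if_pos hsr, hlr, hr]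
  · have hs' : ¬ Psi A N M a0 (q.2 + 1) = Psi A N M a0 q.2 := by
      intro hh
      rw [if_neg hs, if_pos hh] at h5
      split_ifs at h5
    rw [if_neg hs, if_neg hs'] at h5
    have hcell : p.1 = q.1 := by
      split_ifs at h5 <;> omega
    have hwire : p.2 = q.2 := by
      rcases lt_trichotomy p.2 q.2 with hlt | heq | hlt
      · exfalso
        have m1 := hmono (show p.2 + 1 ≤ q.2 from hlt)
        have m2 := hmono (show p.2 ≤ p.2 + 1 by omega)
        omega
      · exact heq
      · exfalso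
        have m1 := hmono (show q.2 + 1 ≤ p.2 from hlt)
        have m2 := hmono (show q.2 ≤ q.2 + 1 by omega)
        omega
    have hpq : p = q := Prod.ext hcell hwire
    have hrp : r = p := by
      by_contra hne
      rcases lt2_total (α := α) (e := e) hne with h' | h'
      · exact h1 h'
      · rw [hpq] at h'; exact h2 h'
    rw [hrp]

end Pool.Agent.GridW
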