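import Pool.Agent.GridW.Read
import Pool.Agent.GridW.Sweep

/-!
# A pattern of two staircases has small linear grid-width, or the two words share a long factor
-/

namespace Pool.Agent.GridW

/-- `g` embeds `π` into the staircase of `α` -/
structure Emb (α : ℕ → Bool) {n : ℕ} (π : Equiv.Perm (Fin n)) (g : Fin n → ℕ × ℕ) : Prop where
  x : ∀ i j, i < j → lt2 α 1 (g i) (g j)
  y : ∀ i j, π i < π j → lt2 α 0 (g i) (g j)

/-- `π` is contained in the staircase of `α` -/
def InQ (α : ℕ → Bool) {n : ℕ} (π : Equiv.Perm (Fin n)) : Prop := ∃ g, Emb α π g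

/-- linear grid-width at most `K` -/
def LinW (K : ℕ) {n : ℕ} (π : Equiv.Perm (Fin n)) : Prop :=
  ∃ s : Equiv.Perm (Fin n), ∀ t ≤ n, Cover (fun i : Fin n => (i : ℕ)) K {i | (s i : ℕ) < t} ∧
    Cover (fun i : Fin n => (π i : ℕ)) K {i | (s i : ℕ) < t}

variable {α β : ℕ → Bool} {n : ℕ} {π : Equiv.Perm (Fin n)} {g : Fin n → ℕ × ℕ}

theorem Emb.x_iff (h : Emb α π g) {i j : Fin n} : lt2 α 1 (g i) (g j) ↔ i < j := by
  constructor
  · intro hl
    rcases lt_trichotomy i j with h1 | h1 | h1
    · exact h1
    · subst h1; exact absurd hl (lt2_irrefl _ _)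
    · exact absurd hl (lt2_asymm (h.x j i h1))
  · exact h.x i j

theorem Emb.y_iff (h : Emb α π g) {i j : Fin n} : lt2 α 0 (g i) (g j) ↔ π i < π j := by
  constructor
  · intro hl
    rcases lt_trichotomy (π i) (π j) with h1 | h1 | h1
    · exact h1
    · have := π.injective h1
      subst this; exact absurd hl (lt2_irrefl _ _)
    · exact absurd hl (lt2_asymm (h.y j i h1))
  · exact h.y i j

theorem Emb.inj (h : Emb α π g) : Function.Injective g := by
  intro i j hij
  rcases lt_trichotomy i j with h1 | h1 | h1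
  · exact absurd (h.x i j h1) (by rw [hij]; exact lt2_irrefl _ _)
  · exact h1
  · exact absurd (h.x j i h1) (by rw [hij]; exact lt2_irrefl _ _)

theorem Cover.univ {ι : Type} {f : ι → ℕ} {K : ℕ} (hK : 0 < K) : Cover f K Set.univ := by
  refine ⟨fun _ => Set.univ, fun k p _ q _ r _ _ => trivial, ?_⟩
  haveI : Nonempty (Fin K) := ⟨⟨0, hK⟩⟩
  rw [Set.iUnion_const]

/-- the bound for the linear grid-width -/
def bnd (L R : ℕ) : ℕ := (2 * (L + 1) + 3) * (2 * R * 3)

theorem linW_of_ph (h : Emb α π g) (L R : ℕ)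
    (hR : ∀ M a, ph (Set.range g) (slab (L + 1) M) a < R) : LinW (bnd L R) π := by
  classical
  set A := Set.range g with hA
  set N := L + 1 with hN
  have hN0 : 0 < N := Nat.succ_pos _
  have hR0 : 0 < R := lt_of_le_of_lt (Nat.zero_le _) (hR 0 0)
  let f : Fin n → ℕ ×ₗ ℕ ×ₗ ℕ := fun i => toLex (mm A N (g i), toLex ((g i).2, (g i).1))
  have hf : Function.Injective f := by
    intro i j hij
    have h1 : (g i).2 = (g j).2 := by
      have := congrArg (fun z => (ofLex (ofLex z).2).1) hij
      exact this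
    have h2 : (g i).1 = (g j).1 := by
      have := congrArg (fun z => (ofLex (ofLex z).2).2) hij
      exact this
    exact h.inj (Prod.ext h2 h1)
  have hmono : StrictMono (f ∘ Tuple.sort f) :=
    (Tuple.monotone_sort f).strictMono_of_injective (hf.comp (Tuple.sort f).injective)
  refine ⟨(Tuple.sort f).symm, fun t ht => ?_⟩
  rcases Nat.lt_or_ge t n with htn | htn
  · -- the prefix set
    set i1 := Tuple.sort f ⟨t, htn⟩ with hi1
    have hset : {i | (((Tuple.sort f).symm i : Fin n) : ℕ) < t} =
        {i | g i ∈ Pre A N (mm A N (g i1)) (g i1).2 (g i1).1} := by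
      ext i
      have e1 : ((((Tuple.sort f).symm i : Fin n) : ℕ) < t) ↔ f i < f i1 := by
        have := hmono.lt_iff_lt (a := (Tuple.sort f).symm i) (b := ⟨t, htn⟩)
        simp only [Function.comp_apply, Equiv.apply_symm_apply] at this
        rw [← hi1] at this
        rw [this]
        exact Iff.rfl
      have e2 : f i < f i1 ↔ g i ∈ Pre A N (mm A N (g i1)) (g i1).2 (g i1).1 := by
        show toLex _ < toLex _ ↔ _
        rw [Prod.Lex.toLex_lt_toLex]
        simp only
        rw [Prod.Lex.toLex_lt_toLex]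
        exact Iff.rfl
      exact e1.trans e2
    rw [hset]
    set M := mm A N (g i1)
    set a0 := (g i1).2
    set i0 := (g i1).1
    have hcard : Fintype.card (Fin (2 * N + 3) × Fin (2 * R) × Fin 3) ≤ bnd L R := by
      simp only [Fintype.card_prod, Fintype.card_fin]
      exact le_rfl
    have main : ∀ (e : ℕ) (F : Fin n → ℕ), (∀ i j, F i ≤ F j → ¬ lt2 α e (g j) (g i)) →
        Cover F (bnd L R) {i | g i ∈ Pre A N M a0 i0} := by
      intro e F hF
      refine Cover.of_label (κ := Fin (2 * N + 3) × Fin (2 * R) × Fin 3) hcard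
        (fun i => (⟨_, (lab_bound (e := e) (M := M) (a0 := a0) hR (g i)).1⟩,
          ⟨_, (lab_bound (e := e) (M := M) (a0 := a0) hR (g i)).2.1⟩,
          ⟨_, (lab_bound (e := e) (M := M) (a0 := a0) hR (g i)).2.2⟩)) ?_ ?_
      · intro p q r hpq h1 h2
        simp only [Prod.mk.injEq, Fin.mk.injEq] at hpq ⊢
        obtain ⟨c1, c2, c3⟩ := hpq
        have hl : lab A e N M a0 (g p) = lab A e N M a0 (g q) :=
          Prod.ext c1 (Prod.ext c2 c3)
        have := lab_conv hl (hF p r h1) (hF r q h2)
        rw [this]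
        exact ⟨rfl, rfl, rfl⟩
      · intro p q hpq hp
        simp only [Prod.mk.injEq, Fin.mk.injEq] at hpq
        obtain ⟨c1, c2, c3⟩ := hpq
        have hl : lab A e N M a0 (g p) = lab A e N M a0 (g q) :=
          Prod.ext c1 (Prod.ext c2 c3)
        exact lab_hom hN0 ⟨p, rfl⟩ ⟨q, rfl⟩ hl hp
    constructor
    · refine main 1 _ fun i j hij => ?_
      rw [h.x_iff]
      exact not_lt.2 hij
    · refine main 0 _ fun i j hij => ?_
      rw [h.y_iff]
      exact not_lt.2 hij
  · have hset : {i : Fin n | (((Tuple.sort f).symm i : Fin n) : ℕ) < t} = Set.univ := by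
      ext i
      simp only [Set.mem_ofPred_eq, Set.mem_univ, iff_true]
      exact lt_of_lt_of_le (Fin.isLt _) htn
    rw [hset]
    have hb : 0 < bnd L R := by unfold bnd; positivity
    exact ⟨Cover.univ hb, Cover.univ hb⟩

/-- **Dichotomy.** -/
theorem dichotomy {β : ℕ → Bool} {L : ℕ} (hL : 1 ≤ L) (hα : InQ α π) (hβ : InQ β π)
    (hD : ∀ i, ∃ d ≤ L, α (i + d) = false) :
    LinW (bnd L ((2 * L + 3) * (L + 1))) π ∨ ∃ i c, ∀ j ≤ L, α (i + j) = β (c + j) := by
  classical
  obtain ⟨g, hg⟩ := hα
  obtain ⟨h, hh⟩ := hβ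
  set R := 2 * L + 3 with hR
  set N := L + 1 with hN
  by_cases hall : ∀ M a, ph (Set.range g) (slab N M) a < R * N
  · exact Or.inl (linW_of_ph hg L (R * N) hall)
  · right
    push Not at hall
    obtain ⟨M, a, ha⟩ := hall
    rcases ph_cases (A := Set.range g) (cs := slab N M) (R * N) with h1 | ⟨b, hb1, hb2⟩
    · exact absurd (h1 a) (not_lt.2 ha)
    · have hx : ∀ s, ∃ x : Fin n, s < R * N → g x = (slab N M s, b s) := by
        intro s
        by_cases hs : s < R * N
        · obtain ⟨x, hx⟩ := hb1 s hs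
          exact ⟨x, fun _ => hx⟩
        · obtain ⟨x, -⟩ := hb1 0 (by rw [hR, hN]; positivity)
          exact ⟨x, fun h => absurd h hs⟩
      choose x hx using hx
      have hidx : ∀ j k, j ≤ L → k < R → k * N + j < R * N := by
        intro j k hj hk
        have : (k + 1) * N ≤ R * N := Nat.mul_le_mul_right _ hk
        rw [Nat.add_mul, Nat.one_mul] at this
        omega
      have hslab : ∀ j k, j ≤ L → slab N M (k * N + j) = M * N + j := by
        intro j k hj
        unfold slab
        rw [Nat.mul_comm k N, Nat.mul_add_mod, Nat.mod_eq_of_lt (by omega)]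
      have S : Sys α β (M * N) L R (fun j k => b (k * N + j)) (fun j k => h (x (k * N + j))) := by
        refine ⟨?_, ?_, ?_⟩
        · intro j k hj hk
          exact hb2 _ _ (by omega) (hidx (j + 1) k hj hk)
        · intro j k hj hk
          refine hb2 _ _ ?_ (hidx j (k + 1) hj.le hk)
          rw [Nat.add_mul, Nat.one_mul]
          omega
        · intro e j k j' k' he hj hk hj' hk' hlt
          have g1 : g (x (k * N + j)) = (M * N + j, b (k * N + j)) := by
            rw [hx _ (hidx j k hj hk), hslab j k hj]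
          have g2 : g (x (k' * N + j')) = (M * N + j', b (k' * N + j')) := by
            rw [hx _ (hidx j' k' hj' hk'), hslab j' k' hj']
          rw [← g1, ← g2] at hlt
          rcases (by omega : e = 0 ∨ e = 1) with rfl | rfl
          · exact hh.y _ _ (hg.y_iff.1 hlt)
          · exact hh.x _ _ (hg.x_iff.1 hlt)
      obtain ⟨c, hc⟩ := S.read hL (by omega) (hD (M * N))
      exact ⟨M * N, c, hc⟩

end Pool.Agent.GridW
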