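import Pool.Agent.GridW.Conf

/-!
# Large staircases have large grid-width: the counting argument
-/

namespace Pool.Agent.GridW

variable {α : ℕ → Bool}

theorem lt2_of_ne {e : ℕ} {p q : ℕ × ℕ} (h : p ≠ q) (h' : ¬ lt2 α e p q) : lt2 α e q p :=
  (lt2_total h).resolve_left h'

/-- consecutive points of one wire are neighbours -/
theorem adjacent {e i a : ℕ} (he : (i + e) % 2 = 1) {r : ℕ × ℕ}
    (h1 : lt2 α e (i, a) r ∧ lt2 α e r (i + 1, a) ∨ lt2 α e (i + 1, a) r ∧ lt2 α e r (i, a)) :
    False := by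
  obtain ⟨j, b⟩ := r
  have l1 : ln e i = i + 1 := by unfold ln; omega
  have l2 : ln e (i + 1) = i + 1 := by unfold ln; omega
  have l3 : ln e j = i + 1 := by
    rcases h1 with ⟨h1, h2⟩ | ⟨h1, h2⟩
    · have := lt2_ln h1
      have := lt2_ln h2
      simp only at *
      omega
    · have := lt2_ln h1
      have := lt2_ln h2
      simp only at *
      omega
  unfold lt2 at h1
  simp only [l1, l2, l3, lt_irrefl, true_and, false_or] at h1
  unfold ky at h1
  simp only at h1
  by_cases ho : ori α (i + 1) = true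
  · simp only [ho, if_true] at h1
    split_ifs at h1 <;> omega
  · simp only [ho, if_false, Bool.false_eq_true] at h1
    split_ifs at h1 <;> omega

section
variable {K N v : ℕ} {S : Set (ℕ × ℕ)} {T : ℕ → Fin K → Set (ℕ × ℕ)}

/-- the number of cells containing both points of `S` and points outside `S` -/
theorem bad_cells (hS : ∀ e < 2, ∀ p : ℕ × ℕ, p.1 < N → p.2 < v → (p ∈ S ↔ ∃ k, p ∈ T e k))
    (hT : ∀ e < 2, ∀ k, ∀ p q r : ℕ × ℕ, r.1 < N → r.2 < v → p ∈ T e k → q ∈ T e k →
      lt2 α e p r → lt2 α e r q → r ∈ T e k) (s : Finset ℕ)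
    (hs : ∀ i ∈ s, i < N ∧ (∃ a < v, (i, a) ∈ S) ∧ ∃ a < v, (i, a) ∉ S) :
    s.card ≤ 4 * K := by
  classical
  have hd : ∀ i : s, ∃ d : Fin 2 × Fin K × Bool, (d.1 : ℕ) = i.1 % 2 ∧ ∃ a b, a < v ∧ b < v ∧
      (i.1, a) ∈ T (i.1 % 2) d.2.1 ∧ (i.1, b) ∉ T (i.1 % 2) d.2.1 ∧ i.1 < N ∧
      (d.2.2 = true ↔ lt2 α (i.1 % 2) (i.1, a) (i.1, b)) := by
    rintro ⟨i, hi⟩
    obtain ⟨hN, ⟨a, ha, haS⟩, ⟨b, hb, hbS⟩⟩ := hs i hi
    have hm : i % 2 < 2 := Nat.mod_lt _ (by omega)
    obtain ⟨k, hk⟩ := (hS (i % 2) hm (i, a) hN ha).1 haS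
    exact ⟨(⟨i % 2, hm⟩, k, decide (lt2 α (i % 2) (i, a) (i, b))), rfl, a, b, ha, hb,
        hk, fun h => hbS ((hS (i % 2) hm (i, b) hN hb).2 ⟨k, h⟩), hN, by simp⟩
  choose d hd1 a b ha hb hTa hTb hN hsg using hd
  have hinj : Function.Injective d := by
    have aux : ∀ i j : s, i.1 < j.1 → d i ≠ d j := by
      intro i j hij hdd
      have hm : i.1 % 2 = j.1 % 2 := by rw [← hd1 i, ← hd1 j, hdd]
      have hm2 : i.1 % 2 < 2 := Nat.mod_lt _ (by omega)
      have hlt : ∀ x y, lt2 α (i.1 % 2) (i.1, x) (j.1, y) := by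
        intro x y
        left
        simp only [ln]
        omega
      by_cases hb' : (d i).2.2 = true
      · -- last line
        have h1 := (hsg i).1 hb'
        have h2 := hTa j
        rw [← hm, ← hdd] at h2
        exact hTb i (hT _ hm2 _ _ _ _ (hN i) (hb i) (hTa i) h2 h1 (hlt _ _))
      · have h1 : ¬ lt2 α (j.1 % 2) (j.1, a j) (j.1, b j) := by
          intro hh
          exact hb' (by rw [hdd]; exact (hsg j).2 hh)
        have hne : ((j.1, a j) : ℕ × ℕ) ≠ (j.1, b j) := by
          intro hh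
          exact hTb j (by rw [← hh]; exact hTa j)
        have h2 := lt2_of_ne hne h1
        have h3 := hTa i
        rw [hm, hdd] at h3
        rw [hm] at hlt
        exact hTb j (hT _ (hm ▸ hm2) _ _ _ _ (hN j) (hb j) h3 (hTa j) (hlt _ _) h2)
    intro i j hij
    rcases lt_trichotomy i.1 j.1 with h | h | h
    · exact absurd hij (aux i j h)
    · exact Subtype.ext h
    · exact absurd hij.symm (aux j i h)
  have := Fintype.card_le_of_injective d hinj
  simp only [Fintype.card_coe, Fintype.card_prod, Fintype.card_fin, Fintype.card_bool] at this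
  omega

/-- the number of wires having neighbouring points in `S` and outside `S` -/
theorem boundaries (hS : ∀ e < 2, ∀ p : ℕ × ℕ, p.1 < N → p.2 < v → (p ∈ S ↔ ∃ k, p ∈ T e k))
    (hT : ∀ e < 2, ∀ k, ∀ p q r : ℕ × ℕ, r.1 < N → r.2 < v → p ∈ T e k → q ∈ T e k →
      lt2 α e p r → lt2 α e r q → r ∈ T e k)
    (hw : ∀ a < v, ∃ i, i + 1 < N ∧ ((i, a) ∈ S ∧ (i + 1, a) ∉ S ∨ (i, a) ∉ S ∧ (i + 1, a) ∈ S)) :
    v ≤ 4 * K := by
  classical
  -- for every wire: direction, `p ∈ S`, `q ∉ S`
  have hd : ∀ a : Fin v, ∃ d : Fin 2 × Fin K × Bool, ∃ p q : ℕ × ℕ, p.2 = a.1 ∧ q.2 = a.1 ∧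
      q.1 < N ∧ p ∈ T d.1 d.2.1 ∧ q ∉ T d.1 d.2.1 ∧ (d.2.2 = true ↔ lt2 α d.1 p q) ∧
      (∀ r, ¬ (lt2 α d.1 p r ∧ lt2 α d.1 r q)) ∧ ∀ r, ¬ (lt2 α d.1 q r ∧ lt2 α d.1 r p) := by
    rintro ⟨a, ha⟩
    obtain ⟨i, hi, hiS⟩ := hw a ha
    obtain ⟨e, he, hep⟩ : ∃ e, e < 2 ∧ (i + e) % 2 = 1 := by
      rcases Nat.mod_two_eq_zero_or_one i with h | h
      · exact ⟨1, by omega, by omega⟩
      · exact ⟨0, by omega, by omega⟩
    rcases hiS with ⟨h1, h2⟩ | ⟨h1, h2⟩
    · obtain ⟨k, hk⟩ := (hS e he (i, a) (by simp only; omega) ha).1 h1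
      refine ⟨(⟨e, he⟩, k, decide (lt2 α e (i, a) (i + 1, a))), (i, a), (i + 1, a), rfl, rfl, hi,
        hk, fun h => h2 ((hS e he (i + 1, a) hi ha).2 ⟨k, h⟩), by simp, ?_, ?_⟩
      · intro r hr; exact adjacent hep (Or.inl hr)
      · intro r hr; exact adjacent hep (Or.inr hr)
    · obtain ⟨k, hk⟩ := (hS e he (i + 1, a) hi ha).1 h2
      refine ⟨(⟨e, he⟩, k, decide (lt2 α e (i + 1, a) (i, a))), (i + 1, a), (i, a), rfl, rfl,
        by simp only; omega,
        hk, fun h => h1 ((hS e he (i, a) (by simp only; omega) ha).2 ⟨k, h⟩), by simp, ?_, ?_⟩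
      · intro r hr; exact adjacent hep (Or.inr hr)
      · intro r hr; exact adjacent hep (Or.inl hr)
  choose d p q hp hq hqN hTp hTq hsg hadj1 hadj2 using hd
  have hinj : Function.Injective d := by
    intro a b hab
    by_contra hne
    have hpne : p a ≠ p b := by
      intro hh
      apply hne
      apply Fin.ext
      rw [← hp a, ← hp b, hh]
    -- the point `q` lies strictly outside the interval spanned by `p a`, `p b`
    have key : ∀ a b : Fin v, d a = d b → p a ≠ p b → lt2 α (d a).1 (p a) (p b) →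
        ((d a).2.2 = true → False) ∧ ((d a).2.2 = false → False) := by
      intro a b hab hpne hlt
      have hqa2 : (q a).2 < v := by rw [hq a]; exact a.2
      have hqb2 : (q b).2 < v := by rw [hq b]; exact b.2
      constructor
      · intro ht
        have h1 := (hsg a).1 ht
        have h2 := hTp b
        rw [← hab] at h2
        -- compare `q a` and `p b`
        by_cases h3 : lt2 α (d a).1 (q a) (p b)
        · exact hTq a (hT _ (d a).1.2 _ _ _ _ (hqN a) hqa2 (hTp a) h2 h1 h3)
        · have hne' : q a ≠ p b := by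
            intro hh
            exact hTq a (by rw [hh]; exact h2)
          exact hadj1 a (p b) ⟨hlt, lt2_of_ne hne' h3⟩
      · intro hf
        rw [hab] at hf
        have h1 : ¬ lt2 α (d b).1 (p b) (q b) := by
          intro hh
          have := (hsg b).2 hh
          rw [hf] at this
          exact absurd this (by simp)
        have hne' : p b ≠ q b := by
          intro hh
          exact hTq b (by rw [← hh]; exact hTp b)
        have h1' := lt2_of_ne hne' h1
        have h2 := hTp a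
        rw [hab] at h2 hlt
        by_cases h3 : lt2 α (d b).1 (p a) (q b)
        · exact hTq b (hT _ (d b).1.2 _ _ _ _ (hqN b) hqb2 h2 (hTp b) h3 h1')
        · have hne'' : p a ≠ q b := by
            intro hh
            exact hTq b (by rw [← hh]; exact h2)
          exact hadj2 b (p a) ⟨lt2_of_ne hne'' h3, hlt⟩
    by_cases h : lt2 α (d a).1 (p a) (p b)
    · obtain ⟨k1, k2⟩ := key a b hab hpne h
      cases hh : (d a).2.2
      · exact k2 hh
      · exact k1 hh
    · have h' := lt2_of_ne hpne h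
      rw [hab] at h'
      obtain ⟨k1, k2⟩ := key b a hab.symm hpne.symm h'
      cases hh : (d b).2.2
      · exact k2 hh
      · exact k1 hh
  have := Fintype.card_le_of_injective d hinj
  simp only [Fintype.card_prod, Fintype.card_fin, Fintype.card_bool] at this
  omega

/-- change of membership along a wire -/
theorem exists_change {P : ℕ → Prop} {i j : ℕ} (hij : i ≤ j) (hi : P i) (hj : ¬ P j) :
    ∃ k, i ≤ k ∧ k < j ∧ P k ∧ ¬ P (k + 1) := by
  induction j, hij using Nat.le_induction with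
  | base => exact absurd hi hj
  | succ j hij ih =>
    by_cases h : P j
    · exact ⟨j, hij, Nat.lt_succ_self _, h, hj⟩
    · obtain ⟨k, h1, h2, h3, h4⟩ := ih h
      exact ⟨k, h1, by omega, h3, h4⟩

open Classical in
/-- **Lower bound.** No balanced set of points of a large staircase has small grid-complexity. -/
theorem lower (hN : 12 * K < N) (hv : 4 * K < v)
    (hS : ∀ e < 2, ∀ p : ℕ × ℕ, p.1 < N → p.2 < v → (p ∈ S ↔ ∃ k, p ∈ T e k))
    (hT : ∀ e < 2, ∀ k, ∀ p q r : ℕ × ℕ, r.1 < N → r.2 < v → p ∈ T e k → q ∈ T e k →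
      lt2 α e p r → lt2 α e r q → r ∈ T e k)
    (h1 : N * v < 3 * ((Finset.range N ×ˢ Finset.range v).filter (· ∈ S)).card)
    (h2 : 3 * ((Finset.range N ×ˢ Finset.range v).filter (· ∈ S)).card ≤ 2 * (N * v)) :
    False := by
  set bad := (Finset.range N).filter
    (fun i => (∃ a < v, (i, a) ∈ S) ∧ ∃ a < v, (i, a) ∉ S) with hbad
  have hbc : bad.card ≤ 4 * K := by
    refine bad_cells hS hT bad fun i hi => ?_
    rw [hbad, Finset.mem_filter, Finset.mem_range] at hi
    exact ⟨hi.1, hi.2.1, hi.2.2⟩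
  have hNv : 12 * K * v < N * v := Nat.mul_lt_mul_of_pos_right hN (by omega)
  have hbv : bad.card * v ≤ 4 * K * v := Nat.mul_le_mul_right _ hbc
  -- a full cell
  have hfull : ∃ i < N, ∀ a < v, (i, a) ∈ S := by
    by_contra hno
    push Not at hno
    have hsub : (Finset.range N ×ˢ Finset.range v).filter (· ∈ S) ⊆ bad ×ˢ Finset.range v := by
      intro p hp
      rw [Finset.mem_filter, Finset.mem_product, Finset.mem_range, Finset.mem_range] at hp
      rw [Finset.mem_product, hbad, Finset.mem_filter, Finset.mem_range, Finset.mem_range]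
      exact ⟨⟨hp.1.1, ⟨p.2, hp.1.2, hp.2⟩, hno p.1 hp.1.1⟩, hp.1.2⟩
    have hc := Finset.card_le_card hsub
    rw [Finset.card_product, Finset.card_range] at hc
    have : 3 * (4 * K * v) = 12 * K * v := by ring
    omega
  -- an empty cell
  have hempty : ∃ i < N, ∀ a < v, (i, a) ∉ S := by
    by_contra hno
    push Not at hno
    have hsub : (Finset.range N ×ˢ Finset.range v).filter (fun p => ¬ p ∈ S) ⊆
        bad ×ˢ Finset.range v := by
      intro p hp
      rw [Finset.mem_filter, Finset.mem_product, Finset.mem_range, Finset.mem_range] at hp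
      rw [Finset.mem_product, hbad, Finset.mem_filter, Finset.mem_range, Finset.mem_range]
      exact ⟨⟨hp.1.1, hno p.1 hp.1.1, ⟨p.2, hp.1.2, hp.2⟩⟩, hp.1.2⟩
    have hc := Finset.card_le_card hsub
    rw [Finset.card_product, Finset.card_range] at hc
    have htot := Finset.card_filter_add_card_filter_not
      (s := Finset.range N ×ˢ Finset.range v) (p := (· ∈ S))
    rw [Finset.card_product, Finset.card_range, Finset.card_range] at htot
    have : 3 * (4 * K * v) = 12 * K * v := by ring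
    omega
  obtain ⟨i, hi, hif⟩ := hfull
  obtain ⟨j, hj, hje⟩ := hempty
  have := boundaries (α := α) hS hT (by
    intro a ha
    rcases le_total i j with hij | hij
    · obtain ⟨k, hk1, hk2, hk3, hk4⟩ := exists_change (P := fun k => (k, a) ∈ S) hij
        (hif a ha) (hje a ha)
      exact ⟨k, by omega, Or.inl ⟨hk3, hk4⟩⟩
    · obtain ⟨k, hk1, hk2, hk3, hk4⟩ := exists_change (P := fun k => (k, a) ∉ S) hij
        (hje a ha) (not_not.2 (hif a ha))
      exact ⟨k, by omega, Or.inr ⟨hk3, not_not.1 hk4⟩⟩)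
  omega

end

end Pool.Agent.GridW
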