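import Pool.Agent.GridW.Defs
import Pool.Agent.GridW.Dich
import Pool.Agent.GridW.Lower

/-!
# The staircase of any word contains permutations of arbitrarily large grid-width
-/

namespace Pool.Agent.GridW

variable {α : ℕ → Bool}

theorem intvUnion_of_finite {A : Set ℕ} (hA : A.Finite) : ∃ k, IntvUnion k A := by
  classical
  refine ⟨hA.toFinset.card, fun i => ((hA.toFinset.equivFin.symm i : ℕ),
    (hA.toFinset.equivFin.symm i : ℕ)), ?_, ?_⟩
  · intro i j hij
    simp only [Set.Icc_self]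
    rw [Set.disjoint_singleton]
    intro h
    exact hij (hA.toFinset.equivFin.symm.injective (Subtype.ext h))
  · ext a
    simp only [Set.Icc_self, Set.mem_iUnion, Set.mem_singleton_iff]
    constructor
    · intro ha
      refine ⟨hA.toFinset.equivFin ⟨a, hA.mem_toFinset.2 ha⟩, ?_⟩
      rw [Equiv.symm_apply_apply]
    · rintro ⟨i, rfl⟩
      exact hA.mem_toFinset.1 (hA.toFinset.equivFin.symm i).2

theorem cover_of_intv {n K : ℕ} {f : Fin n → ℕ} (hf : Function.Injective f) {S : Set (Fin n)}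
    (h : intv (f '' S) ≤ K) : Cover f K S := by
  classical
  obtain ⟨I, -, hI⟩ : IntvUnion (intv (f '' S)) (f '' S) :=
    Nat.sInf_mem (intvUnion_of_finite ((Set.toFinite S).image f))
  refine ⟨fun k => {p | ∃ h : (k : ℕ) < intv (f '' S), f p ∈ Set.Icc (I ⟨k, h⟩).1 (I ⟨k, h⟩).2},
    ?_, ?_⟩
  · rintro k p ⟨h1, hp⟩ q ⟨_, hq⟩ r hpr hrq
    exact ⟨h1, hp.1.trans hpr, hrq.trans hq.2⟩
  · ext p
    have e1 : p ∈ S ↔ f p ∈ f '' S := (hf.mem_set_image).symm
    rw [e1]
    conv_lhs => rw [hI]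
    simp only [Set.mem_iUnion, Set.mem_ofPred_eq]
    constructor
    · rintro ⟨k, hk⟩
      exact ⟨⟨k, lt_of_lt_of_le k.2 h⟩, k.2, hk⟩
    · rintro ⟨k, hk, hk'⟩
      exact ⟨⟨k, hk⟩, hk'⟩

theorem root_le_width {n : ℕ} (c : Set (Fin n) → ℕ) (t : BTree (Fin n)) :
    c {a | a ∈ t.leaves} ≤ t.width c := by
  cases t with
  | leaf a =>
    simp only [BTree.leaves, BTree.width, List.mem_singleton, Set.ofPred_eq_eq_singleton]
    exact le_rfl
  | node l r =>
    simp only [BTree.leaves, BTree.width, List.mem_append]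
    exact le_max_left _ _

theorem balanced {n K m : ℕ} (hm : 2 ≤ m) (c : Set (Fin n) → ℕ) (t : BTree (Fin n))
    (hw : t.width c ≤ K) (hl : 2 * m < 3 * t.leaves.length) :
    ∃ l : List (Fin n), l.Sublist t.leaves ∧ c {a | a ∈ l} ≤ K ∧ m < 3 * l.length ∧
      3 * l.length ≤ 2 * m := by
  induction t with
  | leaf a => simp only [BTree.leaves, List.length_singleton] at hl; omega
  | node l r ihl ihr =>
    simp only [BTree.leaves, BTree.width, List.length_append, max_le_iff] at hw hl ⊢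
    by_cases h1 : 2 * m < 3 * l.leaves.length
    · obtain ⟨l', h2, h3⟩ := ihl hw.2.1 h1
      exact ⟨l', h2.trans (List.sublist_append_left _ _), h3⟩
    by_cases h2 : 2 * m < 3 * r.leaves.length
    · obtain ⟨l', h2, h3⟩ := ihr hw.2.2 h2
      exact ⟨l', h2.trans (List.sublist_append_right _ _), h3⟩
    by_cases h3 : m < 3 * l.leaves.length
    · exact ⟨l.leaves, List.sublist_append_left _ _, (root_le_width c l).trans hw.2.1, h3,
        by omega⟩
    · exact ⟨r.leaves, List.sublist_append_right _ _, (root_le_width c r).trans hw.2.2,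
        by omega, by omega⟩

theorem exists_tree {β : Type} : ∀ l : List β, l ≠ [] → ∃ t : BTree β, t.leaves = l
  | [], h => absurd rfl h
  | [a], _ => ⟨BTree.leaf a, rfl⟩
  | a :: b :: l, _ => by
    obtain ⟨t, ht⟩ := exists_tree (b :: l) (by simp)
    exact ⟨BTree.node (BTree.leaf a) t, by simp [BTree.leaves, ht]⟩

/-- sorting key -/
def key (α : ℕ → Bool) (e : ℕ) (p : ℕ × ℕ) : ℕ ×ₗ ℤ := toLex (ln e p.1, ky α (ln e p.1) p)

theorem key_lt {e : ℕ} {p q : ℕ × ℕ} : key α e p < key α e q ↔ lt2 α e p q := by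
  unfold key lt2
  rw [Prod.Lex.toLex_lt_toLex]
  simp only
  constructor
  · rintro (h | ⟨h, h'⟩)
    · exact Or.inl h
    · exact Or.inr ⟨h, by rw [← h] at h'; exact h'⟩
  · rintro (h | ⟨h, h'⟩)
    · exact Or.inl h
    · exact Or.inr ⟨h, by rw [← h]; exact h'⟩

theorem key_inj {e : ℕ} : Function.Injective (key α e) := by
  intro p q hpq
  by_contra hne
  rcases lt2_total (α := α) (e := e) hne with h | h
  · rw [← key_lt, hpq] at h; exact lt_irrefl _ h
  · rw [← key_lt, hpq] at h; exact lt_irrefl _ h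

/-- the staircase with `N` cells and `v` wires as a permutation -/
theorem exists_full (α : ℕ → Bool) (N v : ℕ) : ∃ (π : Equiv.Perm (Fin (N * v)))
    (g : Fin (N * v) → ℕ × ℕ), Emb α π g ∧ ∀ p : ℕ × ℕ, (∃ i, g i = p) ↔ p.1 < N ∧ p.2 < v := by
  let e0 : Fin (N * v) → ℕ × ℕ := fun i =>
    ((finProdFinEquiv.symm i).1, (finProdFinEquiv.symm i).2)
  have he0 : Function.Injective e0 := by
    intro i j hij
    have h1 := congrArg Prod.fst hij
    have h2 := congrArg Prod.snd hij
    exact finProdFinEquiv.symm.injective (Prod.ext (Fin.ext h1) (Fin.ext h2))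
  let kx : Fin (N * v) → ℕ ×ₗ ℤ := fun i => key α 1 (e0 i)
  let ky' : Fin (N * v) → ℕ ×ₗ ℤ := fun i => key α 0 (e0 i)
  have hx : StrictMono (kx ∘ Tuple.sort kx) :=
    (Tuple.monotone_sort kx).strictMono_of_injective
      ((key_inj.comp he0).comp (Tuple.sort kx).injective)
  have hy : StrictMono (ky' ∘ Tuple.sort ky') :=
    (Tuple.monotone_sort ky').strictMono_of_injective
      ((key_inj.comp he0).comp (Tuple.sort ky').injective)
  refine ⟨(Tuple.sort kx).trans (Tuple.sort ky').symm, fun i => e0 (Tuple.sort kx i),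
    ⟨?_, ?_⟩, ?_⟩
  · intro i j hij
    exact key_lt.1 (hx hij)
  · intro i j hij
    have := hy hij
    simp only [Function.comp_apply, Equiv.trans_apply, Equiv.apply_symm_apply] at this
    exact key_lt.1 this
  · intro p
    constructor
    · rintro ⟨i, rfl⟩
      exact ⟨Fin.isLt _, Fin.isLt _⟩
    · rintro ⟨h1, h2⟩
      refine ⟨(Tuple.sort kx).symm (finProdFinEquiv (⟨p.1, h1⟩, ⟨p.2, h2⟩)), ?_⟩
      simp only [Equiv.apply_symm_apply, e0, Equiv.symm_apply_apply]

/-- **Unbounded grid-width.** -/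
theorem unbounded (α : ℕ → Bool) (K : ℕ) : ∃ π : Pm, InQ α π.2 ∧ K < gw π := by
  classical
  set N := 12 * K + 2 with hN
  set v := 4 * K + 1 with hv
  obtain ⟨π, g, hg, hrange⟩ := exists_full α N v
  refine ⟨⟨N * v, π⟩, ⟨g, hg⟩, ?_⟩
  by_contra hle
  have hNv : 2 ≤ N * v := by
    have : 2 * 1 ≤ N * v := Nat.mul_le_mul (by omega) (by omega)
    omega
  -- a grid tree of width at most `K`
  obtain ⟨t0, ht0⟩ := exists_tree (List.finRange (N * v)) (by
    intro h
    have := congrArg List.length h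
    simp only [List.length_finRange, List.length_nil] at this
    omega)
  have hne : {w | ∃ t : BTree (Fin (N * v)), IsGridTree t ∧
      t.width (gridComplexity π) = w}.Nonempty :=
    ⟨_, t0, ⟨by rw [ht0]; exact List.nodup_finRange _,
      fun i => by rw [ht0]; exact List.mem_finRange _⟩, rfl⟩
  obtain ⟨t, ⟨htn, hta⟩, htw⟩ := Nat.sInf_mem hne
  have htK : t.width (gridComplexity π) ≤ K := by
    rw [htw]
    exact not_lt.1 hle
  have hlen : t.leaves.length = N * v := by
    have h1 : t.leaves.toFinset = Finset.univ := by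
      ext i; simp [hta i]
    rw [← List.toFinset_card_of_nodup htn, h1, Finset.card_univ, Fintype.card_fin]
  obtain ⟨l, hl1, hl2, hl3, hl4⟩ := balanced hNv (gridComplexity π) t htK (by rw [hlen]; omega)
  have hlnd : l.Nodup := hl1.nodup htn
  -- covers
  have hcx : Cover (fun i : Fin (N * v) => (i : ℕ)) K {a | a ∈ l} :=
    cover_of_intv Fin.val_injective ((le_max_left _ _).trans hl2)
  have hcy : Cover (fun i : Fin (N * v) => (π i : ℕ)) K {a | a ∈ l} :=
    cover_of_intv (Fin.val_injective.comp π.injective) ((le_max_right _ _).trans hl2)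
  obtain ⟨Tx, hTx1, hTx2⟩ := hcx
  obtain ⟨Ty, hTy1, hTy2⟩ := hcy
  have hin : ∀ p : ℕ × ℕ, p.1 < N → p.2 < v → ∃ i, g i = p := fun p h1 h2 => (hrange p).2 ⟨h1, h2⟩
  refine lower (α := α) (K := K) (N := N) (v := v) (S := g '' {a | a ∈ l})
    (T := fun e k => if e = 1 then g '' Tx k else g '' Ty k) (by omega) (by omega) ?_ ?_ ?_ ?_
  · intro e he p hp1 hp2
    obtain ⟨i, rfl⟩ := hin p hp1 hp2
    rcases (by omega : e = 0 ∨ e = 1) with rfl | rfl
    · simp only [zero_ne_one, if_false]
      rw [hTy2]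
      simp [hg.inj.mem_set_image]
    · simp only [if_true]
      rw [hTx2]
      simp [hg.inj.mem_set_image]
  · intro e he k p q r hr1 hr2 hp hq hpr hrq
    obtain ⟨m, rfl⟩ := hin r hr1 hr2
    rcases (by omega : e = 0 ∨ e = 1) with rfl | rfl
    · simp only [zero_ne_one, if_false] at hp hq ⊢
      obtain ⟨i, hi, rfl⟩ := hp
      obtain ⟨j, hj, rfl⟩ := hq
      exact ⟨m, hTy1 k i hi j hj m (le_of_lt (hg.y_iff.1 hpr)) (le_of_lt (hg.y_iff.1 hrq)), rfl⟩
    · simp only [if_true] at hp hq ⊢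
      obtain ⟨i, hi, rfl⟩ := hp
      obtain ⟨j, hj, rfl⟩ := hq
      exact ⟨m, hTx1 k i hi j hj m (le_of_lt (hg.x_iff.1 hpr)) (le_of_lt (hg.x_iff.1 hrq)), rfl⟩
  all_goals
    have hcard : ((Finset.range N ×ˢ Finset.range v).filter (· ∈ g '' {a | a ∈ l})).card =
        l.length := by
      have : (Finset.range N ×ˢ Finset.range v).filter (· ∈ g '' {a | a ∈ l}) =
          l.toFinset.image g := by
        ext p
        simp only [Finset.mem_filter, Finset.mem_product, Finset.mem_range, Set.mem_image,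
          Set.mem_ofPred_eq, Finset.mem_image, List.mem_toFinset]
        constructor
        · rintro ⟨-, i, hi, rfl⟩
          exact ⟨i, hi, rfl⟩
        · rintro ⟨i, hi, rfl⟩
          exact ⟨(hrange (g i)).1 ⟨i, rfl⟩, i, hi, rfl⟩
      rw [this, Finset.card_image_of_injective _ hg.inj, List.toFinset_card_of_nodup hlnd]
    rw [hcard]
    omega

end Pool.Agent.GridW
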