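import Pool.Agent.GridW.Defs
import Pool.Agent.GridW.Dich
import Pool.Agent.GridW.Unb

/-!
# Words whose long factors determine many bits; diagonalization
-/

namespace Pool.Agent.GridW

/-- the word of the sequence of bits `β` -/
def word (β : ℕ → Bool) (k : ℕ) : Bool :=
  if k % 5 = 0 then false
  else if k % 5 = 1 then false
  else if k % 5 = 2 then true
  else if k % 5 = 3 then β 0
  else word (fun n => β (n + 1)) (k / 5)
termination_by k
decreasing_by omega

variable {β γ : ℕ → Bool}

theorem word0 {k : ℕ} (h : k % 5 = 0) : word β k = false := by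
  rw [word, if_pos h]

theorem word1 {k : ℕ} (h : k % 5 = 1) : word β k = false := by
  rw [word, if_neg (by omega), if_pos h]

theorem word2 {k : ℕ} (h : k % 5 = 2) : word β k = true := by
  rw [word, if_neg (by omega), if_neg (by omega), if_pos h]

theorem word3 {k : ℕ} (h : k % 5 = 3) : word β k = β 0 := by
  rw [word, if_neg (by omega), if_neg (by omega), if_neg (by omega), if_pos h]

theorem word4 {k : ℕ} (h : k % 5 = 4) : word β k = word (fun n => β (n + 1)) (k / 5) := by
  rw [word, if_neg (by omega), if_neg (by omega), if_neg (by omega), if_neg (by omega)]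

/-- length of the factors determining `n` bits -/
def len : ℕ → ℕ
  | 0 => 4
  | n + 1 => 5 * len n + 8

theorem four_le_len (n : ℕ) : 4 ≤ len n := by
  induction n with
  | zero => exact le_rfl
  | succ n ih => show 4 ≤ 5 * len n + 8; omega

theorem decode (n : ℕ) : ∀ (β γ : ℕ → Bool) (i c : ℕ),
    (∀ j ≤ len n, word β (i + j) = word γ (c + j)) → ∀ m < n, β m = γ m := by
  induction n with
  | zero => intro β γ i c _ m hm; exact absurd hm (Nat.not_lt_zero _)
  | succ n ih =>
    intro β γ i c h m hm
    have hlen : len (n + 1) = 5 * len n + 8 := rfl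
    have h4 := four_le_len n
    rw [hlen] at h
    obtain ⟨j0, hj0, hi0⟩ : ∃ j0, j0 ≤ 4 ∧ (i + j0) % 5 = 0 := by
      rcases (by omega : i % 5 = 0 ∨ i % 5 = 1 ∨ i % 5 = 2 ∨ i % 5 = 3 ∨ i % 5 = 4) with
        h | h | h | h | h
      · exact ⟨0, by omega, by omega⟩
      · exact ⟨4, by omega, by omega⟩
      · exact ⟨3, by omega, by omega⟩
      · exact ⟨2, by omega, by omega⟩
      · exact ⟨1, by omega, by omega⟩
    have e0 := h j0 (by omega)
    have e1 := h (j0 + 1) (by omega)
    have e2 := h (j0 + 2) (by omega)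
    have e3 := h (j0 + 3) (by omega)
    rw [word0 hi0] at e0
    rw [word1 (by omega)] at e1
    rw [word2 (by omega)] at e2
    rw [word3 (by omega)] at e3
    have hc0 : (c + j0) % 5 = 0 := by
      rcases (by omega : (c + j0) % 5 = 0 ∨ (c + j0) % 5 = 1 ∨ (c + j0) % 5 = 2 ∨
        (c + j0) % 5 = 3 ∨ (c + j0) % 5 = 4) with h | h | h | h | h
      · exact h
      · rw [word2 (β := γ) (k := c + (j0 + 1)) (by omega)] at e1
        exact absurd e1 (by simp)
      · rw [word2 (β := γ) (k := c + j0) (by omega)] at e0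
        exact absurd e0 (by simp)
      · rw [word0 (β := γ) (k := c + (j0 + 2)) (by omega)] at e2
        exact absurd e2 (by simp)
      · rw [word1 (β := γ) (k := c + (j0 + 2)) (by omega)] at e2
        exact absurd e2 (by simp)
    rw [word3 (by omega)] at e3
    rcases m with _ | m
    · exact e3
    · refine ih (fun n => β (n + 1)) (fun n => γ (n + 1)) ((i + j0) / 5) ((c + j0) / 5) ?_ m
        (by omega)
      intro j hj
      have e := h (j0 + 5 * j + 4) (by omega)
      rw [word4 (β := β) (k := i + (j0 + 5 * j + 4)) (by omega),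
        word4 (β := γ) (k := c + (j0 + 5 * j + 4)) (by omega)] at e
      rw [show (i + (j0 + 5 * j + 4)) / 5 = (i + j0) / 5 + j by omega,
        show (c + (j0 + 5 * j + 4)) / 5 = (c + j0) / 5 + j by omega] at e
      exact e

theorem window (β : ℕ → Bool) (n i : ℕ) : ∃ d ≤ len n, word β (i + d) = false := by
  have h4 := four_le_len n
  refine ⟨4 - (i + 4) % 5, by omega, word0 (by omega)⟩

/-- the bound on the linear grid-width at stage `n` -/
def bound (n : ℕ) : ℕ := bnd (len n) ((2 * len n + 3) * (len n + 1))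

/-- A permutation of large linear grid-width in two of our classes forces the sequences of bits to
agree for a long time. -/
theorem agree {n : ℕ} {π : Pm} (hβ : InQ (word β) π.2) (hγ : InQ (word γ) π.2)
    (h : ¬ LinW (bound n) π.2) : ∀ m < n, β m = γ m := by
  rcases dichotomy (by have := four_le_len n; omega) hβ hγ (window β n) with h1 | ⟨i, c, hic⟩
  · exact absurd h1 h
  · exact decode n β γ i c hic

/-- the permutation class of `β` -/
def cls (β : ℕ → Bool) : Set Pm := {π | InQ (word β) π.2}

theorem isClass_cls (β : ℕ → Bool) : IsClass (cls β) := by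
  rintro τ ⟨g, hg⟩ π ⟨h, hh, hh'⟩
  exact ⟨g ∘ h, fun i j hij => hg.x _ _ (hh hij), fun i j hij => hg.y _ _ ((hh' i j).1 hij)⟩

theorem not_bounded_cls (β : ℕ → Bool) : ¬ BoundedGW (cls β) := by
  rintro ⟨K, hK⟩
  obtain ⟨π, h1, h2⟩ := unbounded (word β) K
  exact absurd (hK π h1) (not_le.2 h2)

/-- **Diagonalization.** Given countably many sets of permutations, there is a class of unbounded
grid-width such that each of the sets contained in the class has bounded linear grid-width. -/
theorem diagonal (F : ℕ → Set Pm) :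
    ∃ C : Set Pm, IsClass C ∧ ¬ BoundedGW C ∧ ∀ i, F i ⊆ C → ∃ K, ∀ π ∈ F i, LinW K π.2 := by
  classical
  let P : ℕ → Pm → Prop := fun i π => π ∈ F i ∧ ¬ LinW (bound (i + 1)) π.2
  let Q : ℕ → (ℕ → Bool) → Prop := fun i γ => ∀ π, P i π → InQ (word γ) π.2
  let β : ℕ → Bool := fun i => if h : ∃ γ, Q i γ then !(h.choose i) else true
  refine ⟨cls β, isClass_cls β, not_bounded_cls β, fun i hi => ⟨bound (i + 1), fun π hπ => ?_⟩⟩
  by_contra hlin
  have hQβ : Q i β := fun ρ hρ => hi hρ.1
  have hex : ∃ γ, Q i γ := ⟨β, hQβ⟩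
  have h1 := hex.choose_spec π ⟨hπ, hlin⟩
  have h2 := agree (hQβ π ⟨hπ, hlin⟩) h1 hlin i (Nat.lt_succ_self _)
  have h3 : β i = !(hex.choose i) := dif_pos hex
  rw [h3] at h2
  revert h2
  cases hex.choose i <;> simp

end Pool.Agent.GridW
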