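import Pool.Agent.GridW.AlgPoly
import Pool.Agent.GridW.Word
import Pool.Agent.GridW.Count

/-!
# Decision problems, P, NP, NP-completeness; `C`-Pattern PPM
-/

namespace Pool.Agent.GridW

open Pool.Agent.TM2Lib

/-- A decision problem: its instances, a coding of the instances by bit strings, and the set of
yes-instances.  Only (codes of) instances are inputs, so this includes promise problems. -/
structure DecProb where
  /-- instances -/
  Inst : Type
  /-- coding of the instances -/
  code : Inst → List Bool
  /-- yes-instances -/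
  yes : Inst → Prop

/-- `f` is computable in polynomial time, inputs being coded by `ca` and outputs by `cb` -/
def PolyTime {α β : Type} (ca : α → List Bool) (cb : β → List Bool) (f : α → β) : Prop :=
  Nonempty (Turing.TM2ComputableInPolyTime ca cb f)

/-- a Boolean answer is written as one bit -/
def bitCode (b : Bool) : List Bool := [b]

/-- a pair of strings as one string -/
def pairCode (p : List Bool × List Bool) : List Bool :=
  D.encD (D.cons (D.ofBits p.1) (D.ofBits p.2))

/-- `Q` can be decided in polynomial time -/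
def InP (Q : DecProb) : Prop :=
  ∃ f : Q.Inst → Bool, PolyTime Q.code bitCode f ∧ ∀ x, f x = true ↔ Q.yes x

/-- `Q` has polynomial-time verifiable certificates of polynomial length -/
def InNP (Q : DecProb) : Prop :=
  ∃ (V : Q.Inst × List Bool → Bool) (p : Polynomial ℕ),
    PolyTime (fun z : Q.Inst × List Bool => pairCode (Q.code z.1, z.2)) bitCode V ∧
    ∀ x, Q.yes x ↔ ∃ y : List Bool, y.length ≤ p.eval (Q.code x).length ∧ V (x, y) = true

/-- a language as a decision problem: every string is an instance -/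
def Lang (L : Set (List Bool)) : DecProb := ⟨List Bool, id, fun x => x ∈ L⟩

/-- `P = NP`: every language in NP is in P -/
def PEqNP : Prop := ∀ L : Set (List Bool), InNP (Lang L) → InP (Lang L)

/-- polynomial-time many-one reducibility -/
def Reduces (Q R : DecProb) : Prop :=
  ∃ f : Q.Inst → R.Inst, PolyTime Q.code R.code f ∧ ∀ x, Q.yes x ↔ R.yes (f x)

/-- every language in NP reduces to `R` -/
def NPHard (R : DecProb) : Prop := ∀ L : Set (List Bool), InNP (Lang L) → Reduces (Lang L) R

/-- NP-completeness -/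
def NPComplete (R : DecProb) : Prop := InNP R ∧ NPHard R

/-- the sequence of values of a permutation -/
def vals (π : Pm) : List ℕ := List.ofFn fun i => (π.2 i : ℕ)

/-- A permutation is coded by its sequence of values. -/
instance : Enc Pm := ⟨fun π => enc (vals π)⟩

/-- the bit string coding an object -/
def code {α : Type} [Enc α] (a : α) : List Bool := D.encD (enc a)

/-- `C`-Pattern PPM: an instance is a pair (pattern `π ∈ C`, text `τ`); the question is whether
`τ` contains `π`. -/
def PPM (C : Set Pm) : DecProb :=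
  ⟨{p : Pm × Pm // p.1 ∈ C}, code, fun p => Contains p.1.2 p.1.1⟩

/-! ### coding facts -/

theorem vals_injective : Function.Injective vals := by
  rintro ⟨n, π⟩ ⟨m, τ⟩ h
  have h1 : n = m := by
    have := congrArg List.length h
    simpa [vals] using this
  subst h1
  have h2 := List.ofFn_injective h
  have : π = τ := by
    ext i
    exact congrFun h2 i
  rw [this]

theorem enc_pm_injective : Function.Injective (enc : Pm → D) := by
  intro π τ h
  have h1 : TM2Lib.GW.decNats (enc (vals π)) = TM2Lib.GW.decNats (enc (vals τ)) :=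
    congrArg TM2Lib.GW.decNats h
  rw [TM2Lib.GW.decNats_enc, TM2Lib.GW.decNats_enc] at h1
  exact vals_injective h1

theorem code_injective : Function.Injective (code : Pm × Pm → List Bool) := by
  rintro ⟨π, τ⟩ ⟨π', τ'⟩ h
  have h1 : (enc (π, τ) : D) = enc (π', τ') := TM2Lib.GW.encD_injective h
  have h2 : D.cons (enc π) (enc τ) = D.cons (enc π') (enc τ') := h1
  injection h2 with h3 h4
  rw [enc_pm_injective h3, enc_pm_injective h4]

/-! ### containment through point lists -/

/-- the points of a permutation, with first coordinates `2, 4, 8, …` -/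
def ptf (π : Pm) (i : Fin π.1) : ℕ × ℕ := (2 ^ ((i : ℕ) + 1), (π.2 i : ℕ))

theorem listing (π : Pm) : Listing (TM2Lib.GW.pts (vals π)) π.2 (ptf π) := by
  refine ⟨?_, ?_, ?_, ?_⟩
  · intro p
    rw [TM2Lib.GW.mem_pts]
    constructor
    · rintro ⟨i, hi, rfl⟩
      have hi' : i < π.1 := by simpa [vals] using hi
      exact ⟨⟨i, hi'⟩, by simp [ptf, vals]⟩
    · rintro ⟨i, rfl⟩
      exact ⟨i, by simp [vals], by simp [ptf, vals]⟩
  · intro i j
    simp only [ptf]
    rw [Nat.pow_lt_pow_iff_right (by norm_num)]
    constructor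
    · intro h; exact Fin.lt_def.2 (by omega)
    · intro h; have := Fin.lt_def.1 h; omega
  · intro i j
    exact Fin.lt_def.symm
  · rw [TM2Lib.GW.pts_length]
    simp [vals]

theorem contains_iff (π τ : Pm) : Contains τ π ↔
    ∃ φ, PEmb (TM2Lib.GW.pts (vals π)) (TM2Lib.GW.pts (vals τ)) φ := by
  classical
  have hπ := listing π
  have hτ := listing τ
  constructor
  · rintro ⟨g, hg, hg'⟩
    refine ⟨fun p => if h : ∃ i, ptf π i = p then ptf τ (g h.choose) else p, ?_⟩
    have hφ : ∀ i, (if h : ∃ i', ptf π i' = ptf π i then ptf τ (g h.choose) else ptf π i) =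
        ptf τ (g i) := by
      intro i
      have h : ∃ i', ptf π i' = ptf π i := ⟨i, rfl⟩
      rw [dif_pos h, hπ.inj h.choose_spec]
    refine ⟨?_, ?_, ?_⟩
    · intro p hp
      obtain ⟨i, rfl⟩ := (hπ.mem p).1 hp
      simp only
      rw [hφ]
      exact (hτ.mem _).2 ⟨_, rfl⟩
    · intro p hp q hq hlt
      obtain ⟨i, rfl⟩ := (hπ.mem p).1 hp
      obtain ⟨j, rfl⟩ := (hπ.mem q).1 hq
      simp only
      rw [hφ, hφ, hτ.x]
      exact hg ((hπ.x i j).1 hlt)
    · intro p hp q hq hlt
      obtain ⟨i, rfl⟩ := (hπ.mem p).1 hp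
      obtain ⟨j, rfl⟩ := (hπ.mem q).1 hq
      simp only
      rw [hφ, hφ, hτ.y]
      exact (hg' i j).1 ((hπ.y i j).1 hlt)
  · rintro ⟨φ, h1, h2, h3⟩
    have hP : ∀ i, ptf π i ∈ TM2Lib.GW.pts (vals π) := fun i => (hπ.mem _).2 ⟨i, rfl⟩
    have hex : ∀ i, ∃ j, ptf τ j = φ (ptf π i) := fun i => (hτ.mem _).1 (h1 _ (hP i))
    choose g hg using hex
    have hmono : StrictMono g := by
      intro i j hij
      have := h2 _ (hP i) _ (hP j) ((hπ.x i j).2 hij)
      rw [← hg, ← hg] at this
      exact (hτ.x _ _).1 this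
    have hy : ∀ i j, π.2 i < π.2 j → τ.2 (g i) < τ.2 (g j) := by
      intro i j hij
      have := h3 _ (hP i) _ (hP j) ((hπ.y i j).2 hij)
      rw [← hg, ← hg] at this
      exact (hτ.y _ _).1 this
    refine ⟨g, hmono, fun i j => ⟨hy i j, fun h => ?_⟩⟩
    by_contra hn
    rcases lt_or_eq_of_le (not_lt.1 hn) with h' | h'
    · exact absurd (hy j i h') (not_lt.2 h.le)
    · rw [π.2.injective h'] at h
      exact lt_irrefl _ h

/-- the algorithm for patterns of linear grid-width at most `K` -/
def alg (K : ℕ) (p : List ℕ × List ℕ) : Bool :=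
  search K (TM2Lib.GW.pts p.1) (TM2Lib.GW.pts p.2)

theorem alg_iff {K : ℕ} {π τ : Pm} (h : LinW K π.2) :
    alg K (vals π, vals τ) = true ↔ Contains τ π := by
  rw [contains_iff]
  constructor
  · exact search_sound (listing π).gen
  · rintro ⟨φ, hφ⟩
    exact search_complete (listing π) h hφ

theorem poly_alg (K : ℕ) : TM2Lib.Poly (alg K) :=
  TM2Lib.GW.poly_search (TM2Lib.GW.poly_pts TM2Lib.Poly.fst) (TM2Lib.GW.poly_pts TM2Lib.Poly.snd) K

/-! ### hardness of a thin class would put NP into P -/

theorem countable_reductions :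
    {f : List Bool → Pm × Pm | PolyTime id (code : Pm × Pm → List Bool) f}.Countable :=
  Count.countable_polyTime code_injective

/-- **Main step.** There is a class of unbounded grid-width whose pattern problem is NP-hard only
if `P = NP`. -/
theorem exists_class : ∃ C : Set Pm, IsClass C ∧ ¬ BoundedGW C ∧ (NPHard (PPM C) → PEqNP) := by
  classical
  -- enumerate the polynomial-time functions
  have hne : ({f : List Bool → Pm × Pm | PolyTime id (code : Pm × Pm → List Bool) f} ∪
      {fun _ => (⟨0, 1⟩, ⟨0, 1⟩)}).Nonempty := ⟨_, Or.inr rfl⟩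
  obtain ⟨F, hF⟩ := (countable_reductions.union (Set.countable_singleton _)).exists_eq_range hne
  obtain ⟨C, hC1, hC2, hC3⟩ := diagonal fun i => {π | ∃ x, (F i x).1 = π}
  refine ⟨C, hC1, hC2, fun hard L hL => ?_⟩
  obtain ⟨f, hf, hfy⟩ := hard L hL
  have hc : Comp (id : List Bool → List Bool) (fun x => code ((f x).1 : Pm × Pm)) := by
    obtain ⟨M⟩ := hf
    have h1 := Comp.of_tm M
    exact h1
  -- `f` is one of the `F i`
  have hmem : (fun x => (f x).1) ∈ Set.range F := by
    rw [← hF]
    left
    exact Comp.to_tm hc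
  obtain ⟨i, hi⟩ := hmem
  obtain ⟨K, hK⟩ := hC3 i (by
    rintro π ⟨x, rfl⟩
    rw [hi]
    exact (f x).2)
  have hlin : ∀ x, LinW K ((f x).1.1).2 := by
    intro x
    refine hK _ ⟨x, ?_⟩
    rw [hi]
  refine ⟨fun x => alg K (vals (f x).1.1, vals (f x).1.2), ?_, ?_⟩
  · have h2 := (poly_alg K)
    have h3 : Comp (fun x : List Bool => code ((f x).1 : Pm × Pm))
        (fun x => D.encD (D.ofBool (alg K (vals (f x).1.1, vals (f x).1.2)))) :=
      (Comp.reindex h2 (fun x : List Bool => (vals (f x).1.1, vals (f x).1.2)))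
    exact Comp.to_tm (TM2Lib.GW.comp_bool (Comp.trans hc h3))
  · intro x
    rw [alg_iff (hlin x)]
    exact (hfy x).symm

end Pool.Agent.GridW
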