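import Mathlib

/-!
# Permutations, containment, permutation classes, grid-width
-/

namespace Pool.Agent.GridW

/-- Finite permutations: `⟨n, π⟩` is the permutation `π 0, …, π (n-1)` of `{0, …, n-1}`. -/
abbrev Pm : Type := Σ n : ℕ, Equiv.Perm (Fin n)

/-- `τ` contains `π`: some subsequence of `τ` has the same relative order as `π`. -/
def Contains (τ π : Pm) : Prop :=
  ∃ g : Fin π.1 → Fin τ.1, StrictMono g ∧ ∀ i j, π.2 i < π.2 j ↔ τ.2 (g i) < τ.2 (g j)

/-- A permutation class: a set of permutations closed under taking contained permutations. -/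
def IsClass (C : Set Pm) : Prop := ∀ τ ∈ C, ∀ π, Contains τ π → π ∈ C

/-- `A` is the union of `k` pairwise disjoint integer intervals. -/
def IntvUnion (k : ℕ) (A : Set ℕ) : Prop :=
  ∃ I : Fin k → ℕ × ℕ, (∀ i j, i ≠ j →
    Disjoint (Set.Icc (I i).1 (I i).2) (Set.Icc (I j).1 (I j).2)) ∧
    A = ⋃ i, Set.Icc (I i).1 (I i).2

/-- the least number of pairwise disjoint integer intervals whose union is `A` -/
noncomputable def intv (A : Set ℕ) : ℕ := sInf {k | IntvUnion k A}

/-- the projections of a set of points `(i, π i)` of the diagram (given by the set of the `i`) -/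
def projX {n : ℕ} (S : Set (Fin n)) : Set ℕ := (fun i : Fin n => (i : ℕ)) '' S

/-- see `projX` -/
def projY {n : ℕ} (π : Equiv.Perm (Fin n)) (S : Set (Fin n)) : Set ℕ :=
  (fun i : Fin n => (π i : ℕ)) '' S

/-- grid-complexity of a set of points of the diagram of `π` -/
noncomputable def gridComplexity {n : ℕ} (π : Equiv.Perm (Fin n)) (S : Set (Fin n)) : ℕ :=
  max (intv (projX S)) (intv (projY π S))

/-- rooted binary trees with labelled leaves -/
inductive BTree (α : Type) : Type
  | leaf : α → BTree α
  | node : BTree α → BTree α → BTree α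

namespace BTree

variable {α : Type}

/-- the labels of the leaves, from left to right -/
def leaves : BTree α → List α
  | leaf a => [a]
  | node l r => l.leaves ++ r.leaves

/-- the maximum over the vertices of the tree of the value of `c` at the set of labels of the
leaves below the vertex -/
noncomputable def width (c : Set α → ℕ) : BTree α → ℕ
  | leaf a => c {a}
  | node l r => max (c {a | a ∈ l.leaves ∨ a ∈ r.leaves}) (max (l.width c) (r.width c))

end BTree

/-- a grid tree of a permutation of length `n`: every point labels exactly one leaf -/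
def IsGridTree {n : ℕ} (t : BTree (Fin n)) : Prop := t.leaves.Nodup ∧ ∀ i, i ∈ t.leaves

/-- grid-width (`0` for the empty permutation, which has no grid tree) -/
noncomputable def gw (π : Pm) : ℕ :=
  sInf {w | ∃ t : BTree (Fin π.1), IsGridTree t ∧ t.width (gridComplexity π.2) = w}

/-- bounded grid-width -/
def BoundedGW (C : Set Pm) : Prop := ∃ K, ∀ π ∈ C, gw π ≤ K

end Pool.Agent.GridW
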