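import Pool.Agent.GridW.Cplx

/-!
# PPM is in NP; what happens if `P = NP`
-/

namespace Pool.Agent.TM2Lib.GW

open Pool.Agent.GridW

/-- check a certificate -/
def chk (P T : List Pt) (c : List (Pt × Pt)) : Bool :=
  (P.all fun p => c.any fun e => peq e.1 p) && ((c.all fun e => T.any fun q => peq e.2 q) &&
    (c.all fun e => c.all fun e' => ok e.1 e.2 e'.1 e'.2))

theorem chk_sound {P T : List Pt} {c : List (Pt × Pt)} (h : chk P T c = true) :
    ∃ φ, PEmb P T φ := by
  classical
  simp only [chk, Bool.and_eq_true, List.all_eq_true, List.any_eq_true, peq_iff] at h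
  obtain ⟨h1, h2, h3⟩ := h
  have hex : ∀ p : Pt, ∃ e : Pt × Pt, p ∈ P → e ∈ c ∧ e.1 = p := by
    intro p
    by_cases hp : p ∈ P
    · obtain ⟨e, he, hep⟩ := h1 p hp
      exact ⟨e, fun _ => ⟨he, hep⟩⟩
    · exact ⟨(p, p), fun hh => absurd hh hp⟩
  choose e he using hex
  have hok : ∀ p ∈ P, ∀ q ∈ P, ok p (e p).2 q (e q).2 = true := by
    intro p hp q hq
    have := h3 _ (he p hp).1 _ (he q hq).1
    rw [(he p hp).2, (he q hq).2] at this
    exact this
  refine ⟨fun p => (e p).2, ?_, ?_, ?_⟩
  · intro p hp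
    obtain ⟨q, hq, hqe⟩ := h2 _ (he p hp).1
    simp only
    rw [hqe]
    exact hq
  · intro p hp q hq hlt
    have := hok p hp q hq
    simp only [ok, Bool.and_eq_true, ok1_iff] at this
    exact this.1.1 hlt
  · intro p hp q hq hlt
    have := hok p hp q hq
    simp only [ok, Bool.and_eq_true, ok1_iff] at this
    exact this.2.1 hlt

theorem chk_complete {P T : List Pt} {φ : Pt → Pt} (h : PEmb P T φ) :
    chk P T (P.map fun p => (p, φ p)) = true := by
  simp only [chk, Bool.and_eq_true, List.all_eq_true, List.any_eq_true, peq_iff, List.mem_map]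
  refine ⟨?_, ?_, ?_⟩
  · intro p hp
    exact ⟨_, ⟨p, hp, rfl⟩, rfl⟩
  · rintro e ⟨p, hp, rfl⟩
    exact ⟨φ p, h.1 p hp, rfl⟩
  · rintro e ⟨p, hp, rfl⟩ e' ⟨q, hq, rfl⟩
    simp only [ok, Bool.and_eq_true, ok1_iff]
    exact ⟨⟨h.2.1 p hp q hq, h.2.1 q hq p hp⟩, h.2.2 p hp q hq, h.2.2 q hq p hp⟩

/-- decoding of points -/
def decPt (d : D) : Pt := (decNat (dhd d), decNat (dtl d))

/-- decoding of pairs of points -/
def decPP (d : D) : Pt × Pt := (decPt (dhd d), decPt (dtl d))

/-- decoding of certificates -/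
def decC (d : D) : List (Pt × Pt) := (toL d).map decPP

@[simp] theorem decPt_enc (p : Pt) : decPt (enc p) = p := by
  obtain ⟨a, b⟩ := p
  show (decNat (dhd (D.cons (enc a) (enc b))), decNat (dtl (D.cons (enc a) (enc b)))) = _
  rw [dhd_cons, dtl_cons, decNat_enc, decNat_enc]

@[simp] theorem decPP_enc (p : Pt × Pt) : decPP (enc p) = p := by
  obtain ⟨a, b⟩ := p
  show (decPt (dhd (D.cons (enc a) (enc b))), decPt (dtl (D.cons (enc a) (enc b)))) = _
  rw [dhd_cons, dtl_cons, decPt_enc, decPt_enc]

@[simp] theorem decC_enc (l : List (Pt × Pt)) : decC (enc l) = l := by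
  rw [decC, toL_enc_list, List.map_map]
  have : (decPP ∘ enc : Pt × Pt → Pt × Pt) = id := funext fun n => decPP_enc n
  rw [this, List.map_id]

section
variable {α : Type} [Enc α]

theorem poly_decPt {f : α → D} (hf : Poly f) : Poly (fun a => decPt (f a)) :=
  (poly_decNat (poly_dhd hf)).pair (poly_decNat (poly_dtl hf))

theorem poly_decPP {f : α → D} (hf : Poly f) : Poly (fun a => decPP (f a)) :=
  (poly_decPt (poly_dhd hf)).pair (poly_decPt (poly_dtl hf))

theorem poly_decC {f : α → D} (hf : Poly f) : Poly (fun a => decC (f a)) :=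
  Poly.map (h := fun p : α × D => decPP p.2) (poly_toL hf) (poly_decPP Poly.id.snd')

theorem poly_chk {P T : α → List Pt} {c : α → List (Pt × Pt)} (hP : Poly P) (hT : Poly T)
    (hc : Poly c) : Poly (fun a => chk (P a) (T a) (c a)) := by
  refine (Poly.all (h := fun r : α × Pt => (c r.1).any fun e => peq e.1 r.2) hP ?_).and
    ((Poly.all (h := fun r : α × (Pt × Pt) => (T r.1).any fun q => peq r.2.2 q) hc ?_).and
    (Poly.all (h := fun r : α × (Pt × Pt) => (c r.1).all fun e' =>
      ok r.2.1 r.2.2 e'.1 e'.2) hc ?_))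
  · exact Poly.any (h := fun z : (α × Pt) × (Pt × Pt) => peq z.2.1 z.1.2) (pc hc)
      (poly_peq Poly.id.snd'.fst' Poly.id.fst'.snd')
  · exact Poly.any (h := fun z : (α × (Pt × Pt)) × Pt => peq z.1.2.2 z.2) (pc hT)
      (poly_peq Poly.id.fst'.snd'.snd' Poly.id.snd')
  · exact Poly.all (h := fun z : (α × (Pt × Pt)) × (Pt × Pt) =>
      ok z.1.2.1 z.1.2.2 z.2.1 z.2.2) (pc hc)
      (poly_ok Poly.id.fst'.snd'.fst' Poly.id.fst'.snd'.snd' Poly.id.snd'.fst'
        Poly.id.snd'.snd')

end

/-- pattern points of a string -/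
def strP (s : List Bool) : List Pt := pts (decPair (parse s)).1

/-- text points of a string -/
def strT (s : List Bool) : List Pt := pts (decPair (parse s)).2

/-- the verifier -/
def ver (z : List Bool × List Bool) : Bool := chk (strP z.1) (strT z.1) (decC (parse z.2))

theorem poly_strP : Poly strP := poly_pts (poly_decPair (poly_parse Poly.id)).fst'

theorem poly_strT : Poly strT := poly_pts (poly_decPair (poly_parse Poly.id)).snd'

theorem poly_ver : Poly ver :=
  poly_chk (poly_strP.comp Poly.fst) (poly_strT.comp Poly.fst) (poly_decC (poly_parse Poly.snd))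

theorem sz_map_le {P T : List Pt} {φ : Pt → Pt} (h : ∀ p ∈ P, φ p ∈ T) (l : List Pt)
    (hl : ∀ p ∈ l, p ∈ P) :
    sz (l.map fun p => (p, φ p)) ≤ 1 + l.length * (sz P + sz T + 2) := by
  induction l with
  | nil => simp
  | cons p l ih =>
    have h1 := ih fun q hq => hl q (List.mem_cons_of_mem _ hq)
    have h2 := Poly.sz_mem_le (hl p List.mem_cons_self)
    have h3 := Poly.sz_mem_le (h p (hl p List.mem_cons_self))
    rw [List.map_cons, sz_cons, sz_pair, List.length_cons, Nat.succ_mul]
    omega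

/-- certificates of polynomial length -/
theorem exists_bound : ∃ B : Polynomial ℕ, ∀ s : List Bool,
    (∃ φ, PEmb (strP s) (strT s) φ) ↔ ∃ y : List Bool, y.length ≤ B.eval s.length ∧
      ver (s, y) = true := by
  obtain ⟨A1, hA1⟩ := poly_strP.size
  obtain ⟨A2, hA2⟩ := poly_strT.size
  let A1' := A1.comp (4 * Polynomial.X + 1)
  let A2' := A2.comp (4 * Polynomial.X + 1)
  refine ⟨1 + A1' * (A1' + A2' + 2), fun s => ⟨?_, ?_⟩⟩
  · rintro ⟨φ, hφ⟩
    refine ⟨D.encD (enc ((strP s).map fun p => (p, φ p))), ?_, ?_⟩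
    · have hs : sz s ≤ 4 * s.length + 1 := by
        have := D.size_ofBits_le s
        rw [ofBits_eq_enc] at this
        exact this
      have h1 : sz (strP s) ≤ A1'.eval s.length := by
        refine (hA1 s).trans ?_
        simp only [A1', Polynomial.eval_comp]
        exact eval_mono _ (by simpa using hs)
      have h2 : sz (strT s) ≤ A2'.eval s.length := by
        refine (hA2 s).trans ?_
        simp only [A2', Polynomial.eval_comp]
        exact eval_mono _ (by simpa using hs)
      have h3 := sz_map_le hφ.1 (strP s) (fun p hp => hp)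
      have h4 := length_lt_sz (strP s)
      have h5 : (strP s).length * (sz (strP s) + sz (strT s) + 2) ≤
          A1'.eval s.length * (A1'.eval s.length + A2'.eval s.length + 2) :=
        Nat.mul_le_mul (by omega) (by omega)
      refine (show (D.encD (enc ((strP s).map fun p => (p, φ p)))).length ≤ _ from h3).trans ?_
      simp only [Polynomial.eval_add, Polynomial.eval_mul, Polynomial.eval_one,
        Polynomial.eval_ofNat]
      omega
    · show chk _ _ (decC (parse (D.encD (enc ((strP s).map fun p => (p, φ p)))))) = true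
      rw [parse_encD, decC_enc]
      exact chk_complete hφ
  · rintro ⟨y, -, hy⟩
    exact chk_sound hy

/-- the verifier as a machine -/
theorem comp_ver : Comp pairCode (fun z => [ver z]) := by
  refine comp_bool ?_
  refine Comp.congr (x := fun z : List Bool × List Bool => D.encD (enc z)) poly_ver ?_
    (fun _ => rfl)
  rintro ⟨s, y⟩
  show D.encD (D.cons (enc s) (enc y)) = D.encD (D.cons (D.ofBits s) (D.ofBits y))
  rw [ofBits_eq_enc, ofBits_eq_enc]

end Pool.Agent.TM2Lib.GW

namespace Pool.Agent.GridW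

open Pool.Agent.TM2Lib Pool.Agent.TM2Lib.GW

theorem str_code (π τ : Pm) : (strP (code (π, τ)) = pts (vals π)) ∧
    strT (code (π, τ)) = pts (vals τ) := by
  have h : decPair (parse (code (π, τ))) = (vals π, vals τ) := by
    show decPair (parse (D.encD (enc (π, τ)))) = _
    rw [parse_encD]
    exact decPair_enc (vals π, vals τ)
  exact ⟨by rw [strP, h], by rw [strT, h]⟩

/-- `C`-Pattern PPM is in NP -/
theorem inNP_ppm (C : Set Pm) : InNP (PPM C) := by
  obtain ⟨B, hB⟩ := exists_bound
  refine ⟨fun z => ver (code z.1.1, z.2), B, ?_, ?_⟩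
  · exact Comp.to_tm (Comp.reindex comp_ver (fun z : (PPM C).Inst × List Bool =>
      (code (z.1.1 : Pm × Pm), z.2)))
  · rintro ⟨⟨π, τ⟩, hπ⟩
    show Contains τ π ↔ _
    have h1 := hB (code (π, τ))
    rw [(str_code π τ).1, (str_code π τ).2] at h1
    rw [contains_iff, h1]
    exact Iff.rfl

/-- PPM as a language -/
def ppmLang : Set (List Bool) := {s | ∃ φ, PEmb (strP s) (strT s) φ}

theorem inNP_ppmLang : InNP (Lang ppmLang) := by
  obtain ⟨B, hB⟩ := exists_bound
  exact ⟨ver, B, Comp.to_tm comp_ver, fun s => hB s⟩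

/-- if `P = NP` then `C`-Pattern PPM is polynomial-time solvable -/
theorem inP_ppm (h : PEqNP) (C : Set Pm) : InP (PPM C) := by
  obtain ⟨f, hf, hfy⟩ := h _ inNP_ppmLang
  refine ⟨fun x => f (code (x.1 : Pm × Pm)), ?_, ?_⟩
  · obtain ⟨M⟩ := hf
    have h1 := Comp.of_tm M
    exact Comp.to_tm (Comp.reindex h1 (fun x : (PPM C).Inst => code (x.1 : Pm × Pm)))
  · rintro ⟨⟨π, τ⟩, hπ⟩
    show f (code (π, τ)) = true ↔ Contains τ π
    rw [hfy]
    show (∃ φ, PEmb (strP (code (π, τ))) (strT (code (π, τ))) φ) ↔ _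
    rw [(str_code π τ).1, (str_code π τ).2, contains_iff]

/-- if `P = NP` then `C`-Pattern PPM is NP-hard as soon as `C` has a nonempty member -/
theorem hard_ppm (h : PEqNP) {C : Set Pm} {π : Pm} (hπ : π ∈ C) (hn : π.1 ≠ 0) :
    NPHard (PPM C) := by
  intro L hL
  obtain ⟨f, hf, hfy⟩ := h L hL
  let z : Pm := ⟨0, 1⟩
  let g : List Bool → {p : Pm × Pm // p.1 ∈ C} := fun x =>
    if f x then ⟨(π, π), hπ⟩ else ⟨(π, z), hπ⟩
  refine ⟨g, ?_, ?_⟩
  · obtain ⟨M⟩ := hf
    have h1 : Comp (id : List Bool → List Bool) (fun x => [f x]) := Comp.of_tm M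
    have h2 : Comp (id : List Bool → List Bool) (fun x => D.encD (D.cons (D.ofBool (f x)) D.nil)) :=
      Comp.pair (comp_bool' h1) (Comp.const _ _)
    refine Comp.to_tm (Comp.trans h2 (Comp.ite f (fun _ => D.nil) ?_ ?_))
    · refine (Comp.const _ (code (π, π))).congr (fun _ => rfl) ?_
      rintro ⟨x, hx⟩
      show code (π, π) = code (g x)
      have : g x = ⟨(π, π), hπ⟩ := by simp only [g, hx, if_true]
      rw [this]
      rfl
    · refine (Comp.const _ (code (π, z))).congr (fun _ => rfl) ?_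
      rintro ⟨x, hx⟩
      show code (π, z) = code (g x)
      have : g x = ⟨(π, z), hπ⟩ := by simp only [g, hx, if_false, Bool.false_eq_true]
      rw [this]
      rfl
  · intro x
    rw [← hfy x]
    show f x = true ↔ Contains (g x).1.2 (g x).1.1
    by_cases hx : f x = true
    · have : g x = ⟨(π, π), hπ⟩ := by simp only [g, hx, if_true]
      rw [this]
      simp only [hx, true_iff]
      exact ⟨id, strictMono_id, fun i j => Iff.rfl⟩
    · have : g x = ⟨(π, z), hπ⟩ := by simp only [g, hx, if_false, Bool.false_eq_true]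
      rw [this]
      simp only [hx, false_iff, Bool.false_eq_true]
      rintro ⟨e, -⟩
      exact (e ⟨0, Nat.pos_of_ne_zero hn⟩).elim0

theorem gw_empty (π : Pm) (h : π.1 = 0) : gw π = 0 := by
  have : {w | ∃ t : BTree (Fin π.1), IsGridTree t ∧ t.width (gridComplexity π.2) = w} = ∅ := by
    ext w
    simp only [Set.mem_ofPred_eq, Set.mem_empty_iff_false, iff_false]
    rintro ⟨t, -, -⟩
    have aux : BTree (Fin π.1) → False := by
      intro t
      induction t with
      | leaf a => exact (h ▸ a : Fin 0).elim0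
      | node l r ihl _ => exact ihl
    exact aux t
  rw [gw, this]
  exact Nat.sInf_empty

/-- **The dichotomy statement of the problem.** -/
def Dichotomy : Prop :=
  ∀ C : Set Pm, IsClass C → (¬ BoundedGW C → NPComplete (PPM C)) ∧ (BoundedGW C → InP (PPM C))

/-- **Main theorem.** The dichotomy holds if and only if `P = NP`. -/
theorem dichotomy_iff : Dichotomy ↔ PEqNP := by
  constructor
  · intro h
    obtain ⟨C, h1, h2, h3⟩ := exists_class
    exact h3 ((h C h1).1 h2).2
  · intro h C hC
    refine ⟨fun hgw => ⟨inNP_ppm C, ?_⟩, fun _ => inP_ppm h C⟩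
    have hex : ∃ π ∈ C, π.1 ≠ 0 := by
      by_contra hno
      push Not at hno
      exact hgw ⟨0, fun π hπ => (gw_empty π (hno π hπ)).le⟩
    obtain ⟨π, hπ, hn⟩ := hex
    exact hard_ppm h hπ hn

end Pool.Agent.GridW
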