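import Pool.Agent.GridW.Conf

/-!
# Reading lemma

An interleaved system of points on consecutive cells of the staircase of `α`, one of them of
decreasing type, can only be mapped to the staircase of `β` cell by cell, preserving the types.
-/

namespace Pool.Agent.GridW

variable {α β : ℕ → Bool}

theorem between_cell {e : ℕ} {u v r : ℕ × ℕ} {c : ℕ} (hu : u.1 = c) (hv : v.1 = c)
    (h : (lt2 β e u r ∧ lt2 β e r v) ∨ (lt2 β e v r ∧ lt2 β e r u)) (hr : r.1 = c) :
    (u.2 < r.2 ∧ r.2 < v.2) ∨ (v.2 < r.2 ∧ r.2 < u.2) := by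
  obtain ⟨u1, a⟩ := u
  obtain ⟨v1, b⟩ := v
  obtain ⟨r1, d⟩ := r
  simp only at hu hv hr
  subst hu hv hr
  rw [lt2_same, lt2_same, lt2_same, lt2_same] at h
  simp only
  by_cases ho : ori β (ln e r1) = true
  · simp only [ho, if_true] at h
    omega
  · simp only [ho, if_false, Bool.false_eq_true] at h
    omega

theorem up_cell {e e' : ℕ} (he : e < 2) (he' : e' = 1 - e) {u v r : ℕ × ℕ} {c : ℕ}
    (hu : u.1 = c) (hv : v.1 = c)
    (h : (lt2 β e u r ∧ lt2 β e r v) ∨ (lt2 β e v r ∧ lt2 β e r u))
    (h1 : lt2 β e' u r) (h2 : lt2 β e' v r) : r.1 = c + 1 := by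
  have hne : r.1 ≠ c := by
    intro hr
    have hb := between_cell hu hv h hr
    obtain ⟨u1, a⟩ := u
    obtain ⟨v1, b⟩ := v
    obtain ⟨r1, d⟩ := r
    simp only at hu hv hr hb
    subst hu hv hr
    rw [lt2_same] at h1 h2
    by_cases ho : ori β (ln e' r1) = true
    · simp only [ho, if_true] at h1 h2
      omega
    · simp only [ho, if_false, Bool.false_eq_true] at h1 h2
      omega
  have l1 : ln e r.1 = ln e c := by
    rcases h with ⟨h3, h4⟩ | ⟨h3, h4⟩
    · have := lt2_ln h3
      have := lt2_ln h4
      rw [hu] at *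
      rw [hv] at *
      omega
    · have := lt2_ln h3
      have := lt2_ln h4
      rw [hu] at *
      rw [hv] at *
      omega
  have l2 : ln e' c ≤ ln e' r.1 := by
    have := lt2_ln h1
    rwa [hu] at this
  unfold ln at l1 l2
  omega

theorem down_cell {e e' : ℕ} (he : e < 2) (he' : e' = 1 - e) {u v r : ℕ × ℕ} {c : ℕ}
    (hu : u.1 = c) (hv : v.1 = c)
    (h : (lt2 β e u r ∧ lt2 β e r v) ∨ (lt2 β e v r ∧ lt2 β e r u))
    (h1 : lt2 β e' r u) (h2 : lt2 β e' r v) : r.1 + 1 = c := by
  have hne : r.1 ≠ c := by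
    intro hr
    have hb := between_cell hu hv h hr
    obtain ⟨u1, a⟩ := u
    obtain ⟨v1, b⟩ := v
    obtain ⟨r1, d⟩ := r
    simp only at hu hv hr hb
    subst hu hv hr
    rw [lt2_same] at h1 h2
    by_cases ho : ori β (ln e' r1) = true
    · simp only [ho, if_true] at h1 h2
      omega
    · simp only [ho, if_false, Bool.false_eq_true] at h1 h2
      omega
  have l1 : ln e r.1 = ln e c := by
    rcases h with ⟨h3, h4⟩ | ⟨h3, h4⟩
    · have := lt2_ln h3
      have := lt2_ln h4
      rw [hu] at *
      rw [hv] at *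
      omega
    · have := lt2_ln h3
      have := lt2_ln h4
      rw [hu] at *
      rw [hv] at *
      omega
  have l2 : ln e' r.1 ≤ ln e' c := by
    have := lt2_ln h1
    rwa [hu] at this
  unfold ln at l1 l2
  omega

/-- an interleaved system on the cells `i0, …, i0 + L` of `α` mapped into `β` -/
structure Sys (α β : ℕ → Bool) (i0 L R : ℕ) (B : ℕ → ℕ → ℕ) (q : ℕ → ℕ → ℕ × ℕ) : Prop where
  h1 : ∀ j k, j < L → k < R → B j k < B (j + 1) k
  h2 : ∀ j k, j < L → k + 1 < R → B (j + 1) k < B j (k + 1)
  hq : ∀ e j k j' k', e < 2 → j ≤ L → k < R → j' ≤ L → k' < R →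
    lt2 α e (i0 + j, B j k) (i0 + j', B j' k') → lt2 β e (q j k) (q j' k')

namespace Sys

variable {i0 L R : ℕ} {B : ℕ → ℕ → ℕ} {q : ℕ → ℕ → ℕ × ℕ}

theorem up (S : Sys α β i0 L R B q) {j k c : ℕ} (hj : j < L) (hk : k + 1 < R)
    (hc : (q j k).1 = c) (hc' : (q j (k + 1)).1 = c) : (q (j + 1) k).1 = c + 1 := by
  have b1 := S.h1 j k hj (by omega)
  have b2 := S.h2 j k hj hk
  -- direction of the shared line
  obtain ⟨e, he, hep⟩ : ∃ e, e < 2 ∧ (i0 + j + e) % 2 = 1 := by
    rcases Nat.mod_two_eq_zero_or_one (i0 + j) with h | h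
    · exact ⟨1, by omega, by omega⟩
    · exact ⟨0, by omega, by omega⟩
  have q1 := S.hq e j k (j + 1) k he (by omega) (by omega) (by omega) (by omega)
  have q2 := S.hq e (j + 1) k j (k + 1) he (by omega) (by omega) (by omega) (by omega)
  have q1' := S.hq e (j + 1) k j k he (by omega) (by omega) (by omega) (by omega)
  have q2' := S.hq e j (k + 1) (j + 1) k he (by omega) (by omega) (by omega) (by omega)
  have q3 := S.hq (1 - e) j k (j + 1) k (by omega) (by omega) (by omega) (by omega) (by omega)
    (by
      have := lt2_unshared (α := α) (e := 1 - e) (i := i0 + j) (a := B j k) (b := B (j + 1) k)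
        (by omega)
      simpa [Nat.add_assoc] using this)
  have q4 := S.hq (1 - e) j (k + 1) (j + 1) k (by omega) (by omega) (by omega) (by omega)
    (by omega) (by
      have := lt2_unshared (α := α) (e := 1 - e) (i := i0 + j) (a := B j (k + 1))
        (b := B (j + 1) k) (by omega)
      simpa [Nat.add_assoc] using this)
  refine up_cell he rfl hc hc' ?_ q3 q4
  have s1 := lt2_shared (α := α) (e := e) (i := i0 + j) (a := B j k) (b := B (j + 1) k) hep
  have s2 := lt2_shared' (α := α) (e := e) (i := i0 + j) (a := B j (k + 1)) (b := B (j + 1) k) hep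
  have s1' := lt2_shared' (α := α) (e := e) (i := i0 + j) (a := B j k) (b := B (j + 1) k) hep
  have s2' := lt2_shared (α := α) (e := e) (i := i0 + j) (a := B j (k + 1)) (b := B (j + 1) k) hep
  rw [Nat.add_assoc] at s1 s2 s1' s2'
  by_cases ho : ori α (i0 + (j + 1)) = true
  · left
    exact ⟨q1 (s1.2 (by rw [if_pos ho]; omega)), q2 (s2.2 (by rw [if_pos ho]; omega))⟩
  · right
    exact ⟨q2' (s2'.2 (by rw [if_neg ho]; omega)), q1' (s1'.2 (by rw [if_neg ho]; omega))⟩

theorem down (S : Sys α β i0 L R B q) {j k c : ℕ} (hj : j < L) (hk : k + 1 < R)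
    (hc : (q (j + 1) k).1 = c) (hc' : (q (j + 1) (k + 1)).1 = c) : (q j (k + 1)).1 + 1 = c := by
  have b1 := S.h1 j (k + 1) hj (by omega)
  have b2 := S.h2 j k hj hk
  -- direction of the shared line
  obtain ⟨e, he, hep⟩ : ∃ e, e < 2 ∧ (i0 + j + e) % 2 = 1 := by
    rcases Nat.mod_two_eq_zero_or_one (i0 + j) with h | h
    · exact ⟨1, by omega, by omega⟩
    · exact ⟨0, by omega, by omega⟩
  have q1 := S.hq e (j + 1) k j (k + 1) he (by omega) (by omega) (by omega) (by omega)
  have q2 := S.hq e j (k + 1) (j + 1) (k + 1) he (by omega) (by omega) (by omega) (by omega)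
  have q1' := S.hq e j (k + 1) (j + 1) k he (by omega) (by omega) (by omega) (by omega)
  have q2' := S.hq e (j + 1) (k + 1) j (k + 1) he (by omega) (by omega) (by omega) (by omega)
  have q3 := S.hq (1 - e) j (k + 1) (j + 1) k (by omega) (by omega) (by omega) (by omega)
    (by omega) (by
      have := lt2_unshared (α := α) (e := 1 - e) (i := i0 + j) (a := B j (k + 1))
        (b := B (j + 1) k) (by omega)
      simpa [Nat.add_assoc] using this)
  have q4 := S.hq (1 - e) j (k + 1) (j + 1) (k + 1) (by omega) (by omega) (by omega) (by omega)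
    (by omega) (by
      have := lt2_unshared (α := α) (e := 1 - e) (i := i0 + j) (a := B j (k + 1))
        (b := B (j + 1) (k + 1)) (by omega)
      simpa [Nat.add_assoc] using this)
  refine down_cell he rfl hc hc' ?_ q3 q4
  have s1 := lt2_shared' (α := α) (e := e) (i := i0 + j) (a := B j (k + 1)) (b := B (j + 1) k) hep
  have s2 := lt2_shared (α := α) (e := e) (i := i0 + j) (a := B j (k + 1))
    (b := B (j + 1) (k + 1)) hep
  have s1' := lt2_shared (α := α) (e := e) (i := i0 + j) (a := B j (k + 1)) (b := B (j + 1) k) hep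
  have s2' := lt2_shared' (α := α) (e := e) (i := i0 + j) (a := B j (k + 1))
    (b := B (j + 1) (k + 1)) hep
  rw [Nat.add_assoc] at s1 s2 s1' s2'
  by_cases ho : ori α (i0 + (j + 1)) = true
  · left
    exact ⟨q1 (s1.2 (by rw [if_pos ho]; omega)), q2 (s2.2 (by rw [if_pos ho]; omega))⟩
  · right
    exact ⟨q2' (s2'.2 (by rw [if_neg ho]; omega)), q1' (s1'.2 (by rw [if_neg ho]; omega))⟩

/-- wires increase inside a cell -/
theorem mono_succ (S : Sys α β i0 L R B q) (hL : 1 ≤ L) {j k : ℕ} (hj : j ≤ L)
    (hk : k + 1 < R) : B j k < B j (k + 1) := by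
  rcases Nat.lt_or_ge j L with h | h
  · exact (S.h1 j k h (by omega)).trans (S.h2 j k h hk)
  · obtain ⟨j, rfl⟩ : ∃ j', j = j' + 1 := ⟨j - 1, by omega⟩
    exact (S.h2 j k (by omega) hk).trans (S.h1 j (k + 1) (by omega) (by omega))

theorem mono (S : Sys α β i0 L R B q) (hL : 1 ≤ L) {j k k' : ℕ} (hj : j ≤ L)
    (hk : k < k') (hk' : k' < R) : B j k < B j k' := by
  induction k', hk using Nat.le_induction with
  | base => exact S.mono_succ hL hj hk'
  | succ k' hkk' ih => exact (ih (by omega)).trans (S.mono_succ hL hj (by omega))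

/-- the type of a cell is preserved as soon as two points of the cell are mapped to one cell -/
theorem type_eq (S : Sys α β i0 L R B q) (hL : 1 ≤ L) {j k k' c : ℕ} (hj : j ≤ L)
    (hk : k < k') (hk' : k' < R) (hc : (q j k).1 = c) (hc' : (q j k').1 = c) :
    α (i0 + j) = β c := by
  have hb := S.mono hL hj hk hk'
  have key : ∀ e, e < 2 → (ori α (ln e (i0 + j)) = ori β (ln e c) ↔ (q j k).2 < (q j k').2) := by
    intro e he
    have f1 := S.hq e j k j k' he hj (by omega) hj hk'
    have f2 := S.hq e j k' j k he hj hk' hj (by omega)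
    rw [lt2_same] at f1 f2
    have g1 := lt2_same (α := β) (e := e) (i := c) (a := (q j k).2) (b := (q j k').2)
    rw [show (c, (q j k).2) = q j k by rw [← hc], show (c, (q j k').2) = q j k' by rw [← hc']]
      at g1
    have g2 := lt2_same (α := β) (e := e) (i := c) (a := (q j k').2) (b := (q j k).2)
    rw [show (c, (q j k).2) = q j k by rw [← hc], show (c, (q j k').2) = q j k' by rw [← hc']]
      at g2
    rw [g1] at f1
    rw [g2] at f2
    cases h1 : ori α (ln e (i0 + j)) <;> cases h2 : ori β (ln e c) <;>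
      simp only [h1, h2, if_true, if_false, Bool.false_eq_true, true_iff, false_iff,
        reduceCtorEq] at f1 f2 ⊢
    · exact f2 hb
    · have := f2 hb; omega
    · have := f1 hb; omega
    · exact f1 hb
  have k0 := key 0 (by omega)
  have k1 := key 1 (by omega)
  have t1 := ori_type (α := α) (i0 + j)
  have t2 := ori_type (α := β) c
  rw [Bool.eq_iff_iff, ← t1, ← t2]
  by_cases hh : (q j k).2 < (q j k').2
  · rw [k0.2 hh, k1.2 hh]
  · have e0 : ori α (ln 0 (i0 + j)) ≠ ori β (ln 0 c) := fun h => hh (k0.1 h)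
    have e1 : ori α (ln 1 (i0 + j)) ≠ ori β (ln 1 c) := fun h => hh (k1.1 h)
    revert e0 e1
    cases ori α (ln 0 (i0 + j)) <;> cases ori β (ln 0 c) <;> cases ori α (ln 1 (i0 + j)) <;>
      cases ori β (ln 1 c) <;> simp

/-- images of the points of a decreasing cell -/
theorem opp (S : Sys α β i0 L R B q) (hL : 1 ≤ L) {j : ℕ} (hj : j ≤ L)
    (hD : α (i0 + j) = false) :
    ∃ e, e < 2 ∧ ∀ k k', k < k' → k' < R →
      lt2 β e (q j k) (q j k') ∧ lt2 β (1 - e) (q j k') (q j k) := by
  have t1 := ori_type (α := α) (i0 + j)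
  have hne : ori α (ln 0 (i0 + j)) ≠ ori α (ln 1 (i0 + j)) := by
    intro h
    rw [t1.1 h] at hD
    exact absurd hD (by simp)
  rcases Bool.eq_false_or_eq_true (ori α (ln 0 (i0 + j))) with h0 | h0
  · have h1 : ori α (ln 1 (i0 + j)) = false := by
      rw [h0] at hne
      cases h : ori α (ln 1 (i0 + j))
      · rfl
      · rw [h] at hne; exact absurd rfl hne
    refine ⟨0, by omega, fun k k' hk hk' => ⟨?_, ?_⟩⟩
    · exact S.hq 0 j k j k' (by omega) hj (by omega) hj hk'
        ((lt2_same_true h0).2 (S.mono hL hj hk hk'))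
    · exact S.hq 1 j k' j k (by omega) hj (by omega) hj (by omega)
        ((lt2_same_false h1).2 (S.mono hL hj hk hk'))
  · have h1 : ori α (ln 1 (i0 + j)) = true := by
      rw [h0] at hne
      cases h : ori α (ln 1 (i0 + j))
      · rw [h] at hne; exact absurd rfl hne
      · rfl
    refine ⟨1, by omega, fun k k' hk hk' => ⟨?_, ?_⟩⟩
    · exact S.hq 1 j k j k' (by omega) hj (by omega) hj hk'
        ((lt2_same_true h1).2 (S.mono hL hj hk hk'))
    · exact S.hq 0 j k' j k (by omega) hj (by omega) hj (by omega)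
        ((lt2_same_false h0).2 (S.mono hL hj hk hk'))

/-- localisation: a long interval of points of a decreasing cell goes to one cell -/
theorem local_cell (S : Sys α β i0 L R B q) (hL : 1 ≤ L) {j : ℕ} (hj : j ≤ L)
    (hD : α (i0 + j) = false) (h : ℕ) (hR : 2 * h < R) :
    ∃ s c, s + h < R ∧ ∀ k, s ≤ k → k ≤ s + h → (q j k).1 = c := by
  obtain ⟨e, he, hopp⟩ := S.opp hL hj hD
  -- cells of any two images differ by at most one
  have near : ∀ k k', k < R → k' < R → (q j k).1 ≤ (q j k').1 + 1 := by
    have aux : ∀ k k', k < k' → k' < R →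
        (q j k).1 ≤ (q j k').1 + 1 ∧ (q j k').1 ≤ (q j k).1 + 1 := by
      intro k k' hk hk'
      obtain ⟨o1, o2⟩ := hopp k k' hk hk'
      constructor
      · by_contra hh
        have : lt2 β e (q j k') (q j k) :=
          lt2_far (i := (q j k').1) (j := (q j k).1) (by omega)
        exact lt2_asymm o1 this
      · by_contra hh
        have : lt2 β (1 - e) (q j k) (q j k') :=
          lt2_far (i := (q j k).1) (j := (q j k').1) (by omega)
        exact lt2_asymm o2 this
    intro k k' hk hk'
    rcases lt_trichotomy k k' with h | h | h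
    · exact (aux k k' h hk').1
    · subst h; omega
    · exact (aux k' k h hk).2
  set c := (q j h).1 with hc
  by_cases hlow : ∀ k, k ≤ h → (q j k).1 = c
  · exact ⟨0, c, by omega, fun k _ hk => hlow k (by omega)⟩
  · refine ⟨h, c, by omega, fun k3 hk3 hk3' => ?_⟩
    push Not at hlow
    obtain ⟨k1, hk1, hk1'⟩ := hlow
    by_contra hne
    have hk1h : k1 < h := by
      rcases Nat.lt_or_ge k1 h with h' | h'
      · exact h'
      · exact absurd (by rw [show k1 = h by omega]) hk1'
    have hk3h : h < k3 := by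
      rcases Nat.lt_or_ge h k3 with h' | h'
      · exact h'
      · exact absurd (by rw [show k3 = h by omega]) hne
    have n1 := near k1 h (by omega) (by omega)
    have n2 := near h k1 (by omega) (by omega)
    have n3 := near k3 h (by omega) (by omega)
    have n4 := near h k3 (by omega) (by omega)
    have n5 := near k1 k3 (by omega) (by omega)
    have n6 := near k3 k1 (by omega) (by omega)
    obtain ⟨o1, o2⟩ := hopp k1 h hk1h (by omega)
    obtain ⟨o3, o4⟩ := hopp h k3 hk3h (by omega)
    have hcc : (q j h).1 = c := rfl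
    -- both outer points are in the same neighbouring cell
    have hsame : (q j k1).1 = (q j k3).1 := by omega
    have hadj : (q j k1).1 = c + 1 ∨ (q j k1).1 + 1 = c := by omega
    -- a direction in which the two cells are separated
    have hsep : ∀ e', e' < 2 → (e' = e ∨ e' = 1 - e) →
        ((c + e') % 2 = 0 ∧ (q j k1).1 = c + 1) ∨
        (((q j k1).1 + e') % 2 = 0 ∧ (q j k1).1 + 1 = c) → False := by
      intro e' he' hee hcase
      rcases hcase with ⟨hp, hcell⟩ | ⟨hp, hcell⟩
      · have w1 : lt2 β e' (q j h) (q j k1) := by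
          have := lt2_unshared (α := β) (e := e') (i := c) (a := (q j h).2) (b := (q j k1).2) hp
          rwa [← hcell] at this
        have w3 : lt2 β e' (q j h) (q j k3) := by
          have := lt2_unshared (α := β) (e := e') (i := c) (a := (q j h).2) (b := (q j k3).2) hp
          rwa [← hcell, hsame] at this
        rcases hee with rfl | rfl
        · exact lt2_asymm o1 w1
        · exact lt2_asymm o4 w3
      · have w1 : lt2 β e' (q j k1) (q j h) := by
          have := lt2_unshared (α := β) (e := e') (i := (q j k1).1) (a := (q j k1).2)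
            (b := (q j h).2) hp
          rwa [hcell] at this
        have w3 : lt2 β e' (q j k3) (q j h) := by
          have := lt2_unshared (α := β) (e := e') (i := (q j k3).1) (a := (q j k3).2)
            (b := (q j h).2) (by rw [← hsame]; exact hp)
          rwa [show (q j k3).1 + 1 = (q j h).1 by omega] at this
        rcases hee with rfl | rfl
        · exact lt2_asymm o3 w3
        · exact lt2_asymm o2 w1
    rcases hadj with hcell | hcell
    · rcases Nat.mod_two_eq_zero_or_one (c + e) with hp | hp
      · exact hsep e he (Or.inl rfl) (Or.inl ⟨hp, hcell⟩)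
      · exact hsep (1 - e) (by omega) (Or.inr rfl) (Or.inl ⟨by omega, hcell⟩)
    · rcases Nat.mod_two_eq_zero_or_one ((q j k1).1 + e) with hp | hp
      · exact hsep e he (Or.inl rfl) (Or.inr ⟨hp, hcell⟩)
      · exact hsep (1 - e) (by omega) (Or.inr rfl) (Or.inr ⟨by omega, hcell⟩)

/-- **Reading lemma.** -/
theorem read (S : Sys α β i0 L R B q) (hL : 1 ≤ L) (hR : 2 * L + 2 < R)
    (hD : ∃ d ≤ L, α (i0 + d) = false) : ∃ c, ∀ j ≤ L, α (i0 + j) = β (c + j) := by
  obtain ⟨d, hd, hD⟩ := hD
  obtain ⟨s, c, hs, hloc⟩ := S.local_cell hL hd hD (L + 1) (by omega)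
  -- upwards
  have hup : ∀ r, d + r ≤ L → ∀ k, s ≤ k → k + r ≤ s + (L + 1) → (q (d + r) k).1 = c + r := by
    intro r
    induction r with
    | zero => intro _ k hk hk'; exact hloc k hk (by omega)
    | succ r ih =>
      intro hr k hk hk'
      have := S.up (j := d + r) (k := k) (c := c + r) (by omega) (by omega)
        (ih (by omega) k hk (by omega)) (ih (by omega) (k + 1) (by omega) (by omega))
      exact this
  have hdown : ∀ r, r ≤ d → ∀ k, s + r ≤ k → k ≤ s + (L + 1) → (q (d - r) k).1 + r = c := by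
    intro r
    induction r with
    | zero => intro _ k hk hk'; exact hloc k (by omega) (by omega)
    | succ r ih =>
      intro hr k hk hk'
      obtain ⟨k, rfl⟩ : ∃ k', k = k' + 1 := ⟨k - 1, by omega⟩
      have e1 : d - r = (d - (r + 1)) + 1 := by omega
      have i1 := ih (by omega) k (by omega) (by omega)
      have i2 := ih (by omega) (k + 1) (by omega) (by omega)
      rw [e1] at i1 i2
      have := S.down (j := d - (r + 1)) (k := k) (c := c - r) (by omega) (by omega)
        (by omega) (by omega)
      omega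
  have hcd : d ≤ c := by
    have := hdown d le_rfl (s + d) le_rfl (by omega)
    omega
  refine ⟨c - d, fun j hj => ?_⟩
  rcases Nat.lt_or_ge j d with hjd | hjd
  · have g1 := hdown (d - j) (by omega) (s + (d - j)) le_rfl (by omega)
    have g2 := hdown (d - j) (by omega) (s + (d - j) + 1) (by omega) (by omega)
    rw [show d - (d - j) = j by omega] at g1 g2
    exact S.type_eq hL hj (k := s + (d - j)) (k' := s + (d - j) + 1) (by omega) (by omega)
      (c := c - d + j) (by omega) (by omega)
  · have g1 := hup (j - d) (by omega) s le_rfl (by omega)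
    have g2 := hup (j - d) (by omega) (s + 1) (by omega) (by omega)
    rw [show d + (j - d) = j by omega] at g1 g2
    exact S.type_eq hL hj (k := s) (k' := s + 1) (by omega) (by omega)
      (c := c - d + j) (by omega) (by omega)

end Sys

end Pool.Agent.GridW
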